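import Pool.Agent.FI37.Main

/-!
# Forbidden intersections of permutations, `n ≥ C t` (MP_ee287f_co): common definitions
-/

namespace Pool.Agent.CL24

open Finset Equiv Nat Pool.Agent.H17.PermInt Pool.Agent.FI37

/-- sets of size at most `j` contained in a member of `U` -/
def dn {Ω : Type*} [DecidableEq Ω] (U : Finset (Finset Ω)) (j : ℕ) : Finset (Finset Ω) :=
  (U.biUnion fun u => u.powerset).filter fun J => J.card ≤ j

theorem mem_dn {Ω : Type*} [DecidableEq Ω] {U : Finset (Finset Ω)} {j : ℕ} {J : Finset Ω} :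
    J ∈ dn U j ↔ (∃ u ∈ U, J ⊆ u) ∧ J.card ≤ j := by
  simp [dn]

theorem dn_mono {Ω : Type*} [DecidableEq Ω] {U V : Finset (Finset Ω)} (h : U ⊆ V) {i j : ℕ}
    (hij : i ≤ j) : dn U i ⊆ dn V j := by
  intro J hJ
  rw [mem_dn] at hJ ⊢
  obtain ⟨⟨u, hu, hJu⟩, hc⟩ := hJ
  exact ⟨⟨u, h hu, hJu⟩, hc.trans hij⟩

/-- `U` consists of `M`-sets, no two different members meet in exactly `k` points, and `U` has at
most `B n^j` faces of size at most `j` and at most `B n^(M-s)` members through any `s`-set. -/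
structure Uni {Ω : Type*} [DecidableEq Ω] (U : Finset (Finset Ω)) (M k n : ℕ) (B : ℝ) : Prop where
  card : ∀ u ∈ U, u.card = M
  avoid : ∀ u ∈ U, ∀ u' ∈ U, u ≠ u' → (u ∩ u').card ≠ k
  faces : ∀ j, ((dn U j).card : ℝ) ≤ B * (n : ℝ) ^ j
  thru : ∀ c : Finset Ω, c.card ≤ M →
    ((U.filter fun u => c ⊆ u).card : ℝ) ≤ B * (n : ℝ) ^ (M - c.card)

/-- sums `k + p₁ + p₂ < M` with primes `p₁ > k` and `p₂ > k + p₁` -/
noncomputable def skip (k M : ℕ) : Finset ℕ := by
  classical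
  exact (range M).filter fun s => ∃ p₁ p₂ : ℕ, p₁.Prime ∧ p₂.Prime ∧ k < p₁ ∧ k + p₁ < p₂ ∧
    s = k + p₁ + p₂

/-- the family of subfamilies is `r`-spread outside `u` -/
def Sp {Ω : Type*} [DecidableEq Ω] (r : ℝ) (u : Finset Ω) (A : Finset (Finset Ω)) : Prop :=
  ∀ S : Finset Ω, Disjoint S u →
    ((A.filter fun X => S ⊆ X).card : ℝ) * r ^ S.card ≤ (A.card : ℝ)

/-- a family of permutations, all containing `u`, `r`-spread outside `u` -/
structure Pc {n : ℕ} (r : ℝ) (u : Finset (Fin n × Fin n)) (A : Finset (Perm (Fin n))) : Prop where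
  ne : A.Nonempty
  st : InSt u A
  sp : ∀ S : Finset (Fin n × Fin n), Disjoint S u →
    ((A.filter fun σ => S ⊆ gr σ).card : ℝ) * r ^ S.card ≤ (A.card : ℝ)

/-- number of subsets of size at most `z` of an `n`-set -/
def Bz (n z : ℕ) : ℕ := ∑ i ∈ range (z + 1), n.choose i

/-- restriction of the graph of `σ` to the rows of `K` -/
def rs {n : ℕ} (K : Finset (Fin n)) (σ : Perm (Fin n)) : Finset (Fin n × Fin n) :=
  (gr σ).filter fun q => q.1 ∈ K

theorem mem_rs {n : ℕ} {K : Finset (Fin n)} {σ : Perm (Fin n)} {q : Fin n × Fin n} :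
    q ∈ rs K σ ↔ σ q.1 = q.2 ∧ q.1 ∈ K := by
  simp [rs, mem_gr]

end Pool.Agent.CL24
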