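import Pool.Agent.CL24.FW

/-!
# Three-colouring step (MP_ee287f_co)
-/

set_option autoImplicit false

namespace Pool.Agent.CL24

open Finset Equiv Nat Pool.Agent.H17.PermInt Pool.Agent.FI37

/-- number of colourings with prescribed values on `T` -/
theorem cs_count {Ω : Type*} [Fintype Ω] [DecidableEq Ω] (T : Finset Ω) (f : Ω → Fin 3) :
    ((univ : Finset (Ω → Fin 3)).filter fun χ => ∀ x ∈ T, χ x = f x).card * 3 ^ T.card =
      3 ^ Fintype.card Ω := by
  classical
  have h1 : ((univ : Finset (Ω → Fin 3)).filter fun χ => ∀ x ∈ T, χ x = f x) =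
      Fintype.piFinset (fun x => if x ∈ T then {f x} else univ) := by
    ext χ
    simp only [mem_filter, mem_univ, true_and, Fintype.mem_piFinset]
    constructor
    · intro h x
      by_cases hx : x ∈ T
      · simp [hx, h x hx]
      · simp [hx]
    · intro h x hx
      have := h x
      simpa [hx] using this
  rw [h1, Fintype.card_piFinset]
  have h2 : ∀ x : Ω, (if x ∈ T then ({f x} : Finset (Fin 3)) else univ).card =
      if x ∈ T then 1 else 3 := by
    intro x
    by_cases hx : x ∈ T <;> simp [hx]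
  rw [Finset.prod_congr rfl fun x _ => h2 x, Finset.prod_ite]
  simp only [prod_const_one, one_mul, prod_const]
  rw [← pow_add]
  congr 1
  have h3 : (univ.filter fun x : Ω => x ∉ T) = univ \ T := by
    ext x; simp
  rw [h3, Finset.card_sdiff_of_subset (subset_univ T), Finset.card_univ]
  have := Finset.card_le_univ T
  omega

section

variable {Ω : Type*} [DecidableEq Ω]

/-- colour classes: `0` on `c`, `1` on `u \ c`, `2` on `u' \ c` -/
def CsGood (χ : Ω → Fin 3) (c u u' : Finset Ω) : Prop :=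
  (∀ x ∈ c, χ x = 0) ∧ (∀ x ∈ u, x ∉ c → χ x = 1) ∧ (∀ x ∈ u', x ∉ c → χ x = 2)

open Classical in
theorem cs_good_count [Fintype Ω] {c u u' : Finset Ω} {M : ℕ} (hu : u.card = M)
    (hu' : u'.card = M) (hc : u ∩ u' = c) :
    3 ^ Fintype.card Ω ≤
      9 ^ M * ((univ : Finset (Ω → Fin 3)).filter fun χ => CsGood χ c u u').card := by
  have h1 := cs_count (u ∪ u') (fun x => if x ∈ c then 0 else if x ∈ u then 1 else 2)
  have h2 : ((univ : Finset (Ω → Fin 3)).filter fun χ => ∀ x ∈ u ∪ u',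
      χ x = if x ∈ c then 0 else if x ∈ u then 1 else 2) ⊆
      (univ : Finset (Ω → Fin 3)).filter fun χ => CsGood χ c u u' := by
    intro χ hχ
    simp only [mem_filter, mem_univ, true_and] at hχ ⊢
    refine ⟨?_, ?_, ?_⟩
    · intro x hx
      have hxu : x ∈ u ∪ u' := by
        rw [← hc] at hx
        exact mem_union_left _ (mem_inter.1 hx).1
      rw [hχ x hxu, if_pos hx]
    · intro x hx hxc
      rw [hχ x (mem_union_left _ hx), if_neg hxc, if_pos hx]
    · intro x hx hxc
      have hxu : x ∉ u := by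
        intro hxu
        exact hxc (hc ▸ mem_inter.2 ⟨hxu, hx⟩)
      rw [hχ x (mem_union_right _ hx), if_neg hxc, if_neg hxu]
  have h3 := card_le_card h2
  have h4 : (u ∪ u').card ≤ 2 * M := by
    have := card_union_le u u'
    omega
  have h5 : (3 : ℕ) ^ (u ∪ u').card ≤ 9 ^ M := by
    calc (3 : ℕ) ^ (u ∪ u').card ≤ 3 ^ (2 * M) := Nat.pow_le_pow_right (by norm_num) h4
      _ = 9 ^ M := by rw [pow_mul]; norm_num
  calc 3 ^ Fintype.card Ω = _ := h1.symm
    _ ≤ _ := Nat.mul_le_mul h3 h5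
    _ = _ := by rw [mul_comm]

/-- two colour-good pairs meet in the intersection of their centres -/
theorem cs_inter {χ : Ω → Fin 3} {c u u' d v v' : Finset Ω} (h : CsGood χ c u u')
    (g : CsGood χ d v v') (hc : c ⊆ u) (hd : d ⊆ v') : u ∩ v' = c ∩ d := by
  ext x
  simp only [mem_inter]
  constructor
  · rintro ⟨hx, hx'⟩
    by_cases h1 : x ∈ c
    · by_cases h2 : x ∈ d
      · exact ⟨h1, h2⟩
      · have a := h.1 x h1
        have b := g.2.2 x hx' h2
        rw [a] at b
        exact absurd b (by decide)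
    · have a := h.2.1 x hx h1
      by_cases h2 : x ∈ d
      · have b := g.1 x h2
        rw [a] at b
        exact absurd b (by decide)
      · have b := g.2.2 x hx' h2
        rw [a] at b
        exact absurd b (by decide)
  · rintro ⟨h1, h2⟩
    exact ⟨hc h1, hd h2⟩

theorem cs_ne {χ : Ω → Fin 3} {c u u' d v v' : Finset Ω} (h : CsGood χ c u u')
    (g : CsGood χ d v v') (hc : c.card < u.card) (hcu : c ⊆ u) : u ≠ v' := by
  intro e
  have : (u \ c).Nonempty := by
    rw [← card_pos, card_sdiff_of_subset hcu]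
    omega
  obtain ⟨x, hx⟩ := this
  rw [mem_sdiff] at hx
  have a := h.2.1 x hx.1 hx.2
  by_cases h2 : x ∈ d
  · have b := g.1 x h2
    rw [a] at b
    exact absurd b (by decide)
  · have b := g.2.2 x (e ▸ hx.1) h2
    rw [a] at b
    exact absurd b (by decide)

end

theorem badstep {Ω : Type*} [Fintype Ω] [DecidableEq Ω] {U : Finset (Finset Ω)} {M k n p : ℕ}
    {B : ℝ} (h : Uni U M k n B) (hB : 0 ≤ B) (hp : p.Prime) (hkp : k < p) (hM : k + p < M) :
    ((U.filter fun u => ∃ u' ∈ U, u' ≠ u ∧ (u ∩ u').card = k + p).card : ℝ) ≤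
      9 ^ M * B ^ 2 * (n : ℝ) ^ (M - k - 1) := by
  classical
  have : Fact p.Prime := ⟨hp⟩
  -- the intersections
  set Cs : Finset (Finset Ω) :=
    ((U ×ˢ U).filter fun q => q.1 ≠ q.2 ∧ (q.1 ∩ q.2).card = k + p).image
      fun q => q.1 ∩ q.2 with hCs
  have hex : ∀ c : Finset Ω, ∃ q : Finset Ω × Finset Ω, c ∈ Cs →
      q.1 ∈ U ∧ q.2 ∈ U ∧ q.1 ≠ q.2 ∧ q.1 ∩ q.2 = c ∧ c.card = k + p := by
    intro c
    by_cases hc : c ∈ Cs
    · have hc' := hc
      rw [hCs, mem_image] at hc'
      obtain ⟨q, hq, rfl⟩ := hc'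
      rw [mem_filter, mem_product] at hq
      exact ⟨q, fun _ => ⟨hq.1.1, hq.1.2, hq.2.1, rfl, hq.2.2⟩⟩
    · exact ⟨(∅, ∅), fun h' => absurd h' hc⟩
  choose q hq using hex
  -- the bound for each colouring
  have hX : ∀ χ : Ω → Fin 3,
      ((Cs.filter fun c => CsGood χ c (q c).1 (q c).2).card : ℝ) ≤ B * (n : ℝ) ^ (p - 1) := by
    intro χ
    set C' := Cs.filter fun c => CsGood χ c (q c).1 (q c).2 with hC'
    have hmem : ∀ c ∈ C', c ∈ Cs ∧ CsGood χ c (q c).1 (q c).2 := fun c hc => by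
      rw [hC', mem_filter] at hc; exact hc
    have h1 : ∀ c ∈ C', ∀ c' ∈ C', c ≠ c' →
        (((c ∩ c').card : ℕ) : ZMod p) ∈ (univ : Finset (ZMod p)).erase (k : ZMod p) := by
      intro c hc c' hc' hne
      obtain ⟨hcs, hg⟩ := hmem c hc
      obtain ⟨hcs', hg'⟩ := hmem c' hc'
      obtain ⟨ha, hb, hab, hi, hcard⟩ := hq c hcs
      obtain ⟨ha', hb', hab', hi', hcard'⟩ := hq c' hcs'
      have hsub : c ⊆ (q c).1 := by
        intro x hx
        rw [← hi] at hx
        exact (mem_inter.1 hx).1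
      have hsub' : c' ⊆ (q c').2 := by
        intro x hx
        rw [← hi'] at hx
        exact (mem_inter.1 hx).2
      have e1 : (q c).1 ∩ (q c').2 = c ∩ c' := cs_inter hg hg' hsub hsub'
      have e2 : (q c).1 ≠ (q c').2 :=
        cs_ne hg hg' (by rw [hcard, h.card _ ha]; exact hM) hsub
      have e3 := h.avoid _ ha _ hb' e2
      rw [e1] at e3
      have e4 : (c ∩ c').card < k + p := by
        by_contra hlt
        push Not at hlt
        have e5 : c ∩ c' = c := eq_of_subset_of_card_le inter_subset_left (by rw [hcard]; exact hlt)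
        have e6 : c ∩ c' = c' :=
          eq_of_subset_of_card_le inter_subset_right (by rw [hcard']; exact hlt)
        exact hne (e5.symm.trans e6)
      rw [mem_erase]
      refine ⟨?_, mem_univ _⟩
      intro e
      rw [ZMod.natCast_eq_natCast_iff] at e
      -- c ∩ c' card ≡ k mod p
      have e7 : (c ∩ c').card % p = k := by
        have : (c ∩ c').card % p = k % p := e
        rw [this, Nat.mod_eq_of_lt hkp]
      have e8 := Nat.div_add_mod (c ∩ c').card p
      rw [e7] at e8
      have e9 : (c ∩ c').card / p = 0 := by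
        by_contra h0
        have : 1 ≤ (c ∩ c').card / p := Nat.one_le_iff_ne_zero.2 h0
        have : p * 1 ≤ p * ((c ∩ c').card / p) := Nat.mul_le_mul_left _ this
        omega
      rw [e9] at e8
      apply e3
      omega
    have h2 : ∀ c ∈ C', ((c.card : ℕ) : ZMod p) ∉
        (univ : Finset (ZMod p)).erase (k : ZMod p) := by
      intro c hc
      obtain ⟨hcs, -⟩ := hmem c hc
      obtain ⟨-, -, -, -, hcard⟩ := hq c hcs
      rw [hcard]
      simp
    have h3 := fw C' _ h1 h2
    have h4 : ((univ : Finset (ZMod p)).erase (k : ZMod p)).card = p - 1 := by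
      rw [card_erase_of_mem (mem_univ _), Finset.card_univ, ZMod.card]
    rw [h4] at h3
    have h5 : dn C' (p - 1) ⊆ dn U (p - 1) := by
      intro J hJ
      rw [mem_dn] at hJ ⊢
      obtain ⟨⟨c, hc, hJc⟩, hJ2⟩ := hJ
      obtain ⟨hcs, -⟩ := hmem c hc
      obtain ⟨ha, -, -, hi, -⟩ := hq c hcs
      refine ⟨⟨(q c).1, ha, hJc.trans ?_⟩, hJ2⟩
      intro x hx
      rw [← hi] at hx
      exact (mem_inter.1 hx).1
    calc (C'.card : ℝ) ≤ ((dn U (p - 1)).card : ℝ) := by
          exact_mod_cast h3.trans (card_le_card h5)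
      _ ≤ _ := h.faces _
  -- double counting
  have hcount : (Cs.card : ℝ) ≤ 9 ^ M * (B * (n : ℝ) ^ (p - 1)) := by
    have a1 : Cs.card * 3 ^ Fintype.card Ω ≤
        9 ^ M * ∑ χ : Ω → Fin 3, (Cs.filter fun c => CsGood χ c (q c).1 (q c).2).card := by
      have b1 : ∑ χ : Ω → Fin 3, (Cs.filter fun c => CsGood χ c (q c).1 (q c).2).card =
          ∑ c ∈ Cs, ((univ : Finset (Ω → Fin 3)).filter fun χ =>
            CsGood χ c (q c).1 (q c).2).card := by
        simp only [card_filter]
        rw [sum_comm]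
      rw [b1, mul_sum, ← smul_eq_mul, ← sum_const]
      apply sum_le_sum
      intro c hc
      obtain ⟨ha, hb, -, hi, -⟩ := hq c hc
      have := cs_good_count (h.card _ ha) (h.card _ hb) hi
      convert this
    have a2 : ((∑ χ : Ω → Fin 3,
        (Cs.filter fun c => CsGood χ c (q c).1 (q c).2).card : ℕ) : ℝ) ≤
        3 ^ Fintype.card Ω * (B * (n : ℝ) ^ (p - 1)) := by
      push_cast
      calc (∑ χ : Ω → Fin 3,
            ((Cs.filter fun c => CsGood χ c (q c).1 (q c).2).card : ℝ)) ≤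
          ∑ _χ : Ω → Fin 3, B * (n : ℝ) ^ (p - 1) := sum_le_sum fun χ _ => hX χ
        _ = _ := by
          rw [sum_const, Finset.card_univ, Fintype.card_fun, Fintype.card_fin, nsmul_eq_mul]
          push_cast
          ring
    have a3 : (Cs.card : ℝ) * 3 ^ Fintype.card Ω ≤
        9 ^ M * (3 ^ Fintype.card Ω * (B * (n : ℝ) ^ (p - 1))) := by
      calc (Cs.card : ℝ) * 3 ^ Fintype.card Ω ≤ 9 ^ M * ((∑ χ : Ω → Fin 3,
            (Cs.filter fun c => CsGood χ c (q c).1 (q c).2).card : ℕ) : ℝ) := by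
            exact_mod_cast a1
        _ ≤ _ := by gcongr
    have a4 : (0 : ℝ) < 3 ^ Fintype.card Ω := by positivity
    nlinarith [a3, a4]
  -- covering
  have hcov : (U.filter fun u => ∃ u' ∈ U, u' ≠ u ∧ (u ∩ u').card = k + p) ⊆
      Cs.biUnion fun c => U.filter fun u => c ⊆ u := by
    intro u hu
    rw [mem_filter] at hu
    obtain ⟨huU, u', hu', hne, hcard⟩ := hu
    rw [mem_biUnion]
    refine ⟨u ∩ u', ?_, ?_⟩
    · rw [hCs, mem_image]
      exact ⟨(u, u'), by simp [huU, hu', hne.symm, hcard], rfl⟩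
    · rw [mem_filter]
      exact ⟨huU, inter_subset_left⟩
  calc ((U.filter fun u => ∃ u' ∈ U, u' ≠ u ∧ (u ∩ u').card = k + p).card : ℝ) ≤
      ((∑ c ∈ Cs, (U.filter fun u => c ⊆ u).card : ℕ) : ℝ) := by
        exact_mod_cast (card_le_card hcov).trans card_biUnion_le
    _ = ∑ c ∈ Cs, ((U.filter fun u => c ⊆ u).card : ℝ) := by push_cast; rfl
    _ ≤ ∑ _c ∈ Cs, B * (n : ℝ) ^ (M - (k + p)) := by
        apply sum_le_sum
        intro c hc
        obtain ⟨-, -, -, -, hcard⟩ := hq c hc
        have := h.thru c (by rw [hcard]; exact hM.le)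
        rwa [hcard] at this
    _ = (Cs.card : ℝ) * (B * (n : ℝ) ^ (M - (k + p))) := by
        rw [sum_const, nsmul_eq_mul]
    _ ≤ (9 ^ M * (B * (n : ℝ) ^ (p - 1))) * (B * (n : ℝ) ^ (M - (k + p))) := by
        gcongr
    _ = 9 ^ M * B ^ 2 * ((n : ℝ) ^ (p - 1) * (n : ℝ) ^ (M - (k + p))) := by ring
    _ = 9 ^ M * B ^ 2 * (n : ℝ) ^ (M - k - 1) := by
        rw [← pow_add]
        congr 2
        have := hp.one_lt
        omega

end Pool.Agent.CL24
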