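import Pool.Agent.CL24.Base

/-!
# CL24/Cnt: counting faces and members (module 10, helper74)

A family of graphs of injective maps whose sets of rows are `K` plus `z` rows has few faces and few members through a given set.
-/

set_option autoImplicit false

namespace Pool.Agent.CL24

open Finset Equiv Nat Pool.Agent.H17.PermInt Pool.Agent.FI37

private theorem fn {n : ℕ} {u : Finset (Fin n × Fin n)} (h : ∃ σ : Perm (Fin n), u ⊆ gr σ)
    {i a b : Fin n} (ha : (i, a) ∈ u) (hb : (i, b) ∈ u) : a = b := by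
  obtain ⟨σ, hσ⟩ := h
  have h1 := mem_gr.1 (hσ ha)
  have h2 := mem_gr.1 (hσ hb)
  simp only at h1 h2
  rw [← h1, ← h2]

private theorem card_rows {n : ℕ} {u : Finset (Fin n × Fin n)}
    (h : ∃ σ : Perm (Fin n), u ⊆ gr σ) : (u.image Prod.fst).card = u.card := by
  apply Finset.card_image_of_injOn
  rintro ⟨i, a⟩ ha ⟨j, b⟩ hb hij
  simp only at hij
  subst hij
  rw [fn h ha hb]

/-- the sets with rows `R` containing `c` -/
private theorem fiber_le {n N : ℕ} (hn : 1 ≤ n) (V : Finset (Finset (Fin n × Fin n)))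
    (c : Finset (Fin n × Fin n))
    (hV : ∀ J ∈ V, c ⊆ J ∧ J.card ≤ N ∧ ∃ σ : Perm (Fin n), J ⊆ gr σ) (R : Finset (Fin n))
    (hR : R ∈ V.image fun J => J.image Prod.fst) :
    (V.filter fun J => J.image Prod.fst = R).card ≤ n ^ (N - c.card) := by
  classical
  set R' := R \ c.image Prod.fst with hR'
  let F : (∀ i ∈ R', Fin n) → Finset (Fin n × Fin n) := fun g =>
    c ∪ R'.attach.image fun i => (i.1, g i.1 i.2)
  have hsub : (V.filter fun J => J.image Prod.fst = R) ⊆
      (R'.pi fun _ => (univ : Finset (Fin n))).image F := by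
    intro J hJ
    rw [mem_filter] at hJ
    obtain ⟨hJV, hJR⟩ := hJ
    obtain ⟨hcJ, _, hσ⟩ := hV J hJV
    have hex : ∀ i ∈ R', ∃ b, (i, b) ∈ J := by
      intro i hi
      have h1 : i ∈ J.image Prod.fst := by
        rw [hJR]
        exact (mem_sdiff.1 hi).1
      obtain ⟨⟨i', b⟩, hb, rfl⟩ := mem_image.1 h1
      exact ⟨b, hb⟩
    rw [mem_image]
    refine ⟨fun i hi => (hex i hi).choose, ?_, ?_⟩
    · rw [Finset.mem_pi]
      intro i hi
      exact mem_univ _
    · ext ⟨a, b⟩
      simp only [F, mem_union, mem_image, mem_attach, true_and, Subtype.exists, Prod.mk.injEq]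
      constructor
      · rintro (h | ⟨i, hi, rfl, rfl⟩)
        · exact hcJ h
        · exact (hex i hi).choose_spec
      · intro h
        by_cases ha : a ∈ c.image Prod.fst
        · left
          obtain ⟨⟨a', b'⟩, hb', rfl⟩ := mem_image.1 ha
          have := fn hσ (hcJ hb') h
          simp only at this ⊢
          rw [← this]
          exact hb'
        · right
          have haR : a ∈ R' := by
            rw [hR', mem_sdiff]
            refine ⟨?_, ha⟩
            rw [← hJR]
            exact mem_image.2 ⟨(a, b), h, rfl⟩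
          exact ⟨a, haR, rfl, fn hσ (hex a haR).choose_spec h⟩
  obtain ⟨J₀, hJ₀, hJR₀⟩ := mem_image.1 hR
  obtain ⟨hc₀, hN₀, hσ₀⟩ := hV J₀ hJ₀
  have hcard : R'.card ≤ N - c.card := by
    have hσc : ∃ σ : Perm (Fin n), c ⊆ gr σ := by
      obtain ⟨σ, h⟩ := hσ₀
      exact ⟨σ, hc₀.trans h⟩
    have h1 : c.image Prod.fst ⊆ R := by
      rw [← hJR₀]
      exact Finset.image_subset_image hc₀
    rw [hR', Finset.card_sdiff_of_subset h1, card_rows hσc, ← hJR₀, card_rows hσ₀]
    exact Nat.sub_le_sub_right hN₀ _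
  calc (V.filter fun J => J.image Prod.fst = R).card
      ≤ ((R'.pi fun _ => (univ : Finset (Fin n))).image F).card := Finset.card_le_card hsub
    _ ≤ (R'.pi fun _ => (univ : Finset (Fin n))).card := Finset.card_image_le
    _ = n ^ R'.card := by
        rw [Finset.card_pi]
        simp
    _ ≤ n ^ (N - c.card) := Nat.pow_le_pow_right hn hcard

private theorem total_le {n N : ℕ} (hn : 1 ≤ n) (V : Finset (Finset (Fin n × Fin n)))
    (c : Finset (Fin n × Fin n))
    (hV : ∀ J ∈ V, c ⊆ J ∧ J.card ≤ N ∧ ∃ σ : Perm (Fin n), J ⊆ gr σ) :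
    V.card ≤ n ^ (N - c.card) * (V.image fun J => J.image Prod.fst).card :=
  Finset.card_le_mul_card_image V _ fun R hR => fiber_le hn V c hV R hR

private theorem small_card (n z : ℕ) :
    ((univ : Finset (Finset (Fin n))).filter fun T => T.card ≤ z).card = Bz n z := by
  classical
  unfold Bz
  have h : ((univ : Finset (Finset (Fin n))).filter fun T => T.card ≤ z) =
      (range (z + 1)).biUnion fun i => powersetCard i univ := by
    ext T
    simp only [mem_filter, mem_univ, true_and, mem_biUnion, mem_range, mem_powersetCard,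
      subset_univ]
    constructor
    · intro h
      exact ⟨T.card, by omega, rfl⟩
    · rintro ⟨i, hi, hT⟩
      omega
  rw [h, Finset.card_biUnion]
  · refine Finset.sum_congr rfl fun i _ => ?_
    rw [Finset.card_powersetCard, Finset.card_univ, Fintype.card_fin]
  · intro i _ j _ hij
    rw [Function.onFun, Finset.disjoint_left]
    intro T hT hT'
    rw [mem_powersetCard] at hT hT'
    exact hij (hT.2.symm.trans hT'.2)

theorem cnt {n m z : ℕ} (hn : 1 ≤ n) (K : Finset (Fin n)) (hK : K.card = m)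
    (U : Finset (Finset (Fin n × Fin n)))
    (hU : ∀ u ∈ U, K ⊆ u.image Prod.fst ∧ u.card = m + z ∧ ∃ σ : Perm (Fin n), u ⊆ gr σ) :
    (∀ j, ((dn U j).card : ℝ) ≤ (2 ^ m * Bz n z : ℕ) * (n : ℝ) ^ j) ∧
    (∀ c : Finset (Fin n × Fin n), c.card ≤ m + z →
      ((U.filter fun u => c ⊆ u).card : ℝ) ≤ (2 ^ m * Bz n z : ℕ) * (n : ℝ) ^ (m + z - c.card)) ∧
    (∀ x : ℝ, 0 < x → x ≤ 1 → (Bz n z : ℝ) ≤ Real.exp (z * Real.log (1 / x) + x * n)) := by
  classical
  have hout : ∀ u ∈ U, (u.image Prod.fst \ K).card = z := by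
    intro u hu
    obtain ⟨h1, h2, h3⟩ := hU u hu
    rw [Finset.card_sdiff_of_subset h1, card_rows h3, h2, hK]
    omega
  refine ⟨fun j => ?_, fun c _ => ?_, fun x hx hx1 => ?_⟩
  · have hV : ∀ J ∈ dn U j, (∅ : Finset (Fin n × Fin n)) ⊆ J ∧ J.card ≤ j ∧
        ∃ σ : Perm (Fin n), J ⊆ gr σ := by
      intro J hJ
      obtain ⟨⟨u, hu, hJu⟩, hc⟩ := mem_dn.1 hJ
      obtain ⟨σ, hσ⟩ := (hU u hu).2.2
      exact ⟨empty_subset _, hc, σ, hJu.trans hσ⟩
    have h1 := total_le hn (dn U j) ∅ hV
    rw [Finset.card_empty, Nat.sub_zero] at h1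
    have h2 : ((dn U j).image fun J => J.image Prod.fst).card ≤ 2 ^ m * Bz n z := by
      rw [← small_card, ← hK, ← Finset.card_powerset, ← Finset.card_product]
      refine Finset.card_le_card_of_injOn (fun R => (R ∩ K, R \ K)) ?_ ?_
      · intro R hR
        obtain ⟨J, hJ, rfl⟩ := mem_image.1 (Finset.mem_coe.1 hR)
        obtain ⟨⟨u, hu, hJu⟩, _⟩ := mem_dn.1 hJ
        rw [Finset.mem_coe, mem_product, mem_powerset, mem_filter]
        refine ⟨inter_subset_right, mem_univ _, ?_⟩
        rw [← hout u hu]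
        exact Finset.card_le_card (sdiff_subset_sdiff (Finset.image_subset_image hJu) le_rfl)
      · intro R _ R' _ h
        simp only [Prod.mk.injEq] at h
        rw [← Finset.sdiff_union_inter R K, ← Finset.sdiff_union_inter R' K, h.1, h.2]
    have h3 : (dn U j).card ≤ 2 ^ m * Bz n z * n ^ j := by
      calc (dn U j).card ≤ n ^ j * ((dn U j).image fun J => J.image Prod.fst).card := h1
        _ ≤ n ^ j * (2 ^ m * Bz n z) := Nat.mul_le_mul_left _ h2
        _ = _ := by ring
    exact_mod_cast h3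
  · have hV : ∀ J ∈ U.filter fun u => c ⊆ u, c ⊆ J ∧ J.card ≤ m + z ∧
        ∃ σ : Perm (Fin n), J ⊆ gr σ := by
      intro J hJ
      rw [mem_filter] at hJ
      obtain ⟨_, h2, h3⟩ := hU J hJ.1
      exact ⟨hJ.2, h2.le, h3⟩
    have h1 := total_le hn (U.filter fun u => c ⊆ u) c hV
    have h2 : ((U.filter fun u => c ⊆ u).image fun J => J.image Prod.fst).card ≤ Bz n z := by
      rw [← small_card]
      refine Finset.card_le_card_of_injOn (fun R => R \ K) ?_ ?_
      · intro R hR
        obtain ⟨J, hJ, rfl⟩ := mem_image.1 (Finset.mem_coe.1 hR)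
        rw [mem_filter] at hJ
        rw [Finset.mem_coe, mem_filter]
        exact ⟨mem_univ _, (hout J hJ.1).le⟩
      · intro R hR R' hR' h
        obtain ⟨J, hJ, rfl⟩ := mem_image.1 (Finset.mem_coe.1 hR)
        obtain ⟨J', hJ', rfl⟩ := mem_image.1 (Finset.mem_coe.1 hR')
        rw [mem_filter] at hJ hJ'
        simp only at h
        rw [← Finset.sdiff_union_of_subset (hU J hJ.1).1,
          ← Finset.sdiff_union_of_subset (hU J' hJ'.1).1, h]
    have h3 : (U.filter fun u => c ⊆ u).card ≤ 2 ^ m * Bz n z * n ^ (m + z - c.card) := by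
      calc (U.filter fun u => c ⊆ u).card
          ≤ n ^ (m + z - c.card) *
            ((U.filter fun u => c ⊆ u).image fun J => J.image Prod.fst).card := h1
        _ ≤ n ^ (m + z - c.card) * (2 ^ m * Bz n z) := by
            refine Nat.mul_le_mul_left _ (h2.trans ?_)
            exact Nat.le_mul_of_pos_left _ (by positivity)
        _ = _ := by ring
    exact_mod_cast h3
  · have h1 : x ^ z * (Bz n z : ℝ) ≤ (1 + x) ^ n := by
      unfold Bz
      push_cast
      rw [Finset.mul_sum]
      have h2 : ∀ i ∈ range (z + 1), x ^ z * (n.choose i : ℝ) ≤ x ^ i * (n.choose i : ℝ) := by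
        intro i hi
        rw [mem_range] at hi
        refine mul_le_mul_of_nonneg_right ?_ (Nat.cast_nonneg _)
        exact pow_le_pow_of_le_one hx.le hx1 (by omega)
      refine (Finset.sum_le_sum h2).trans ?_
      rw [add_comm 1 x, add_pow]
      simp only [one_pow, mul_one]
      have h3 : ∀ i ∈ range (z + 1), i ∉ range (n + 1) →
          x ^ i * (n.choose i : ℝ) = 0 := by
        intro i _ hi
        rw [mem_range, not_lt] at hi
        rw [Nat.choose_eq_zero_of_lt (by omega)]
        simp
      calc ∑ i ∈ range (z + 1), x ^ i * (n.choose i : ℝ)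
          = ∑ i ∈ (range (z + 1)).filter (· ∈ range (n + 1)), x ^ i * (n.choose i : ℝ) := by
            rw [Finset.sum_filter_of_ne]
            intro i hi hne
            by_contra hni
            exact hne (h3 i hi hni)
        _ ≤ ∑ i ∈ range (n + 1), x ^ i * (n.choose i : ℝ) := by
            refine Finset.sum_le_sum_of_subset_of_nonneg ?_ fun i _ _ => by positivity
            intro i hi
            exact (mem_filter.1 hi).2
    have h4 : (1 + x) ^ n ≤ Real.exp (x * n) := by
      rw [mul_comm, Real.exp_nat_mul]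
      refine pow_le_pow_left₀ (by linarith) ?_ n
      rw [add_comm]
      exact Real.add_one_le_exp x
    have h5 : Real.exp (z * Real.log (1 / x)) = (1 / x) ^ z := by
      rw [Real.exp_nat_mul, Real.exp_log (by positivity)]
    rw [Real.exp_add, h5, one_div, inv_pow]
    have h6 : 0 < x ^ z := by positivity
    calc (Bz n z : ℝ) = (x ^ z)⁻¹ * (x ^ z * (Bz n z : ℝ)) := by field_simp
      _ ≤ (x ^ z)⁻¹ * Real.exp (x * n) :=
        mul_le_mul_of_nonneg_left (h1.trans h4) (by positivity)

end Pool.Agent.CL24
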