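import Mathlib

/-!
# Many primes in `(R/100, R/20]` and in `(R/10, R/2]` (Chebyshev)
-/

set_option autoImplicit false

namespace Pool.Agent.CL24

open Finset Nat Filter Asymptotics

theorem ntc_small {ε : ℝ} (hε : 0 < ε) :
    ∀ᶠ x : ℝ in atTop, Real.log 2 + Real.log (x + 2) + 2 * √x * Real.log x ≤ ε * x := by
  have h1 : (fun x : ℝ => Real.log x) =o[atTop] fun x : ℝ => x ^ (1 / 2 : ℝ) :=
    isLittleO_log_rpow_atTop (by norm_num)
  have h1' := h1.bound (show (0 : ℝ) < ε / 4 by positivity)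
  have h2 := (isLittleO_log_rpow_atTop (show (0 : ℝ) < 1 by norm_num)).bound
    (show (0 : ℝ) < ε / 4 by positivity)
  filter_upwards [h1', h2, eventually_ge_atTop (2 : ℝ),
    eventually_ge_atTop (8 * Real.log 2 / ε)] with x h3 h4 h5 h6
  have hx0 : 0 ≤ x := by linarith
  have hl : 0 ≤ Real.log x := Real.log_nonneg (by linarith)
  have hl2 : 0 ≤ Real.log 2 := Real.log_nonneg (by norm_num)
  rw [Real.norm_of_nonneg hl, Real.norm_of_nonneg (Real.rpow_nonneg hx0 _)] at h3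
  rw [Real.norm_of_nonneg hl, Real.norm_of_nonneg (Real.rpow_nonneg hx0 _), Real.rpow_one] at h4
  have h7 : Real.log (x + 2) ≤ Real.log 2 + Real.log x := by
    rw [← Real.log_mul (by norm_num) (by linarith)]
    exact Real.log_le_log (by linarith) (by linarith)
  have h8 : 2 * √x * Real.log x ≤ ε / 2 * x := by
    have : √x * x ^ (1 / 2 : ℝ) = x := by
      rw [← Real.sqrt_eq_rpow]
      exact Real.mul_self_sqrt hx0
    calc 2 * √x * Real.log x ≤ 2 * √x * (ε / 4 * x ^ (1 / 2 : ℝ)) := by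
          gcongr
      _ = ε / 2 * (√x * x ^ (1 / 2 : ℝ)) := by ring
      _ = ε / 2 * x := by rw [this]
  have h9 : 8 * Real.log 2 ≤ ε * x := by
    rw [div_le_iff₀ hε] at h6
    linarith
  linarith

theorem ntc_theta {a b : ℝ} (ha : 0 < a) (hab : 2 * a < b) :
    ∃ c : ℝ, 0 < c ∧ ∃ R₀ : ℕ, ∀ R : ℕ, R₀ ≤ R →
      c * R ≤ Chebyshev.theta (b * R) - Chebyshev.theta (a * R) := by
  have hl2 : 0 < Real.log 2 := Real.log_pos (by norm_num)
  have hb : 0 < b := by linarith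
  have hε : 0 < (b - 2 * a) * Real.log 2 / (2 * b) :=
    div_pos (mul_pos (by linarith) hl2) (by linarith)
  obtain ⟨X, hX⟩ := eventually_atTop.1 (ntc_small hε)
  refine ⟨(b - 2 * a) * Real.log 2 / 2, by nlinarith, ⌈(|X| + 1) / b⌉₊, fun R hR => ?_⟩
  have h0 : (|X| + 1) / b ≤ R := Nat.ceil_le.1 hR
  have h1 : |X| + 1 ≤ b * R := by
    rw [div_le_iff₀ hb] at h0
    linarith
  have h2 : 1 ≤ b * R := by linarith [abs_nonneg X]
  have h3 := hX (b * R) (by linarith [le_abs_self X])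
  have h4 := Chebyshev.theta_ge' h2
  have h5 := Chebyshev.theta_le_log4_mul_x (show (0 : ℝ) ≤ a * R by positivity)
  have h6 : Real.log 4 = 2 * Real.log 2 := by
    rw [show (4 : ℝ) = 2 ^ 2 by norm_num, Real.log_pow]
    norm_num
  have h7 : (b - 2 * a) * Real.log 2 / (2 * b) * (b * R) = (b - 2 * a) * Real.log 2 / 2 * R := by
    field_simp
  rw [h6] at h5
  rw [h7] at h3
  nlinarith

theorem ntc_card {a b : ℝ} (ha : 0 < a) {R : ℕ} (hR : 1 ≤ R)
    (S : Finset ℕ) (hS : ∀ p : ℕ, p.Prime → a * R < p → p ≤ b * R → p ∈ S)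
    (hS1 : ∀ p ∈ S, 1 ≤ p ∧ p ≤ R) :
    Chebyshev.theta (b * R) - Chebyshev.theta (a * R) ≤ S.card * Real.log R := by
  have h1 : Chebyshev.theta (b * R) ≤ Chebyshev.theta (a * R) + ∑ p ∈ S, Real.log p := by
    rw [Chebyshev.theta, Chebyshev.theta]
    have hnn : ∀ p : ℕ, 0 ≤ Real.log p := fun p => Real.log_natCast_nonneg p
    have hsub : ((Ioc 0 ⌊b * (R : ℝ)⌋₊).filter fun p => p.Prime) ⊆
        ((Ioc 0 ⌊a * (R : ℝ)⌋₊).filter fun p => p.Prime) ∪ S := by
      intro p hp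
      rw [mem_filter, mem_Ioc] at hp
      rw [mem_union, mem_filter, mem_Ioc]
      by_cases h : p ≤ ⌊a * (R : ℝ)⌋₊
      · exact Or.inl ⟨⟨hp.1.1, h⟩, hp.2⟩
      · refine Or.inr (hS p hp.2 ?_ ?_)
        · exact (Nat.floor_lt (by positivity)).1 (not_le.1 h)
        · exact (Nat.le_floor_iff' (by omega)).1 hp.1.2
    calc _ ≤ ∑ p ∈ ((Ioc 0 ⌊a * (R : ℝ)⌋₊).filter fun p => p.Prime) ∪ S, Real.log p :=
          sum_le_sum_of_subset_of_nonneg hsub fun p _ _ => hnn p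
      _ ≤ _ := by
          rw [← sum_union_inter]
          have : 0 ≤ ∑ p ∈ ((Ioc 0 ⌊a * (R : ℝ)⌋₊).filter fun p => p.Prime) ∩ S, Real.log p :=
            sum_nonneg fun p _ => hnn p
          linarith
  have h2 : ∑ p ∈ S, Real.log p ≤ S.card * Real.log R := by
    rw [← nsmul_eq_mul]
    refine sum_le_card_nsmul _ _ _ fun p hp => ?_
    obtain ⟨h3, h4⟩ := hS1 p hp
    exact Real.log_le_log (by exact_mod_cast h3) (by exact_mod_cast h4)
  linarith

theorem ntc_gen {a b : ℝ} (ha : 0 < a) (hab : 2 * a < b) :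
    ∃ c : ℝ, 0 < c ∧ ∃ R₀ : ℕ, ∀ R : ℕ, R₀ ≤ R → ∀ S : Finset ℕ,
      (∀ p : ℕ, p.Prime → a * R < p → p ≤ b * R → p ∈ S) → (∀ p ∈ S, 1 ≤ p ∧ p ≤ R) →
      c * (R / Real.log R) ≤ S.card := by
  obtain ⟨c, hc, R₀, h⟩ := ntc_theta ha hab
  refine ⟨c, hc, max R₀ 2, fun R hR S hS hS1 => ?_⟩
  have hR2 : 2 ≤ R := le_trans (le_max_right _ _) hR
  have h1 := h R (le_trans (le_max_left _ _) hR)
  have h2 := ntc_card ha (by omega) S hS hS1
  have hlog : 0 < Real.log R := Real.log_pos (by exact_mod_cast (by omega : 1 < R))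
  rw [← mul_div_assoc, div_le_iff₀ hlog]
  linarith

theorem cheb : ∃ c : ℝ, 0 < c ∧ ∃ R₀ : ℕ, ∀ R : ℕ, R₀ ≤ R →
    c * (R / Real.log R) ≤ ((((range (R + 1)).filter fun p => p.Prime ∧ R < 100 * p ∧ 20 * p ≤ R).card : ℕ) : ℝ) ∧
    c * (R / Real.log R) ≤ ((((range (R + 1)).filter fun p => p.Prime ∧ R < 10 * p ∧ 2 * p ≤ R).card : ℕ) : ℝ) := by
  obtain ⟨c₁, hc₁, R₁, h₁⟩ := ntc_gen (show (0 : ℝ) < 1 / 100 by norm_num)
    (show 2 * (1 / 100 : ℝ) < 1 / 20 by norm_num)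
  obtain ⟨c₂, hc₂, R₂, h₂⟩ := ntc_gen (show (0 : ℝ) < 1 / 10 by norm_num)
    (show 2 * (1 / 10 : ℝ) < 1 / 2 by norm_num)
  refine ⟨min c₁ c₂, lt_min hc₁ hc₂, max (max R₁ R₂) 2, fun R hR => ?_⟩
  have hR1 : R₁ ≤ R := le_trans (le_trans (le_max_left _ _) (le_max_left _ _)) hR
  have hR2 : R₂ ≤ R := le_trans (le_trans (le_max_right _ _) (le_max_left _ _)) hR
  have hR3 : 2 ≤ R := le_trans (le_max_right _ _) hR
  have hpos : 0 ≤ (R : ℝ) / Real.log R := div_nonneg (Nat.cast_nonneg _) (Real.log_natCast_nonneg R)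
  constructor
  · refine le_trans (mul_le_mul_of_nonneg_right (min_le_left _ _) hpos) (h₁ R hR1 _ ?_ ?_)
    · intro p hp h3 h4
      have h5 : R < 100 * p := by
        have : (R : ℝ) < 100 * p := by linarith
        exact_mod_cast this
      have h6 : 20 * p ≤ R := by
        have : (20 : ℝ) * p ≤ R := by linarith
        exact_mod_cast this
      rw [mem_filter, mem_range]
      exact ⟨by omega, hp, h5, h6⟩
    · intro p hp
      rw [mem_filter, mem_range] at hp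
      exact ⟨hp.2.1.one_lt.le, by omega⟩
  · refine le_trans (mul_le_mul_of_nonneg_right (min_le_right _ _) hpos) (h₂ R hR2 _ ?_ ?_)
    · intro p hp h3 h4
      have h5 : R < 10 * p := by
        have : (R : ℝ) < 10 * p := by linarith
        exact_mod_cast this
      have h6 : 2 * p ≤ R := by
        have : (2 : ℝ) * p ≤ R := by linarith
        exact_mod_cast this
      rw [mem_filter, mem_range]
      exact ⟨by omega, hp, h5, h6⟩
    · intro p hp
      rw [mem_filter, mem_range] at hp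
      exact ⟨hp.2.1.one_lt.le, by omega⟩

end Pool.Agent.CL24
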