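import Pool.Agent.CL24.Base
import Pool.Agent.CL24.NTc

/-!
# Sums of two primes have positive density
-/

set_option autoImplicit false

namespace Pool.Agent.CL24

open Finset Equiv Nat Pool.Agent.H17.PermInt Pool.Agent.FI37

theorem nt_skip {k M R : ℕ} (hM : R + k ≤ M) (hk : 100 * k ≤ R) (_ : 1 ≤ R) :
    ((((range (R + 1)).filter fun p => p.Prime ∧ R < 100 * p ∧ 20 * p ≤ R) ×ˢ
      ((range (R + 1)).filter fun p => p.Prime ∧ R < 10 * p ∧ 2 * p ≤ R)).image
        fun q => q.1 + q.2).card ≤ (skip k M).card := by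
  classical
  rw [← card_image_of_injective _ (add_right_injective k)]
  refine card_le_card fun s hs => ?_
  rw [mem_image] at hs
  obtain ⟨t, ht, rfl⟩ := hs
  rw [mem_image] at ht
  obtain ⟨⟨p₁, p₂⟩, hp, rfl⟩ := ht
  rw [mem_product, mem_filter, mem_filter] at hp
  obtain ⟨⟨-, h1, h2, h3⟩, -, h4, h5, h6⟩ := hp
  simp only at h1 h2 h3 h4 h5 h6
  unfold skip
  rw [mem_filter, mem_range]
  refine ⟨?_, p₁, p₂, h1, h4, ?_, ?_, ?_⟩
  · simp only
    omega
  · omega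
  · omega
  · simp only
    omega

theorem nt_real {c C : ℝ} (hc : 0 < c) (hC : 0 < C) {R l x s : ℝ} (hR : 0 < R) (hl : 0 < l)
    (hlR : l ^ 2 ≤ R) (hx : (c * (R / l)) * (c * (R / l)) ≤ x)
    (h : x ^ 2 ≤ s * (x + C * R ^ 3 / l ^ 4)) :
    c ^ 4 / (c ^ 2 + C) * R ≤ s := by
  set E : ℝ := R ^ 3 / l ^ 4 with hE
  have hE0 : 0 < E := by positivity
  set y : ℝ := (c * (R / l)) * (c * (R / l)) with hy
  have hy0 : 0 < y := by positivity
  have hD : C * R ^ 3 / l ^ 4 = C * E := by rw [hE]; ring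
  rw [hD] at h
  have hDp : 0 < C * E := by positivity
  have hyE : y ≤ c ^ 2 * E := by
    have h1 : y = c ^ 2 * (R ^ 2 / l ^ 2) := by rw [hy]; ring
    have h2 : R ^ 2 / l ^ 2 ≤ E := by
      rw [hE, div_le_div_iff₀ (by positivity) (by positivity)]
      calc R ^ 2 * l ^ 4 = R ^ 2 * l ^ 2 * l ^ 2 := by ring
        _ ≤ R ^ 2 * l ^ 2 * R := by gcongr
        _ = R ^ 3 * l ^ 2 := by ring
    rw [h1]
    exact mul_le_mul_of_nonneg_left h2 (by positivity)
  have hyy : y ^ 2 = c ^ 4 * R * E := by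
    rw [hy, hE]
    field_simp
  have hx0 : 0 < x := lt_of_lt_of_le hy0 hx
  have hmono : y ^ 2 * (x + C * E) ≤ x ^ 2 * (y + C * E) := by
    have h3 : x ^ 2 * (y + C * E) - y ^ 2 * (x + C * E) =
        (x - y) * (x * y + C * E * (x + y)) := by ring
    have h4 : 0 ≤ (x - y) * (x * y + C * E * (x + y)) :=
      mul_nonneg (by linarith) (by positivity)
    linarith
  have hs1 : y ^ 2 ≤ s * (y + C * E) := by
    have h5 : y ^ 2 * (x + C * E) ≤ (s * (y + C * E)) * (x + C * E) := by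
      calc y ^ 2 * (x + C * E) ≤ x ^ 2 * (y + C * E) := hmono
        _ ≤ (s * (x + C * E)) * (y + C * E) := by gcongr
        _ = _ := by ring
    exact le_of_mul_le_mul_right h5 (by positivity)
  have hs0 : 0 ≤ s := by
    by_contra hneg
    push Not at hneg
    have : s * (y + C * E) < 0 := mul_neg_of_neg_of_pos hneg (by positivity)
    nlinarith [sq_nonneg y]
  have hs2 : c ^ 4 * R * E ≤ s * (c ^ 2 + C) * E := by
    calc c ^ 4 * R * E = y ^ 2 := hyy.symm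
      _ ≤ s * (y + C * E) := hs1
      _ ≤ s * (c ^ 2 * E + C * E) := by gcongr
      _ = _ := by ring
  have hs3 : c ^ 4 * R ≤ s * (c ^ 2 + C) := le_of_mul_le_mul_right hs2 hE0
  rw [div_mul_eq_mul_div, div_le_iff₀ (by positivity)]
  exact hs3

theorem nt_log : ∃ R₀ : ℕ, ∀ R : ℕ, R₀ ≤ R → Real.log R ^ 2 ≤ R := by
  refine ⟨256, fun R hR => ?_⟩
  have hR0 : (256 : ℝ) ≤ R := by exact_mod_cast hR
  have h1 := Real.log_le_rpow_div (show (0 : ℝ) ≤ R by linarith) (show (0 : ℝ) < 1 / 4 by norm_num)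
  have hl : 0 ≤ Real.log R := Real.log_nonneg (by linarith)
  have h2 : Real.log R ≤ 4 * (R : ℝ) ^ (1 / 4 : ℝ) := by
    rw [div_eq_mul_inv] at h1
    norm_num at h1 ⊢
    linarith
  have h3 : (16 : ℝ) ≤ √R := by
    rw [Real.le_sqrt' (by norm_num)]
    linarith
  have h4 : ((R : ℝ) ^ (1 / 4 : ℝ)) ^ 2 = √R := by
    rw [← Real.rpow_natCast, ← Real.rpow_mul (by linarith), Real.sqrt_eq_rpow]
    norm_num
  calc Real.log R ^ 2 ≤ (4 * (R : ℝ) ^ (1 / 4 : ℝ)) ^ 2 := by gcongr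
    _ = 16 * √R := by rw [mul_pow, h4]; norm_num
    _ ≤ √R * √R := by gcongr
    _ = R := Real.mul_self_sqrt (by linarith)

/-- from the energy bound of `NTb` -/
theorem nt_of (energy : ∃ C : ℝ, 0 < C ∧ ∃ R₀ : ℕ, ∀ R : ℕ, R₀ ≤ R → ∀ A₁ A₂ : Finset ℕ,
    (∀ p ∈ A₁, p.Prime ∧ p ≤ R) → (∀ p ∈ A₂, p.Prime ∧ p ≤ R) →
    ((A₁.card : ℝ) * A₂.card) ^ 2 ≤ ((A₁ ×ˢ A₂).image fun q => q.1 + q.2).card *
      ((A₁.card : ℝ) * A₂.card + C * R ^ 3 / Real.log R ^ 4)) :
    ∃ L k₀ : ℕ, ∀ k ≥ k₀, ∀ M, L * k ≤ M → k + 1 ≤ (skip k M).card := by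
  classical
  obtain ⟨C, hC, R₁, hen⟩ := energy
  obtain ⟨c, hc, R₂, hch⟩ := cheb
  obtain ⟨R₃, hlg⟩ := nt_log
  set c' : ℝ := c ^ 4 / (c ^ 2 + C) with hc'
  have hc'0 : 0 < c' := by positivity
  obtain ⟨N, hN⟩ := exists_nat_gt (2 / c')
  refine ⟨N + 100 + 1, max (max R₁ R₂) (max R₃ 2), fun k hk M hM => ?_⟩
  have hk1 : R₁ ≤ k := le_trans (le_trans (le_max_left _ _) (le_max_left _ _)) hk
  have hk2 : R₂ ≤ k := le_trans (le_trans (le_max_right _ _) (le_max_left _ _)) hk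
  have hk3 : R₃ ≤ k := le_trans (le_trans (le_max_left _ _) (le_max_right _ _)) hk
  have hk4 : 2 ≤ k := le_trans (le_trans (le_max_right _ _) (le_max_right _ _)) hk
  obtain ⟨R, hR⟩ : ∃ R, M = R + k := ⟨M - k, by
    have : k ≤ M := le_trans (by nlinarith) hM
    omega⟩
  have hRk : (N + 100) * k ≤ R := by
    have : (N + 100 + 1) * k = (N + 100) * k + k := by ring
    omega
  have hR100 : 100 * k ≤ R := le_trans (Nat.mul_le_mul_right _ (by omega)) hRk
  have hkR : k ≤ R := by omega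
  have hR2 : 2 ≤ R := by omega
  have hRpos : (0 : ℝ) < R := by exact_mod_cast (by omega : 0 < R)
  have hlpos : 0 < Real.log R := Real.log_pos (by exact_mod_cast (by omega : 1 < R))
  set A₁ := (range (R + 1)).filter fun p => p.Prime ∧ R < 100 * p ∧ 20 * p ≤ R with hA₁
  set A₂ := (range (R + 1)).filter fun p => p.Prime ∧ R < 10 * p ∧ 2 * p ≤ R with hA₂
  obtain ⟨hc1, hc2⟩ := hch R (by omega)
  have hx : (c * (R / Real.log R)) * (c * (R / Real.log R)) ≤ (A₁.card : ℝ) * A₂.card := by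
    have hnn : 0 ≤ c * (R / Real.log R) := by positivity
    exact mul_le_mul hc1 hc2 hnn (Nat.cast_nonneg _)
  have hE := hen R (by omega) A₁ A₂
    (fun p hp => by rw [hA₁, mem_filter, mem_range] at hp; exact ⟨hp.2.1, by omega⟩)
    (fun p hp => by rw [hA₂, mem_filter, mem_range] at hp; exact ⟨hp.2.1, by omega⟩)
  have hs := nt_real hc hC hRpos hlpos (hlg R (by omega)) hx hE
  have hcard : (((A₁ ×ˢ A₂).image fun q => q.1 + q.2).card : ℝ) ≤ (skip k M).card := by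
    exact_mod_cast nt_skip (by omega) hR100 (by omega)
  have hfin : ((k + 1 : ℕ) : ℝ) ≤ (skip k M).card := by
    refine le_trans ?_ (le_trans hs hcard)
    have h1 : 2 ≤ c' * N := by
      rw [div_lt_iff₀ hc'0] at hN
      linarith
    have h2 : ((N : ℝ) + 100) * k ≤ R := by exact_mod_cast hRk
    have h3 : (2 : ℝ) ≤ k := by exact_mod_cast hk4
    calc ((k + 1 : ℕ) : ℝ) ≤ 2 * k := by push_cast; linarith
      _ ≤ c' * N * k := by gcongr
      _ ≤ c' * ((N + 100) * k) := by nlinarith [mul_pos hc'0 (by linarith : (0 : ℝ) < k)]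
      _ ≤ c' * R := by gcongr
  exact_mod_cast hfin

end Pool.Agent.CL24
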