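import Pool.Agent.CL24.NTb
import Pool.Agent.CL24.NTd

/-!
# Sums of two primes have positive density
-/

set_option autoImplicit false

namespace Pool.Agent.CL24

open Finset Equiv Nat Pool.Agent.H17.PermInt Pool.Agent.FI37

theorem nt : ∃ L k₀ : ℕ, ∀ k ≥ k₀, ∀ M, L * k ≤ M → k + 1 ≤ (skip k M).card :=
  nt_of energy

end Pool.Agent.CL24
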