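import Pool.Agent.CL24.Sp1

/-!
# Iteration of the spread lemma
-/

set_option autoImplicit false

namespace Pool.Agent.CL24

open Finset

section Sp2

variable {Ω ι : Type*} [Fintype Ω] [DecidableEq Ω] [DecidableEq ι]

/-- the indices which are bad for a colouring -/
private def bd (I : Finset ι) (T : ι → Finset Ω) (w : ℕ) {q : ℕ} [NeZero q] (χ : Ω → Fin q) :
    Finset ι :=
  I.filter fun i => ∀ i' ∈ I,
    T i' ⊆ (univ.filter fun x => χ x = 0) ∪ T i →
      w ≤ (T i' \ (univ.filter fun x => χ x = 0)).card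

/-- the failing sequences of colourings -/
private def fl (I : Finset ι) (T : ι → Finset Ω) (j q : ℕ) [NeZero q] :
    Finset (Fin j → Ω → Fin q) :=
  univ.filter fun χ => ∀ i ∈ I, ¬ ∀ x ∈ T i, ∃ a, χ a x = 0

/-- Markov: few colourings have many bad indices -/
private theorem exc_card (I : Finset ι) (T : ι → Finset Ω) {J q : ℕ} [NeZero q] {r N₀ : ℝ}
    (hr : (2 * q : ℝ) ^ 2 ≤ r) (hN : 0 < N₀) (j : ℕ)
    (hsz : ∀ i ∈ I, (T i).card < 2 ^ (j + 1))
    (hsp : ∀ S : Finset Ω, ((I.filter fun i => S ⊆ T i).card : ℝ) * r ^ S.card ≤ N₀) :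
    ((univ.filter fun b : Ω → Fin q => N₀ ≤ 2 * J * ((bd I T (2 ^ j) b).card : ℝ)).card : ℝ) ≤
      (2 * J * (2 * q : ℝ) ^ 2 / r) * (q : ℝ) ^ Fintype.card Ω := by
  have hq1 : (1 : ℝ) ≤ q := by exact_mod_cast NeZero.one_le
  have hs1 : (1 : ℝ) ≤ (2 * q : ℝ) ^ 2 := by nlinarith
  have hr0 : 0 < r := by linarith
  set E := univ.filter fun b : Ω → Fin q => N₀ ≤ 2 * J * ((bd I T (2 ^ j) b).card : ℝ) with hE
  have h1 := one_step I T (q := q) (w := 2 ^ j) (l := 2 ^ (j + 1) - 1) hr0 hN.le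
    (fun i hi => Nat.le_sub_one_of_lt (hsz i hi)) hsp
  have h2 : (E.card : ℝ) * N₀ ≤ 2 * J * ∑ b : Ω → Fin q, ((bd I T (2 ^ j) b).card : ℝ) := by
    calc (E.card : ℝ) * N₀ = ∑ _b ∈ E, N₀ := by rw [sum_const, nsmul_eq_mul]
      _ ≤ ∑ b ∈ E, 2 * J * ((bd I T (2 ^ j) b).card : ℝ) := by
          apply sum_le_sum
          intro b hb
          exact (mem_filter.1 hb).2
      _ ≤ ∑ b : Ω → Fin q, 2 * J * ((bd I T (2 ^ j) b).card : ℝ) := by
          apply sum_le_sum_of_subset_of_nonneg (subset_univ _)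
          intro b _ _
          positivity
      _ = _ := by rw [mul_sum]
  have h3 : (E.card : ℝ) * N₀ * r ^ (2 ^ j) ≤
      2 * J * ((2 * q : ℝ) ^ (2 ^ (j + 1) - 1) * N₀ * (q : ℝ) ^ Fintype.card Ω) := by
    calc (E.card : ℝ) * N₀ * r ^ (2 ^ j)
        ≤ (2 * J * ∑ b : Ω → Fin q, ((bd I T (2 ^ j) b).card : ℝ)) * r ^ (2 ^ j) :=
          mul_le_mul_of_nonneg_right h2 (by positivity)
      _ = 2 * J * ((∑ b : Ω → Fin q, ((bd I T (2 ^ j) b).card : ℝ)) * r ^ (2 ^ j)) := by ring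
      _ ≤ _ := mul_le_mul_of_nonneg_left h1 (by positivity)
  have h4 : (2 * q : ℝ) ^ (2 ^ (j + 1) - 1) ≤ ((2 * q : ℝ) ^ 2) ^ (2 ^ j) := by
    rw [← pow_mul]
    apply pow_le_pow_right₀ (by linarith)
    rw [pow_succ]
    omega
  have h5 : (E.card : ℝ) * r ^ (2 ^ j) ≤
      2 * J * (((2 * q : ℝ) ^ 2) ^ (2 ^ j) * (q : ℝ) ^ Fintype.card Ω) := by
    have h6 : (E.card : ℝ) * r ^ (2 ^ j) * N₀ ≤
        2 * J * ((2 * q : ℝ) ^ (2 ^ (j + 1) - 1) * (q : ℝ) ^ Fintype.card Ω) * N₀ := by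
      calc (E.card : ℝ) * r ^ (2 ^ j) * N₀ = (E.card : ℝ) * N₀ * r ^ (2 ^ j) := by ring
        _ ≤ _ := h3
        _ = _ := by ring
    refine (le_of_mul_le_mul_right h6 hN).trans ?_
    apply mul_le_mul_of_nonneg_left _ (by positivity)
    exact mul_le_mul_of_nonneg_right h4 (by positivity)
  have h7 : (((2 * q : ℝ) ^ 2) / r) ^ (2 ^ j) ≤ (2 * q : ℝ) ^ 2 / r := by
    apply pow_le_of_le_one (by positivity) (by rw [div_le_one hr0]; exact hr)
    exact (pow_pos (by norm_num) j).ne'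
  have hrw : 0 < r ^ (2 ^ j) := by positivity
  calc (E.card : ℝ) = (E.card : ℝ) * r ^ (2 ^ j) / r ^ (2 ^ j) := by
        rw [mul_div_assoc, div_self hrw.ne', mul_one]
    _ ≤ 2 * J * (((2 * q : ℝ) ^ 2) ^ (2 ^ j) * (q : ℝ) ^ Fintype.card Ω) / r ^ (2 ^ j) :=
        div_le_div_of_nonneg_right h5 hrw.le
    _ = 2 * J * ((((2 * q : ℝ) ^ 2) / r) ^ (2 ^ j)) * (q : ℝ) ^ Fintype.card Ω := by
        rw [div_pow]; ring
    _ ≤ 2 * J * ((2 * q : ℝ) ^ 2 / r) * (q : ℝ) ^ Fintype.card Ω := by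
        apply mul_le_mul_of_nonneg_right _ (by positivity)
        exact mul_le_mul_of_nonneg_left h7 (by positivity)
    _ = _ := by ring

private theorem card_fun_q (j q : ℕ) :
    ((univ : Finset (Fin j → Ω → Fin q)).card : ℝ) = (q : ℝ) ^ (j * Fintype.card Ω) := by
  rw [card_univ, Fintype.card_fun, Fintype.card_fun, Fintype.card_fin, Fintype.card_fin,
    ← pow_mul, mul_comm]
  push_cast
  rfl

private theorem iter {J q : ℕ} [NeZero q] {r N₀ : ℝ} (hr : (2 * q : ℝ) ^ 2 ≤ r) (hN : 0 < N₀) :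
    ∀ (j : ℕ) (I : Finset ι) (T : ι → Finset Ω), (∀ i ∈ I, (T i).card < 2 ^ j) →
      (∀ S : Finset Ω, ((I.filter fun i => S ⊆ T i).card : ℝ) * r ^ S.card ≤ N₀) →
      (j : ℝ) * N₀ < 2 * J * (I.card : ℝ) →
      ((fl I T j q).card : ℝ) ≤
        j * (2 * J * (2 * q : ℝ) ^ 2 / r) * (q : ℝ) ^ (j * Fintype.card Ω) := by
  have hq1 : (1 : ℝ) ≤ q := by exact_mod_cast NeZero.one_le
  have hs1 : (1 : ℝ) ≤ (2 * q : ℝ) ^ 2 := by nlinarith
  have hr0 : 0 < r := by linarith
  intro j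
  induction j with
  | zero =>
    intro I T hsz _ hc
    have hne : I.Nonempty := by
      rw [nonempty_iff_ne_empty]
      rintro rfl
      simp at hc
    obtain ⟨i, hi⟩ := hne
    have h0 : fl I T 0 q = ∅ := by
      rw [eq_empty_iff_forall_notMem]
      intro χ hχ
      rw [fl, mem_filter] at hχ
      apply hχ.2 i hi
      intro x hx
      have h1 := hsz i hi
      rw [pow_zero, Nat.lt_one_iff, card_eq_zero] at h1
      rw [h1] at hx
      exact absurd hx (notMem_empty x)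
    rw [h0]
    simp
  | succ j ih =>
    intro I T hsz hsp hc
    set e : ℝ := 2 * J * (2 * q : ℝ) ^ 2 / r with he
    have he0 : 0 ≤ e := by positivity
    set E := univ.filter fun b : Ω → Fin q => N₀ ≤ 2 * J * ((bd I T (2 ^ j) b).card : ℝ) with hE
    have hEc : (E.card : ℝ) ≤ e * (q : ℝ) ^ Fintype.card Ω := exc_card I T hr hN j hsz hsp
    have hfib : ((fl I T (j + 1) q).card : ℝ) =
        ∑ b : Ω → Fin q, (((fl I T (j + 1) q).filter fun χ => χ 0 = b).card : ℝ) := by
      have := card_eq_sum_card_fiberwise (f := fun χ : Fin (j + 1) → Ω → Fin q => χ 0)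
        (s := fl I T (j + 1) q) (t := univ) (fun _ _ => mem_coe.2 (mem_univ _))
      exact_mod_cast this
    have hinj : ∀ (b : Ω → Fin q) (s : Finset (Fin j → Ω → Fin q)),
        (∀ χ ∈ fl I T (j + 1) q, χ 0 = b → Fin.tail χ ∈ s) →
        (((fl I T (j + 1) q).filter fun χ => χ 0 = b).card : ℝ) ≤ s.card := by
      intro b s hs
      have : ((fl I T (j + 1) q).filter fun χ => χ 0 = b).card ≤ s.card := by
        refine card_le_card_of_injOn (fun χ => Fin.tail χ) ?_ ?_
        · intro χ hχ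
          rw [mem_coe, mem_filter] at hχ
          exact mem_coe.2 (hs χ hχ.1 hχ.2)
        · intro χ hχ ψ hψ h
          rw [mem_coe, mem_filter] at hχ hψ
          have h' : Fin.tail χ = Fin.tail ψ := h
          rw [← Fin.cons_self_tail χ, ← Fin.cons_self_tail ψ, h', hχ.2, hψ.2]
      exact_mod_cast this
    have hall : ∀ b : Ω → Fin q,
        (((fl I T (j + 1) q).filter fun χ => χ 0 = b).card : ℝ) ≤
          (q : ℝ) ^ (j * Fintype.card Ω) := by
      intro b
      rw [← card_fun_q (Ω := Ω) j q]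
      exact hinj b univ (fun _ _ _ => mem_univ _)
    have hnorm : ∀ b : Ω → Fin q, b ∉ E →
        (((fl I T (j + 1) q).filter fun χ => χ 0 = b).card : ℝ) ≤
          j * e * (q : ℝ) ^ (j * Fintype.card Ω) := by
      intro b hb
      rw [hE, mem_filter, not_and, not_le] at hb
      have hb' := hb (mem_univ _)
      set W := univ.filter fun x => b x = 0 with hW
      set I' := I \ bd I T (2 ^ j) b with hI'
      have hbsub : bd I T (2 ^ j) b ⊆ I := filter_subset _ _
      have hI'c : (I'.card : ℝ) = I.card - (bd I T (2 ^ j) b).card := by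
        rw [hI', card_sdiff_of_subset hbsub, Nat.cast_sub (card_le_card hbsub)]
      have hex : ∀ i ∈ I', ∃ U : Finset Ω, U ⊆ T i ∧ U.card < 2 ^ j ∧
          ∃ i' ∈ I, T i' ⊆ W ∪ U := by
        intro i hi
        rw [hI', mem_sdiff, bd, mem_filter, not_and] at hi
        have h1 := hi.2 hi.1
        push Not at h1
        obtain ⟨i', hi', h2, h3⟩ := h1
        refine ⟨T i' \ W, ?_, h3, i', hi', ?_⟩
        · intro x hx
          rw [mem_sdiff] at hx
          rcases mem_union.1 (h2 hx.1) with h4 | h4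
          · exact absurd h4 hx.2
          · exact h4
        · intro x hx
          rw [mem_union, mem_sdiff]
          by_cases h4 : x ∈ W
          · exact Or.inl h4
          · exact Or.inr ⟨hx, h4⟩
      choose! T' hT'1 hT'2 hT'3 using hex
      have hih := ih I' T' hT'2 (by
        intro S
        refine le_trans ?_ (hsp S)
        apply mul_le_mul_of_nonneg_right _ (by positivity)
        have : (I'.filter fun i => S ⊆ T' i).card ≤ (I.filter fun i => S ⊆ T i).card := by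
          apply card_le_card
          intro i hi
          rw [mem_filter] at hi ⊢
          exact ⟨(mem_sdiff.1 hi.1).1, hi.2.trans (hT'1 i hi.1)⟩
        exact_mod_cast this) (by
        rw [hI'c]
        push_cast at hc
        nlinarith)
      refine le_trans (hinj b (fl I' T' j q) ?_) hih
      intro χ hχ hχ0
      rw [fl, mem_filter] at hχ ⊢
      refine ⟨mem_univ _, ?_⟩
      intro i hi hcov
      obtain ⟨i', hi', h1⟩ := hT'3 i hi
      apply hχ.2 i' hi'
      intro x hx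
      rcases mem_union.1 (h1 hx) with h2 | h2
      · refine ⟨0, ?_⟩
        rw [hχ0]
        exact (mem_filter.1 h2).2
      · obtain ⟨a, ha⟩ := hcov x h2
        exact ⟨a.succ, ha⟩
    rw [hfib]
    calc ∑ b : Ω → Fin q, (((fl I T (j + 1) q).filter fun χ => χ 0 = b).card : ℝ)
        ≤ ∑ b : Ω → Fin q, ((if b ∈ E then (q : ℝ) ^ (j * Fintype.card Ω) else 0) +
            j * e * (q : ℝ) ^ (j * Fintype.card Ω)) := by
          apply sum_le_sum
          intro b _
          by_cases hb : b ∈ E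
          · rw [if_pos hb]
            have := hall b
            have h2 : 0 ≤ j * e * (q : ℝ) ^ (j * Fintype.card Ω) := by positivity
            linarith
          · rw [if_neg hb, zero_add]
            exact hnorm b hb
      _ = (E.card : ℝ) * (q : ℝ) ^ (j * Fintype.card Ω) +
            (q : ℝ) ^ Fintype.card Ω * (j * e * (q : ℝ) ^ (j * Fintype.card Ω)) := by
          rw [sum_add_distrib, sum_const, nsmul_eq_mul, card_univ, Fintype.card_fun,
            Fintype.card_fin, ← sum_filter, sum_const, nsmul_eq_mul, filter_mem_eq_inter,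
            univ_inter]
          push_cast
          ring
      _ ≤ (e * (q : ℝ) ^ Fintype.card Ω) * (q : ℝ) ^ (j * Fintype.card Ω) +
            (q : ℝ) ^ Fintype.card Ω * (j * e * (q : ℝ) ^ (j * Fintype.card Ω)) := by
          gcongr
      _ = ((j + 1 : ℕ) : ℝ) * e * (q : ℝ) ^ ((j + 1) * Fintype.card Ω) := by
          rw [add_mul, one_mul, pow_add]
          push_cast
          ring

theorem spread_fail (I : Finset ι)
    (hI : I.Nonempty) (T : ι → Finset Ω) {r : ℝ} {J : ℕ} (hJ : 1 ≤ J)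
    (hr : 576 * (J : ℝ) ^ 4 ≤ r) (hsz : ∀ i ∈ I, (T i).card < 2 ^ J)
    (hsp : ∀ S : Finset Ω, ((I.filter fun i => S ⊆ T i).card : ℝ) * r ^ S.card ≤ (I.card : ℝ)) :
    8 * ((univ : Finset (Ω → Fin J → Fin (3 * J))).filter fun χ =>
        ∀ i ∈ I, ¬ ∀ x ∈ T i, ∃ a, ((χ x a : Fin (3 * J)) : ℕ) = 0).card ≤
      (univ : Finset (Ω → Fin J → Fin (3 * J))).card := by
  have : NeZero (3 * J) := ⟨by omega⟩
  have hJ1 : (1 : ℝ) ≤ J := by exact_mod_cast hJ
  have hJ4 : (J : ℝ) ^ 2 ≤ (J : ℝ) ^ 4 := pow_le_pow_right₀ hJ1 (by norm_num)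
  have hJ2 : (1 : ℝ) ≤ (J : ℝ) ^ 2 := one_le_pow₀ hJ1
  have hr0 : 0 < r := by nlinarith
  have hIc : (0 : ℝ) < I.card := by exact_mod_cast hI.card_pos
  have hq : (2 * ((3 * J : ℕ) : ℝ)) ^ 2 ≤ r := by
    push_cast
    nlinarith
  have h1 := iter (J := J) (q := 3 * J) hq hIc J I T hsz hsp (by nlinarith)
  have h2 : ((univ : Finset (Ω → Fin J → Fin (3 * J))).filter fun χ =>
        ∀ i ∈ I, ¬ ∀ x ∈ T i, ∃ a, ((χ x a : Fin (3 * J)) : ℕ) = 0).card ≤
      (fl I T J (3 * J)).card := by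
    refine card_le_card_of_injOn (fun χ => fun a x => χ x a) ?_ ?_
    · intro χ hχ
      rw [mem_coe, mem_filter] at hχ
      rw [mem_coe, fl, mem_filter]
      refine ⟨mem_univ _, ?_⟩
      intro i hi hcov
      apply hχ.2 i hi
      intro x hx
      obtain ⟨a, ha⟩ := hcov x hx
      refine ⟨a, ?_⟩
      have ha' : χ x a = 0 := ha
      rw [ha']
      rfl
    · intro χ _ ψ _ h
      funext x a
      exact congrFun (congrFun h a) x
  have h3 : ((univ : Finset (Ω → Fin J → Fin (3 * J))).card : ℝ) =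
      ((3 * J : ℕ) : ℝ) ^ (J * Fintype.card Ω) := by
    rw [card_univ, Fintype.card_fun, Fintype.card_fun, Fintype.card_fin, Fintype.card_fin,
      ← pow_mul]
    push_cast
    rfl
  have h4 : (J : ℝ) * (2 * J * (2 * ((3 * J : ℕ) : ℝ)) ^ 2 / r) ≤ 1 / 8 := by
    rw [← mul_div_assoc, div_le_div_iff₀ hr0 (by norm_num)]
    push_cast
    nlinarith
  have h5 : (8 : ℝ) * (((univ : Finset (Ω → Fin J → Fin (3 * J))).filter fun χ =>
        ∀ i ∈ I, ¬ ∀ x ∈ T i, ∃ a, ((χ x a : Fin (3 * J)) : ℕ) = 0).card : ℝ) ≤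
      ((univ : Finset (Ω → Fin J → Fin (3 * J))).card : ℝ) := by
    have h6 : (((univ : Finset (Ω → Fin J → Fin (3 * J))).filter fun χ =>
        ∀ i ∈ I, ¬ ∀ x ∈ T i, ∃ a, ((χ x a : Fin (3 * J)) : ℕ) = 0).card : ℝ) ≤
        1 / 8 * ((3 * J : ℕ) : ℝ) ^ (J * Fintype.card Ω) := by
      calc _ ≤ ((fl I T J (3 * J)).card : ℝ) := by exact_mod_cast h2
        _ ≤ _ := h1
        _ ≤ _ := mul_le_mul_of_nonneg_right h4 (by positivity)
    rw [h3]
    linarith
  exact_mod_cast h5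

end Sp2

end Pool.Agent.CL24
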