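import Pool.Agent.CL24.Base
import Pool.Agent.CL24.Sp2

/-!
# CL24/Sp3: two random colours (helper75)

A random colouring with the three colour classes `S0`, `S1`, `S2`: many members `u` of a family with `√n`-spread links
get the colour `S0` on `u` and have link members inside `S1` and inside `S2`.
-/

namespace Pool.Agent.CL24

open Finset

/-- changing the values on `u` -/
private theorem sp3_indep {Ω V : Type*} [Fintype Ω] [DecidableEq Ω] [Fintype V] [DecidableEq V]
    (u : Finset Ω) (P : (Ω → V) → Prop) [DecidablePred P]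
    (hP : ∀ χ χ' : Ω → V, (∀ x, x ∉ u → χ x = χ' x) → P χ → P χ') (S : Finset V) :
    ((univ : Finset (Ω → V)).filter fun χ => P χ ∧ ∀ x ∈ u, χ x ∈ S).card *
        (Fintype.card V) ^ u.card =
      ((univ : Finset (Ω → V)).filter P).card * S.card ^ u.card := by
  classical
  have h1 : (Fintype.card V) ^ u.card = (univ : Finset (u → V)).card := by
    rw [card_univ, Fintype.card_fun, Fintype.card_coe]
  have h2 : S.card ^ u.card = (Fintype.piFinset fun _ : u => S).card := by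
    rw [Fintype.card_piFinset, prod_const, card_univ, Fintype.card_coe]
  rw [h1, h2, ← card_product, ← card_product]
  refine card_nbij' (fun p => (fun x => if h : x ∈ u then p.2 ⟨x, h⟩ else p.1 x, fun x => p.1 x))
    (fun p => (fun x => if h : x ∈ u then p.2 ⟨x, h⟩ else p.1 x, fun x => p.1 x)) ?_ ?_ ?_ ?_
  · rintro ⟨χ, g⟩ hp
    simp only [coe_product, coe_filter, mem_univ, true_and, coe_univ, Set.mem_prod,
      Set.mem_ofPred_eq, Set.mem_univ, and_true] at hp
    simp only [coe_product, coe_filter, mem_univ, true_and, Set.mem_prod, Set.mem_ofPred_eq,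
      mem_coe, Fintype.mem_piFinset]
    refine ⟨hP χ _ (fun x hx => ?_) hp.1, fun x => hp.2 _ x.2⟩
    rw [dif_neg hx]
  · rintro ⟨χ, g⟩ hp
    simp only [coe_product, coe_filter, mem_univ, true_and, Set.mem_prod, Set.mem_ofPred_eq,
      mem_coe, Fintype.mem_piFinset] at hp
    simp only [coe_product, coe_filter, mem_univ, true_and, coe_univ, Set.mem_prod,
      Set.mem_ofPred_eq, Set.mem_univ, and_true]
    refine ⟨hP χ _ (fun x hx => ?_) hp.1, fun x hx => ?_⟩
    · rw [dif_neg hx]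
    · rw [dif_pos hx]
      exact hp.2 _
  · rintro ⟨χ, g⟩ _
    refine Prod.ext ?_ ?_
    · funext x
      show (if h : x ∈ u then χ x else if h : x ∈ u then g ⟨x, h⟩ else χ x) = χ x
      split_ifs <;> rfl
    · funext x
      show (if h : (x : Ω) ∈ u then g ⟨x, h⟩ else χ x) = g x
      rw [dif_pos x.2]
  · rintro ⟨χ, g⟩ _
    refine Prod.ext ?_ ?_
    · funext x
      show (if h : x ∈ u then χ x else if h : x ∈ u then g ⟨x, h⟩ else χ x) = χ x
      split_ifs <;> rfl
    · funext x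
      show (if h : (x : Ω) ∈ u then g ⟨x, h⟩ else χ x) = g x
      rw [dif_pos x.2]

/-- a permutation moving a small set off itself -/
private theorem sp3_perm {V : Type*} [Fintype V] [DecidableEq V] (S : Finset V)
    (h : 2 * S.card ≤ Fintype.card V) :
    ∃ π : Equiv.Perm V, ∀ v ∈ S, π.symm v ∉ S := by
  classical
  have h1 : S.card ≤ (Sᶜ).card := by
    rw [card_compl]
    omega
  obtain ⟨S', hS', hc⟩ := exists_subset_card_eq h1
  set e : S ≃ S' := equivOfCardEq hc.symm with he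
  have hm : ∀ v ∈ S, e.extendSubtype v ∈ S' := fun v hv =>
    e.extendSubtype_mem v hv
  refine ⟨e.extendSubtype, fun v hv hv' => ?_⟩
  have := hm _ hv'
  rw [Equiv.apply_symm_apply] at this
  exact (mem_compl.1 (hS' this)) hv

private theorem sp3_S1 {J : ℕ} (hJ : 1 ≤ J) :
    3 * ((univ : Finset (Fin J → Fin (3 * J))).filter fun f => ∃ a, (f a : ℕ) = 0).card ≤
      Fintype.card (Fin J → Fin (3 * J)) := by
  classical
  have h0 : 0 < 3 * J := by omega
  set z : Fin (3 * J) := ⟨0, h0⟩ with hz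
  have h1 : ((univ : Finset (Fin J → Fin (3 * J))).filter fun f => ∃ a, (f a : ℕ) = 0) ⊆
      (univ : Finset (Fin J)).biUnion fun a =>
        (univ : Finset (Fin J → Fin (3 * J))).filter fun f => f a = z := by
    intro f hf
    rw [mem_filter] at hf
    obtain ⟨-, a, ha⟩ := hf
    rw [mem_biUnion]
    exact ⟨a, mem_univ _, mem_filter.2 ⟨mem_univ _, Fin.ext ha⟩⟩
  have h2 : ∀ a : Fin J, ((univ : Finset (Fin J → Fin (3 * J))).filter fun f => f a = z).card *
      (3 * J) = Fintype.card (Fin J → Fin (3 * J)) := by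
    intro a
    have h := sp3_indep (Ω := Fin J) (V := Fin (3 * J)) {a} (fun _ => True) (fun _ _ _ h => h) {z}
    simp only [true_and, mem_singleton, forall_eq, card_singleton, pow_one, Fintype.card_fin,
      mul_one, filter_true, card_univ] at h
    exact h
  have h3 := (card_le_card h1).trans card_biUnion_le
  have h4 : (∑ a : Fin J, ((univ : Finset (Fin J → Fin (3 * J))).filter fun f => f a = z).card) *
      (3 * J) = J * Fintype.card (Fin J → Fin (3 * J)) := by
    rw [sum_mul, sum_congr rfl fun a _ => h2 a, sum_const, card_univ, Fintype.card_fin,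
      smul_eq_mul]
  have h5 : J * (3 * ((univ : Finset (Fin J → Fin (3 * J))).filter
      fun f => ∃ a, (f a : ℕ) = 0).card) ≤ J * Fintype.card (Fin J → Fin (3 * J)) := by
    rw [← h4]
    calc _ = ((univ : Finset (Fin J → Fin (3 * J))).filter
          fun f => ∃ a, (f a : ℕ) = 0).card * (3 * J) := by ring
      _ ≤ _ := Nat.mul_le_mul_right _ h3
  exact Nat.le_of_mul_le_mul_left h5 hJ

/-- one set `u`: three quarters of the colourings are good outside `u`, and `S0` on `u` costs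
`3 ^ M` -/
private theorem sp3_one {Ω V : Type*} [Fintype Ω] [DecidableEq Ω] [Fintype V] [DecidableEq V]
    [Nonempty V] (S1 : Finset V) (π : Equiv.Perm V) (h3 : 3 * S1.card ≤ Fintype.card V)
    (u : Finset Ω) (A : Finset (Finset Ω))
    (hbad : 8 * ((univ : Finset (Ω → V)).filter fun χ =>
      ∀ X ∈ A, ¬ ∀ x ∈ X \ u, χ x ∈ S1).card ≤ Fintype.card (Ω → V)) :
    3 * Fintype.card (Ω → V) ≤ 4 * 3 ^ u.card * ((univ : Finset (Ω → V)).filter fun χ =>
      ((∃ X ∈ A, ∀ x ∈ X \ u, χ x ∈ S1) ∧ ∃ X ∈ A, ∀ x ∈ X \ u, π.symm (χ x) ∈ S1) ∧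
        ∀ x ∈ u, χ x ∈ (univ : Finset V).filter fun v => v ∉ S1 ∧ π.symm v ∉ S1).card := by
  classical
  set S0 : Finset V := (univ : Finset V).filter fun v => v ∉ S1 ∧ π.symm v ∉ S1 with hS0
  set P : (Ω → V) → Prop := fun χ =>
    (∃ X ∈ A, ∀ x ∈ X \ u, χ x ∈ S1) ∧ ∃ X ∈ A, ∀ x ∈ X \ u, π.symm (χ x) ∈ S1 with hP
  have hind := sp3_indep u P (by
    rintro χ χ' h ⟨⟨X, hX, h1⟩, ⟨X', hX', h2⟩⟩
    refine ⟨⟨X, hX, fun x hx => ?_⟩, ⟨X', hX', fun x hx => ?_⟩⟩
    · rw [← h x (mem_sdiff.1 hx).2]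
      exact h1 x hx
    · rw [← h x (mem_sdiff.1 hx).2]
      exact h2 x hx) S0
  -- the size of `S0`
  have hc0 : Fintype.card V ≤ 3 * S0.card := by
    have e1 : (univ : Finset V) ⊆ S0 ∪ (S1 ∪ S1.image π) := by
      intro v _
      rw [mem_union, mem_union]
      by_cases hv : v ∈ S1
      · exact Or.inr (Or.inl hv)
      · by_cases hv' : π.symm v ∈ S1
        · exact Or.inr (Or.inr (mem_image.2 ⟨_, hv', π.apply_symm_apply v⟩))
        · exact Or.inl (mem_filter.2 ⟨mem_univ _, hv, hv'⟩)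
    have e2 := (card_le_card e1).trans (card_union_le _ _)
    have e3 := card_union_le S1 (S1.image π)
    have e4 : (S1.image π).card ≤ S1.card := card_image_le
    rw [card_univ] at e2
    omega
  -- the good colourings
  have hb2 : ((univ : Finset (Ω → V)).filter fun χ =>
      ∀ X ∈ A, ¬ ∀ x ∈ X \ u, π.symm (χ x) ∈ S1).card =
      ((univ : Finset (Ω → V)).filter fun χ => ∀ X ∈ A, ¬ ∀ x ∈ X \ u, χ x ∈ S1).card := by
    refine card_nbij' (fun χ x => π.symm (χ x)) (fun χ x => π (χ x)) ?_ ?_ ?_ ?_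
    · intro χ hχ
      simpa using hχ
    · intro χ hχ
      simpa using hχ
    · intro χ _
      funext x
      exact π.apply_symm_apply _
    · intro χ _
      funext x
      exact π.symm_apply_apply _
  have hgood : 3 * Fintype.card (Ω → V) ≤ 4 * ((univ : Finset (Ω → V)).filter P).card := by
    have e1 : (univ : Finset (Ω → V)) ⊆ (univ : Finset (Ω → V)).filter P ∪
        (((univ : Finset (Ω → V)).filter fun χ => ∀ X ∈ A, ¬ ∀ x ∈ X \ u, χ x ∈ S1) ∪
        ((univ : Finset (Ω → V)).filter fun χ =>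
          ∀ X ∈ A, ¬ ∀ x ∈ X \ u, π.symm (χ x) ∈ S1)) := by
      intro χ _
      rw [mem_union, mem_union, mem_filter, mem_filter, mem_filter]
      by_cases a : ∃ X ∈ A, ∀ x ∈ X \ u, χ x ∈ S1
      · by_cases b : ∃ X ∈ A, ∀ x ∈ X \ u, π.symm (χ x) ∈ S1
        · exact Or.inl ⟨mem_univ _, a, b⟩
        · push Not at b
          refine Or.inr (Or.inr ⟨mem_univ _, fun X hX h => ?_⟩)
          obtain ⟨x, hx, hx'⟩ := b X hX
          exact hx' (h x hx)
      · push Not at a
        refine Or.inr (Or.inl ⟨mem_univ _, fun X hX h => ?_⟩)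
        obtain ⟨x, hx, hx'⟩ := a X hX
        exact hx' (h x hx)
    have e2 := (card_le_card e1).trans (card_union_le _ _)
    have e3 := card_union_le ((univ : Finset (Ω → V)).filter fun χ =>
      ∀ X ∈ A, ¬ ∀ x ∈ X \ u, χ x ∈ S1)
      ((univ : Finset (Ω → V)).filter fun χ => ∀ X ∈ A, ¬ ∀ x ∈ X \ u, π.symm (χ x) ∈ S1)
    rw [card_univ] at e2
    rw [hb2] at e3
    omega
  -- cancel
  set Q := ((univ : Finset (Ω → V)).filter fun χ => P χ ∧ ∀ x ∈ u, χ x ∈ S0).card with hQ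
  have hV : 0 < Fintype.card V ^ u.card := Nat.pow_pos Fintype.card_pos
  have h5 : (Fintype.card V) ^ u.card ≤ 3 ^ u.card * S0.card ^ u.card := by
    rw [← mul_pow]
    exact Nat.pow_le_pow_left hc0 _
  have h6 : ((univ : Finset (Ω → V)).filter P).card ≤ 3 ^ u.card * Q := by
    refine Nat.le_of_mul_le_mul_right ?_ hV
    calc ((univ : Finset (Ω → V)).filter P).card * (Fintype.card V) ^ u.card
        ≤ ((univ : Finset (Ω → V)).filter P).card * (3 ^ u.card * S0.card ^ u.card) :=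
          Nat.mul_le_mul_left _ h5
      _ = 3 ^ u.card * (((univ : Finset (Ω → V)).filter P).card * S0.card ^ u.card) := by ring
      _ = 3 ^ u.card * (Q * (Fintype.card V) ^ u.card) := by rw [← hind]
      _ = 3 ^ u.card * Q * (Fintype.card V) ^ u.card := by ring
  calc 3 * Fintype.card (Ω → V) ≤ 4 * ((univ : Finset (Ω → V)).filter P).card := hgood
    _ ≤ 4 * (3 ^ u.card * Q) := Nat.mul_le_mul_left _ h6
    _ = 4 * 3 ^ u.card * Q := by ring

/-- averaging over the colourings -/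
private theorem sp3_avg {α β : Type*} [Fintype β] [Nonempty β] [DecidableEq α] (U : Finset α)
    (G : α → β → Prop) [∀ a b, Decidable (G a b)] (M : ℕ)
    (h : ∀ a ∈ U, 3 * Fintype.card β ≤ 4 * 3 ^ M * ((univ : Finset β).filter fun b => G a b).card) :
    ∃ b : β, U.card ≤ 2 * 3 ^ M * (U.filter fun a => G a b).card := by
  classical
  by_contra hc
  push Not at hc
  have h1 : ∑ a ∈ U, ((univ : Finset β).filter fun b => G a b).card =
      ∑ b : β, (U.filter fun a => G a b).card := by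
    simp only [card_filter]
    exact sum_comm
  have h2 : U.card * (3 * Fintype.card β) ≤
      4 * 3 ^ M * ∑ a ∈ U, ((univ : Finset β).filter fun b => G a b).card := by
    rw [mul_sum, ← smul_eq_mul, ← sum_const]
    exact sum_le_sum h
  have h3 : ∑ b : β, 2 * 3 ^ M * (U.filter fun a => G a b).card < ∑ _b : β, U.card :=
    sum_lt_sum_of_nonempty univ_nonempty fun b _ => hc b
  rw [← mul_sum, sum_const, card_univ, smul_eq_mul, ← h1] at h3
  nlinarith [Nat.zero_le (U.card * Fintype.card β)]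

private theorem sp3_n0 : ∃ n₀ : ℕ, ∀ n ≥ n₀,
    576 * ((Nat.log 2 n + 1 : ℕ) : ℝ) ^ 4 ≤ Real.sqrt n := by
  have h0 : (fun x : ℝ => Real.log x ^ 4) =o[Filter.atTop] (id : ℝ → ℝ) :=
    Real.isLittleO_pow_log_id_atTop
  have h1 := h0.bound (show (0 : ℝ) < 1 / (576 * 256) by norm_num)
  have h2 : Filter.Tendsto (fun n : ℕ => Real.sqrt n) Filter.atTop Filter.atTop :=
    Real.tendsto_sqrt_atTop.comp tendsto_natCast_atTop_atTop
  have h3 := h2.eventually (h1.and (Filter.eventually_ge_atTop (Real.exp 1)))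
  obtain ⟨N, hN⟩ := Filter.eventually_atTop.1 h3
  refine ⟨max N 1, fun n hn => ?_⟩
  obtain ⟨h4, h5⟩ := hN n ((le_max_left _ _).trans hn)
  have hn1 : 1 ≤ n := (le_max_right _ _).trans hn
  have hs : 0 < Real.sqrt n := (Real.exp_pos 1).trans_le h5
  have hy : 1 ≤ Real.log (Real.sqrt n) := by
    rw [Real.le_log_iff_exp_le hs]
    exact h5
  rw [id, Real.norm_of_nonneg (by positivity), Real.norm_of_nonneg hs.le] at h4
  have h6 : ((Nat.log 2 n : ℕ) : ℝ) ≤ 3 * Real.log (Real.sqrt n) := by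
    have e1 : (2 : ℝ) ^ (Nat.log 2 n) ≤ n := by
      exact_mod_cast Nat.pow_log_le_self 2 (by omega)
    have e2 := Real.log_le_log (by positivity) e1
    rw [Real.log_pow] at e2
    have e3 : Real.log n = 2 * Real.log (Real.sqrt n) := by
      rw [Real.log_sqrt (Nat.cast_nonneg n)]
      ring
    have e4 : (0.6931471803 : ℝ) < Real.log 2 := Real.log_two_gt_d9
    rw [e3] at e2
    nlinarith [Nat.cast_nonneg (α := ℝ) (Nat.log 2 n)]
  have h7 : ((Nat.log 2 n + 1 : ℕ) : ℝ) ≤ 4 * Real.log (Real.sqrt n) := by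
    push_cast
    linarith
  calc 576 * ((Nat.log 2 n + 1 : ℕ) : ℝ) ^ 4 ≤ 576 * (4 * Real.log (Real.sqrt n)) ^ 4 := by
        gcongr
    _ = 576 * 256 * Real.log (Real.sqrt n) ^ 4 := by ring
    _ ≤ 576 * 256 * (1 / (576 * 256) * Real.sqrt n) := by gcongr
    _ = Real.sqrt n := by ring

theorem good_colour : ∃ n₀ : ℕ, ∀ n ≥ n₀, ∀ {Ω : Type} [Fintype Ω] [DecidableEq Ω]
    (U : Finset (Finset Ω)) (M : ℕ) (A : Finset Ω → Finset (Finset Ω)),
    (∀ u ∈ U, u.card = M) → (∀ u ∈ U, (A u).Nonempty) →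
    (∀ u ∈ U, ∀ X ∈ A u, u ⊆ X ∧ X.card ≤ n) → (∀ u ∈ U, Sp (Real.sqrt n) u (A u)) →
    ∃ U' ⊆ U, (U.card : ℝ) ≤ 2 * 3 ^ M * U'.card ∧
      ∀ u ∈ U', ∀ u' ∈ U', ∃ X ∈ A u, ∃ X' ∈ A u', X ∩ X' = u ∩ u' := by
  classical
  obtain ⟨n₀, hn₀⟩ := sp3_n0
  refine ⟨n₀, fun n hn Ω _ _ U M A hM hne hX hsp => ?_⟩
  set J : ℕ := Nat.log 2 n + 1 with hJ
  have hJ1 : 1 ≤ J := by omega
  have hnJ : n < 2 ^ J := Nat.lt_pow_succ_log_self (by norm_num) n
  have h3J : 0 < 3 * J := by omega
  have : Nonempty (Fin (3 * J)) := ⟨⟨0, h3J⟩⟩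
  set S1 : Finset (Fin J → Fin (3 * J)) :=
    (univ : Finset (Fin J → Fin (3 * J))).filter fun f => ∃ a, (f a : ℕ) = 0 with hS1
  have hS1c : 3 * S1.card ≤ Fintype.card (Fin J → Fin (3 * J)) := sp3_S1 hJ1
  obtain ⟨π, hπ⟩ := sp3_perm S1 (by omega)
  set G : Finset Ω → (Ω → Fin J → Fin (3 * J)) → Prop := fun u χ =>
    ((∃ X ∈ A u, ∀ x ∈ X \ u, χ x ∈ S1) ∧ ∃ X ∈ A u, ∀ x ∈ X \ u, π.symm (χ x) ∈ S1) ∧
        ∀ x ∈ u, χ x ∈ (univ : Finset (Fin J → Fin (3 * J))).filter
          fun v => v ∉ S1 ∧ π.symm v ∉ S1 with hG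
  have hone : ∀ u ∈ U, 3 * Fintype.card (Ω → Fin J → Fin (3 * J)) ≤ 4 * 3 ^ M *
      ((univ : Finset (Ω → Fin J → Fin (3 * J))).filter fun χ => G u χ).card := by
    intro u hu
    have hf := spread_fail (A u) (hne u hu) (fun X => X \ u) hJ1 (hn₀ n hn) (fun X hXA =>
      (card_le_card sdiff_subset).trans_lt ((hX u hu X hXA).2.trans_lt hnJ)) (fun S => by
        by_cases hS : Disjoint S u
        · refine le_trans ?_ (hsp u hu S hS)
          refine mul_le_mul_of_nonneg_right ?_ (by positivity)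
          have hh : ((A u).filter fun X => S ⊆ X \ u).card ≤
              ((A u).filter fun X => S ⊆ X).card := by
            refine card_le_card fun X hX' => ?_
            rw [mem_filter] at hX' ⊢
            exact ⟨hX'.1, hX'.2.trans sdiff_subset⟩
          exact_mod_cast hh
        · have : ((A u).filter fun X => S ⊆ X \ u) = ∅ := by
            refine filter_eq_empty_iff.2 fun X _ h => hS ?_
            exact disjoint_of_subset_left h sdiff_disjoint
          rw [this, card_empty, Nat.cast_zero, zero_mul]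
          exact Nat.cast_nonneg _)
    have hf' : 8 * ((univ : Finset (Ω → Fin J → Fin (3 * J))).filter fun χ =>
        ∀ X ∈ A u, ¬ ∀ x ∈ X \ u, χ x ∈ S1).card ≤ Fintype.card (Ω → Fin J → Fin (3 * J)) := by
      rw [card_univ] at hf
      refine (Nat.mul_le_mul_left 8 (card_le_card fun χ hχ => ?_)).trans hf
      have h := (mem_filter.1 hχ).2
      rw [Finset.filter_congr_decidable, mem_filter]
      exact ⟨mem_univ _, fun X hXA h' => h X hXA fun x hx => mem_filter.2 ⟨mem_univ _, h' x hx⟩⟩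
    have := sp3_one S1 π hS1c u (A u) hf'
    rw [hM u hu] at this
    exact this
  obtain ⟨χ, hχ⟩ := sp3_avg U G M hone
  refine ⟨U.filter fun u => G u χ, filter_subset _ _, by exact_mod_cast hχ, ?_⟩
  intro u hu u' hu'
  obtain ⟨huU, ⟨⟨X, hXA, hX1⟩, -⟩, hu0⟩ := mem_filter.1 hu
  obtain ⟨huU', ⟨-, ⟨X', hXA', hX2⟩⟩, hu0'⟩ := mem_filter.1 hu'
  refine ⟨X, hXA, X', hXA', ?_⟩
  have a0 : ∀ x ∈ u, χ x ∉ S1 ∧ π.symm (χ x) ∉ S1 := fun x hx => (mem_filter.1 (hu0 x hx)).2
  have a0' : ∀ x ∈ u', χ x ∉ S1 ∧ π.symm (χ x) ∉ S1 := fun x hx => (mem_filter.1 (hu0' x hx)).2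
  refine Subset.antisymm (fun x hx => ?_) (inter_subset_inter (hX u huU X hXA).1
    (hX u' huU' X' hXA').1)
  rw [mem_inter] at hx ⊢
  by_cases h1 : x ∈ u
  · refine ⟨h1, ?_⟩
    by_contra h2
    exact (a0 x h1).2 (hX2 x (mem_sdiff.2 ⟨hx.2, h2⟩))
  · exfalso
    have b1 := hX1 x (mem_sdiff.2 ⟨hx.1, h1⟩)
    by_cases h2 : x ∈ u'
    · exact (a0' x h2).1 b1
    · exact hπ _ b1 (hX2 x (mem_sdiff.2 ⟨hx.2, h2⟩))

end Pool.Agent.CL24
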