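import Pool.Agent.CL24.Dec

/-!
# Decomposition of a large family over a fixed set of rows
-/

set_option autoImplicit false

namespace Pool.Agent.CL24

open Finset Equiv Nat Pool.Agent.H17.PermInt Pool.Agent.FI37

theorem uf_num {n t m z : ℕ} (hn : 2 ^ 22 ≤ n) (h20 : 20 * t ≤ n) (hm : 4 * m ≤ n)
    (hz : m + z ≤ n)
    (h : ((n - 2 * t)! : ℝ) * ((n - m)! : ℝ) ≤
      4 * (n ! : ℝ) * (Real.sqrt n) ^ z * ((n - (m + z))! : ℝ)) : z ≤ 5 * t := by
  by_contra hcon
  have hz5 : 5 * t + 1 ≤ z := by omega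
  set s : ℝ := Real.sqrt n with hs
  have hnR : ((2 : ℝ) ^ 22) ≤ n := by exact_mod_cast hn
  have hn0 : (0 : ℝ) ≤ n := by positivity
  have hss : s ^ 2 = n := Real.sq_sqrt hn0
  have hs0 : 0 ≤ s := Real.sqrt_nonneg _
  have hs11 : (2 : ℝ) ^ 11 ≤ s := by
    rw [hs]
    apply Real.le_sqrt_of_sq_le
    have h0 : ((2 : ℝ) ^ 11) ^ 2 = 2 ^ 22 := by norm_num
    rw [h0]
    exact hnR
  have hspos : 0 < s := lt_of_lt_of_le (by norm_num) hs11
  have h1 := fact_le_pow (n := n) (2 * t) (by omega)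
  have hf1 : (0 : ℝ) < ((n - 2 * t)! : ℝ) := by exact_mod_cast Nat.factorial_pos _
  have hf2 : (0 : ℝ) < ((n - (m + z))! : ℝ) := by exact_mod_cast Nat.factorial_pos _
  have h2 : ((n - m)! : ℝ) ≤ 4 * (n : ℝ) ^ (2 * t) * s ^ z * ((n - (m + z))! : ℝ) := by
    have h3 : ((n - 2 * t)! : ℝ) * ((n - m)! : ℝ) ≤
        ((n - 2 * t)! : ℝ) * (4 * (n : ℝ) ^ (2 * t) * s ^ z * ((n - (m + z))! : ℝ)) := by
      calc ((n - 2 * t)! : ℝ) * ((n - m)! : ℝ) ≤
          4 * (n ! : ℝ) * s ^ z * ((n - (m + z))! : ℝ) := h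
        _ ≤ 4 * ((n : ℝ) ^ (2 * t) * ((n - 2 * t)! : ℝ)) * s ^ z * ((n - (m + z))! : ℝ) := by
            gcongr
        _ = _ := by ring
    exact le_of_mul_le_mul_left h3 hf1
  have h3 := fact_sub_le (N := n - m) (q := z) (by omega)
  have he : n - m - z = n - (m + z) := by omega
  rw [he] at h3
  have h4 : ((n - m : ℕ) : ℝ) ^ z ≤ Real.exp z * (4 * (n : ℝ) ^ (2 * t) * s ^ z) := by
    have h5 : ((n - (m + z))! : ℝ) * ((n - m : ℕ) : ℝ) ^ z ≤
        ((n - (m + z))! : ℝ) * (Real.exp z * (4 * (n : ℝ) ^ (2 * t) * s ^ z)) := by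
      calc _ ≤ Real.exp z * ((n - m)! : ℝ) := h3
        _ ≤ Real.exp z * (4 * (n : ℝ) ^ (2 * t) * s ^ z * ((n - (m + z))! : ℝ)) := by gcongr
        _ = _ := by ring
    exact le_of_mul_le_mul_left h5 hf2
  have hexp : Real.exp z ≤ 3 ^ z := by
    have h5 : Real.exp (z : ℝ) = Real.exp 1 ^ z := by
      rw [← Real.exp_nat_mul]
      congr 1
      ring
    rw [h5]
    have h6 : Real.exp 1 ≤ 3 := by
      have := Real.exp_one_lt_d9.le
      linarith
    gcongr
  have h34 : ((3 : ℝ) / 4 * n) ^ z ≤ ((n - m : ℕ) : ℝ) ^ z := by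
    apply pow_le_pow_left₀ (by positivity)
    have h5 : ((n - m : ℕ) : ℝ) = (n : ℝ) - m := by
      rw [Nat.cast_sub (by omega)]
    have h6 : (4 : ℝ) * m ≤ n := by exact_mod_cast hm
    rw [h5]
    linarith
  have h5 : s ^ (2 * z) ≤ 4 ^ (z + 1) * s ^ (4 * t + z) := by
    have h6 : ((3 : ℝ) / 4 * n) ^ z ≤ 3 ^ z * (4 * (n : ℝ) ^ (2 * t) * s ^ z) :=
      (h34.trans h4).trans (by gcongr)
    have h7 : ((3 : ℝ) / 4 * n) ^ z = (3 : ℝ) ^ z * (s ^ (2 * z) / 4 ^ z) := by
      rw [pow_mul, hss, mul_pow, div_pow]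
      ring
    rw [h7] at h6
    have h8 : s ^ (2 * z) / 4 ^ z ≤ 4 * (n : ℝ) ^ (2 * t) * s ^ z :=
      le_of_mul_le_mul_left h6 (by positivity)
    rw [div_le_iff₀ (by positivity)] at h8
    calc s ^ (2 * z) ≤ 4 * (n : ℝ) ^ (2 * t) * s ^ z * 4 ^ z := h8
      _ = 4 ^ (z + 1) * s ^ (4 * t + z) := by
          rw [← hss, ← pow_mul, pow_add s, pow_succ (4 : ℝ)]
          have : 2 * (2 * t) = 4 * t := by ring
          rw [this]
          ring
  have h6 : s ^ (z - 4 * t) ≤ 4 ^ (z + 1) := by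
    have h7 : s ^ (2 * z) = s ^ (4 * t + z) * s ^ (z - 4 * t) := by
      rw [← pow_add]
      congr 1
      omega
    rw [h7, mul_comm (4 ^ (z + 1)) _] at h5
    exact le_of_mul_le_mul_left h5 (by positivity)
  have h7 : (s ^ (z - 4 * t)) ^ 5 ≤ ((4 : ℝ) ^ (z + 1)) ^ 5 := by gcongr
  have h8 : s ^ (z + 4) ≤ (s ^ (z - 4 * t)) ^ 5 := by
    rw [← pow_mul]
    apply pow_le_pow_right₀ (le_trans (by norm_num) hs11)
    omega
  have h9 : ((4 : ℝ) ^ (z + 1)) ^ 5 = 1024 ^ (z + 1) := by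
    rw [← pow_mul, mul_comm, pow_mul]
    norm_num
  have h10 : s ^ (z + 1) ≤ s ^ (z + 4) := by
    apply pow_le_pow_right₀ (le_trans (by norm_num) hs11)
    omega
  have h11 : (1024 : ℝ) ^ (z + 1) < s ^ (z + 1) := by
    apply pow_lt_pow_left₀ (lt_of_lt_of_le (by norm_num) hs11) (by norm_num) (by omega)
  linarith [h7, h8, h9, h10, h11]

theorem card_rs {n : ℕ} (K : Finset (Fin n)) (σ : Perm (Fin n)) : (rs K σ).card = K.card := by
  have h : rs K σ = K.image fun i => (i, σ i) := by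
    ext ⟨a, b⟩
    simp only [mem_rs, mem_image, Prod.mk.injEq]
    constructor
    · rintro ⟨h1, h2⟩
      exact ⟨a, h2, rfl, h1⟩
    · rintro ⟨i, hi, rfl, rfl⟩
      exact ⟨rfl, hi⟩
  rw [h, Finset.card_image_of_injective]
  intro a b hab
  exact (Prod.mk.inj hab).1

theorem rs_sub {n : ℕ} (K : Finset (Fin n)) (σ : Perm (Fin n)) : rs K σ ⊆ gr σ :=
  filter_subset _ _

/-- a permutation containing `rs K σ` has the same restriction -/
theorem rs_eq {n : ℕ} {K : Finset (Fin n)} {σ τ : Perm (Fin n)} (h : rs K σ ⊆ gr τ) :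
    rs K τ = rs K σ := by
  symm
  apply eq_of_subset_of_card_le
  · intro q hq
    rw [mem_rs]
    exact ⟨mem_gr.mp (h hq), (mem_rs.mp hq).2⟩
  · rw [card_rs, card_rs]

theorem card_image_rs {n m : ℕ} (K : Finset (Fin n)) (hK : K.card = m)
    (G : Finset (Perm (Fin n))) : (G.image (rs K)).card * (n - m)! ≤ n ! := by
  classical
  have h1 : ∑ v ∈ G.image (rs K), (st v).card = (G.image (rs K)).card * (n - m)! := by
    rw [card_eq_sum_ones, sum_mul]
    apply sum_congr rfl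
    intro v hv
    obtain ⟨σ, -, rfl⟩ := mem_image.mp hv
    rw [card_st (rs_sub K σ), card_rs, hK, one_mul]
  rw [← h1, ← card_biUnion]
  · calc _ ≤ (univ : Finset (Perm (Fin n))).card := card_le_card (subset_univ _)
      _ = n ! := by rw [Finset.card_univ, Fintype.card_perm, Fintype.card_fin]
  · intro v hv v' hv' hne
    obtain ⟨σ, -, rfl⟩ := mem_image.mp hv
    obtain ⟨σ', -, rfl⟩ := mem_image.mp hv'
    show Disjoint (st (rs K σ)) (st (rs K σ'))
    rw [Finset.disjoint_left]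
    intro τ hτ hτ'
    exact hne ((rs_eq (mem_st.mp hτ)).symm.trans (rs_eq (mem_st.mp hτ')))

theorem ufam : ∃ n₀ : ℕ, ∀ n ≥ n₀, ∀ (t m : ℕ) (_ : 1 ≤ t) (_ : 20 * t ≤ n) (_ : 4 * m ≤ n)
    (K : Finset (Fin n)) (_ : K.card = m) (G : Finset (Perm (Fin n))) (_ : (n - 2 * t)! ≤ G.card),
    ∃ (P : Finset (Finset (Fin n × Fin n)))
      (D : Finset (Fin n × Fin n) → Finset (Perm (Fin n))),
      (∀ u ∈ P, D u ⊆ G ∧ Pc (Real.sqrt n) u (D u) ∧ K ⊆ u.image Prod.fst ∧
        m ≤ u.card ∧ u.card ≤ m + 5 * t) ∧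
      G.card ≤ 4 * ∑ u ∈ P, (D u).card := by
  classical
  refine ⟨2 ^ 22, ?_⟩
  intro n hn t m ht h20 hm K hK G hG
  set V := G.image (rs K) with hV
  set Gv : Finset (Fin n × Fin n) → Finset (Perm (Fin n)) :=
    fun v => G.filter fun σ => rs K σ = v with hGv
  set V' := V.filter fun v => G.card ≤ 2 * V.card * (Gv v).card with hV'
  have hr : 1 ≤ Real.sqrt n := by
    rw [Real.one_le_sqrt]
    have : 1 ≤ n := le_trans (by norm_num) hn
    exact_mod_cast this
  have hin : ∀ v, InSt v (Gv v) := by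
    intro v σ hσ
    have h := (mem_filter.mp hσ).2
    rw [← h]
    exact rs_sub K σ
  have hGpos : 0 < G.card := lt_of_lt_of_le (Nat.factorial_pos _) hG
  have hVpos : 0 < V.card := by
    rw [hV, card_pos, image_nonempty]
    exact card_pos.mp hGpos
  have hsum : ∑ v ∈ V, (Gv v).card = G.card := (card_eq_sum_card_image (rs K) G).symm
  have hhalf : G.card ≤ 2 * ∑ v ∈ V', (Gv v).card := by
    have h1 : ∑ v ∈ V, (Gv v).card = ∑ v ∈ V', (Gv v).card +
        ∑ v ∈ V.filter (fun v => ¬ G.card ≤ 2 * V.card * (Gv v).card), (Gv v).card := by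
      rw [hV', sum_filter_add_sum_filter_not]
    have h2 : 2 * V.card * ∑ v ∈ V.filter (fun v => ¬ G.card ≤ 2 * V.card * (Gv v).card),
        (Gv v).card ≤ V.card * G.card := by
      rw [mul_sum]
      calc _ ≤ ∑ v ∈ V.filter (fun v => ¬ G.card ≤ 2 * V.card * (Gv v).card), G.card := by
            apply sum_le_sum
            intro v hv
            have := (mem_filter.mp hv).2
            omega
        _ = (V.filter (fun v => ¬ G.card ≤ 2 * V.card * (Gv v).card)).card * G.card := by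
            rw [sum_const, smul_eq_mul]
        _ ≤ V.card * G.card := Nat.mul_le_mul_right _ (card_le_card (filter_subset _ _))
    have h3 : 2 * ∑ v ∈ V.filter (fun v => ¬ G.card ≤ 2 * V.card * (Gv v).card),
        (Gv v).card ≤ G.card := by
      apply Nat.le_of_mul_le_mul_left _ hVpos
      calc _ = 2 * V.card * ∑ v ∈ V.filter (fun v => ¬ G.card ≤ 2 * V.card * (Gv v).card),
            (Gv v).card := by ring
        _ ≤ _ := h2
    omega
  choose P D hPD using fun v : Finset (Fin n × Fin n) => decomp hr v (Gv v) (hin v)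
  -- the restriction of a piece
  have hres : ∀ v, ∀ u ∈ P v, v ∈ V → u.filter (fun q => q.1 ∈ K) = v ∧
      ∃ σ ∈ G, rs K σ = v ∧ u ⊆ gr σ := by
    intro v u hu hv
    obtain ⟨hvu, hDA, hPc, -⟩ := (hPD v).1 u hu
    obtain ⟨σ, hσ⟩ := hPc.ne
    have hσA := hDA hσ
    have hσG := (mem_filter.mp hσA).1
    have hσv : rs K σ = v := (mem_filter.mp hσA).2
    have huσ := hPc.st σ hσ
    refine ⟨?_, σ, hσG, hσv, huσ⟩
    apply Subset.antisymm
    · intro q hq
      rw [mem_filter] at hq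
      rw [← hσv, mem_rs]
      exact ⟨mem_gr.mp (huσ hq.1), hq.2⟩
    · intro q hq
      rw [mem_filter]
      refine ⟨hvu hq, ?_⟩
      rw [← hσv] at hq
      exact (mem_rs.mp hq).2
  refine ⟨V'.biUnion P, fun u => D (u.filter fun q => q.1 ∈ K) u, ?_, ?_⟩
  · intro u hu
    obtain ⟨v, hv', hu⟩ := mem_biUnion.mp hu
    have hv : v ∈ V := (mem_filter.mp hv').1
    have hkeep : G.card ≤ 2 * V.card * (Gv v).card := (mem_filter.mp hv').2
    obtain ⟨he, σ, hσG, hσv, huσ⟩ := hres v u hu hv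
    obtain ⟨hvu, hDA, hPc, hbig⟩ := (hPD v).1 u hu
    simp only [he]
    have hvc : v.card = m := by rw [← hσv, card_rs, hK]
    have hmu : m ≤ u.card := by
      rw [← hvc]
      exact card_le_card hvu
    refine ⟨hDA.trans (filter_subset _ _), hPc, ?_, hmu, ?_⟩
    · intro i hi
      rw [mem_image]
      refine ⟨(i, σ i), ?_, rfl⟩
      apply hvu
      rw [← hσv, mem_rs]
      exact ⟨rfl, hi⟩
    · have hz : (u \ v).card = u.card - m := by
        rw [card_sdiff_of_subset hvu, hvc]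
      have hun : u.card ≤ n := card_le_of_sub_gr huσ
      have hzn : m + (u.card - m) ≤ n := by omega
      have hDc : ((D v u).card : ℝ) ≤ ((n - (m + (u.card - m)))! : ℝ) := by
        have h1 : (D v u).card ≤ (n - u.card)! :=
          (card_le_card hPc.st.subset).trans (card_st_le u)
        have h2 : m + (u.card - m) = u.card := by omega
        rw [h2]
        exact_mod_cast h1
      have hVc : (V.card : ℝ) * ((n - m)! : ℝ) ≤ (n ! : ℝ) := by
        exact_mod_cast card_image_rs K hK G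
      have hGR : ((n - 2 * t)! : ℝ) ≤ (G.card : ℝ) := by exact_mod_cast hG
      have hkR : (G.card : ℝ) ≤ 2 * V.card * (Gv v).card := by exact_mod_cast hkeep
      have hs0 : 0 ≤ Real.sqrt (n : ℝ) := Real.sqrt_nonneg _
      have h := uf_num (n := n) (t := t) (m := m) (z := u.card - m) hn h20 hm hzn (by
        rw [hz] at hbig
        calc ((n - 2 * t)! : ℝ) * ((n - m)! : ℝ) ≤ (G.card : ℝ) * ((n - m)! : ℝ) := by gcongr
          _ ≤ (2 * V.card * (Gv v).card) * ((n - m)! : ℝ) := by gcongr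
          _ ≤ (2 * V.card * (2 * Real.sqrt n ^ (u.card - m) * (D v u).card)) *
                ((n - m)! : ℝ) := by gcongr
          _ = 4 * (V.card * ((n - m)! : ℝ)) * Real.sqrt n ^ (u.card - m) * (D v u).card := by
              ring
          _ ≤ 4 * (n ! : ℝ) * Real.sqrt n ^ (u.card - m) *
                ((n - (m + (u.card - m)))! : ℝ) := by gcongr)
      omega
  · have hdisj : ∀ v ∈ V', ∀ v' ∈ V', v ≠ v' → Disjoint (P v) (P v') := by
      intro v hv v' hv' hne
      rw [Finset.disjoint_left]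
      intro u hu hu'
      exact hne ((hres v u hu (mem_filter.mp hv).1).1.symm.trans
        (hres v' u hu' (mem_filter.mp hv').1).1)
    rw [sum_biUnion hdisj]
    calc G.card ≤ 2 * ∑ v ∈ V', (Gv v).card := hhalf
      _ ≤ 2 * ∑ v ∈ V', 2 * ∑ u ∈ P v, (D v u).card := by
          gcongr with v hv
          exact (hPD v).2
      _ = 4 * ∑ v ∈ V', ∑ u ∈ P v, (D v u).card := by
          rw [← mul_sum]
          ring
      _ = 4 * ∑ v ∈ V', ∑ u ∈ P v, (D (u.filter fun q => q.1 ∈ K) u).card := by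
          congr 1
          apply sum_congr rfl
          intro v hv
          apply sum_congr rfl
          intro u hu
          rw [(hres v u hu (mem_filter.mp hv).1).1]

end Pool.Agent.CL24
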