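import Pool.Agent.CL24.EE
import Pool.Agent.CL24.NT
import Pool.Agent.CL24.Sp3
import Pool.Agent.CL24.UFam
import Pool.Agent.CL24.Cnt

/-!
# Dense links of `(t-1)`-avoiding families
-/

set_option autoImplicit false

namespace Pool.Agent.CL24

open Finset Equiv Nat Pool.Agent.H17.PermInt Pool.Agent.FI37

theorem gr_inj {n : ℕ} : Function.Injective (gr : Perm (Fin n) → Finset (Fin n × Fin n)) := by
  intro σ τ h
  ext i
  have h1 : (i, σ i) ∈ gr σ := mem_gr.mpr rfl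
  rw [h] at h1
  have h2 : τ i = σ i := mem_gr.mp h1
  rw [h2]

/-- The family of graphs of a piece is spread. -/
theorem sp_image {n : ℕ} {r : ℝ} {u : Finset (Fin n × Fin n)} {A : Finset (Perm (Fin n))}
    (h : Pc r u A) : Sp r u (A.image gr) := by
  classical
  intro S hS
  have h1 := h.sp S hS
  have h2 : ((A.image gr).filter fun X => S ⊆ X) = (A.filter fun σ => S ⊆ gr σ).image gr := by
    ext X
    simp only [mem_filter, mem_image]
    constructor
    · rintro ⟨⟨σ, hσ, rfl⟩, h3⟩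
      exact ⟨σ, ⟨hσ, h3⟩, rfl⟩
    · rintro ⟨σ, ⟨hσ, h3⟩, rfl⟩
      exact ⟨⟨σ, hσ, rfl⟩, h3⟩
  rw [h2, card_image_of_injective _ gr_inj, card_image_of_injective _ gr_inj]
  exact h1

/-- Piece families of fixed size avoid the intersection `t - 1`. -/
theorem piece_uni {n₁ : ℕ} (hgc : ∀ n ≥ n₁, ∀ {Ω : Type} [Fintype Ω] [DecidableEq Ω]
    (U : Finset (Finset Ω)) (M : ℕ) (A : Finset Ω → Finset (Finset Ω)),
    (∀ u ∈ U, u.card = M) → (∀ u ∈ U, (A u).Nonempty) →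
    (∀ u ∈ U, ∀ X ∈ A u, u ⊆ X ∧ X.card ≤ n) → (∀ u ∈ U, Sp (Real.sqrt n) u (A u)) →
    ∃ U' ⊆ U, (U.card : ℝ) ≤ 2 * 3 ^ M * U'.card ∧
      ∀ u ∈ U', ∀ u' ∈ U', ∃ X ∈ A u, ∃ X' ∈ A u', X ∩ X' = u ∩ u')
    {n t m z : ℕ} (hn : n₁ ≤ n) (hn1 : 1 ≤ n) (hMn : m + z < n) (K : Finset (Fin n))
    (hK : K.card = m) (G : Finset (Perm (Fin n))) (hav : IsAvoiding t G)
    (P : Finset (Finset (Fin n × Fin n))) (D : Finset (Fin n × Fin n) → Finset (Perm (Fin n)))
    (hP : ∀ u ∈ P, D u ⊆ G ∧ Pc (Real.sqrt n) u (D u) ∧ K ⊆ u.image Prod.fst ∧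
      u.card = m + z) :
    ∃ U' : Finset (Finset (Fin n × Fin n)), (P.card : ℝ) ≤ 2 * 3 ^ (m + z) * U'.card ∧
      Uni U' (m + z) (t - 1) n ((2 ^ m * Bz n z : ℕ) : ℝ) := by
  classical
  obtain ⟨U', hU', hc, hX⟩ := hgc n hn P (m + z) (fun u => (D u).image gr)
    (fun u hu => (hP u hu).2.2.2) (fun u hu => (hP u hu).2.1.ne.image _)
    (fun u hu X hX => by
      obtain ⟨σ, hσ, rfl⟩ := mem_image.mp hX
      exact ⟨(hP u hu).2.1.st σ hσ, (card_gr σ).le⟩)
    (fun u hu => sp_image (hP u hu).2.1)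
  refine ⟨U', hc, ?_⟩
  have hcnt := cnt (n := n) (m := m) (z := z) hn1 K hK U' (fun u hu => by
    have h1 := hP u (hU' hu)
    refine ⟨h1.2.2.1, h1.2.2.2, ?_⟩
    obtain ⟨σ, hσ⟩ := h1.2.1.ne
    exact ⟨σ, h1.2.1.st σ hσ⟩)
  refine ⟨fun u hu => (hP u (hU' hu)).2.2.2, ?_, hcnt.1, hcnt.2.1⟩
  intro u hu u' hu' hne hk
  obtain ⟨X, hX1, X', hX2, hXX⟩ := hX u hu u' hu'
  obtain ⟨σ, hσ, rfl⟩ := mem_image.mp hX1
  obtain ⟨τ, hτ, rfl⟩ := mem_image.mp hX2
  have h1 : agr σ τ = t - 1 := by rw [← card_gr_inter, hXX, hk]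
  by_cases hst : σ = τ
  · subst hst
    rw [inter_self] at hXX
    have h2 := card_le_card (inter_subset_left (s₁ := u) (s₂ := u'))
    rw [← hXX, card_gr, (hP u (hU' hu)).2.2.2] at h2
    omega
  · exact hav σ ((hP u (hU' hu)).1 hσ) τ ((hP u' (hU' hu')).1 hτ) hst h1

theorem fact_ratio {n M t : ℕ} (htM : t ≤ M) (hM : 2 * M ≤ n) :
    ((n - M)! : ℝ) * (n : ℝ) ^ (M - t) ≤ Real.exp M * ((n - t)! : ℝ) := by
  rcases Nat.eq_zero_or_pos n with h0 | h0
  · subst h0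
    have hM0 : M = 0 := by omega
    subst hM0
    have ht0 : t = 0 := by omega
    subst ht0
    simp
  have h1 : (n - M)! * (n - M) ^ (M - t) ≤ (n - t)! := by
    have h2 := Nat.factorial_mul_pow_le_factorial (m := n - M) (n := M - t)
    have h3 : n - M + (M - t) = n - t := by omega
    rw [h3] at h2
    exact (Nat.mul_le_mul_left _ (Nat.pow_le_pow_left (Nat.le_succ _) _)).trans h2
  have h1' : ((n - M)! : ℝ) * ((n : ℝ) - M) ^ (M - t) ≤ ((n - t)! : ℝ) := by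
    have : ((n - M : ℕ) : ℝ) = (n : ℝ) - M := by rw [Nat.cast_sub (by omega)]
    rw [← this]
    exact_mod_cast h1
  have hMr : 2 * (M : ℝ) ≤ n := by exact_mod_cast hM
  have hn0 : (0 : ℝ) < n := by exact_mod_cast h0
  have hpos : (0 : ℝ) < (n : ℝ) - M := by
    have : (0 : ℝ) ≤ M := Nat.cast_nonneg M
    linarith
  have h4 : (n : ℝ) ≤ ((n : ℝ) - M) * Real.exp (M / ((n : ℝ) - M)) := by
    have h5 := Real.add_one_le_exp (M / ((n : ℝ) - M))
    calc (n : ℝ) = ((n : ℝ) - M) * (M / ((n : ℝ) - M) + 1) := by field_simp; ring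
      _ ≤ _ := by gcongr
  have h5 : (n : ℝ) ^ (M - t) ≤ ((n : ℝ) - M) ^ (M - t) * Real.exp M := by
    calc (n : ℝ) ^ (M - t) ≤ (((n : ℝ) - M) * Real.exp (M / ((n : ℝ) - M))) ^ (M - t) := by gcongr
      _ = ((n : ℝ) - M) ^ (M - t) * Real.exp (((M - t : ℕ) : ℝ) * (M / ((n : ℝ) - M))) := by
          rw [mul_pow, ← Real.exp_nat_mul]
      _ ≤ ((n : ℝ) - M) ^ (M - t) * Real.exp M := by
          gcongr
          have h6 : ((M - t : ℕ) : ℝ) ≤ (n : ℝ) - M := by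
            have h7 : ((M - t : ℕ) : ℝ) ≤ M := by exact_mod_cast Nat.sub_le M t
            linarith
          rw [mul_div_assoc', div_le_iff₀ hpos]
          have h8 : (0 : ℝ) ≤ M := Nat.cast_nonneg M
          nlinarith
  calc ((n - M)! : ℝ) * (n : ℝ) ^ (M - t)
      ≤ ((n - M)! : ℝ) * (((n : ℝ) - M) ^ (M - t) * Real.exp M) := by gcongr
    _ = Real.exp M * (((n - M)! : ℝ) * ((n : ℝ) - M) ^ (M - t)) := by ring
    _ ≤ _ := by gcongr

theorem log_inv17 : Real.log (1 / (1 / 10 ^ 17 : ℝ)) ≤ 40 := by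
  rw [one_div_one_div, Real.log_pow]
  have h1 : Real.log 10 ≤ 2.35 := by
    have h2 : Real.log 10 = Real.log 2 + Real.log 5 := by
      rw [← Real.log_mul (by norm_num) (by norm_num)]; norm_num
    have h4 := Real.log_two_lt_d9
    have h5 : Real.log 5 ≤ 7 / 3 * Real.log 2 := by
      have h6 : (3 : ℝ) * Real.log 5 ≤ 7 * Real.log 2 := by
        have e1 : (3 : ℝ) * Real.log 5 = Real.log (5 ^ 3) := by rw [Real.log_pow]; norm_num
        have e2 : (7 : ℝ) * Real.log 2 = Real.log (2 ^ 7) := by rw [Real.log_pow]; norm_num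
        rw [e1, e2]
        exact Real.log_le_log (by norm_num) (by norm_num)
      linarith
    rw [h2]
    linarith
  push_cast
  linarith

theorem dl_num {n t m z : ℕ} (ht : 1 ≤ t) (hn : (10 : ℝ) ^ 80 ≤ n) (htn : (10 : ℝ) ^ 40 * t ≤ n)
    (hm : (m : ℝ) ≤ n / 10 ^ 17) (hz : z ≤ 5 * t) (htM : t ≤ m + z)
    (hB : ∀ x : ℝ, 0 < x → x ≤ 1 → (Bz n z : ℝ) ≤ Real.exp (z * Real.log (1 / x) + x * n)) :
    4 * (5 * t + 1) * (2 * 3 ^ (m + z) * (((m + z : ℕ) : ℝ) ^ 2 + ((m + z : ℕ) : ℝ) + 1) *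
      9 ^ (m + z) * ((2 ^ m * Bz n z : ℕ) : ℝ) ^ 2 * (n : ℝ) ^ (m + z - t)) * ((n - (m + z))! : ℝ) ≤
      Real.exp (n / 10 ^ 15) * ((n - t)! : ℝ) := by
  obtain ⟨E, hE⟩ : ∃ E : ℝ, (n : ℝ) = 10 ^ 17 * E := ⟨n / 10 ^ 17, by ring⟩
  obtain ⟨M, hMdef⟩ : ∃ M : ℕ, M = m + z := ⟨_, rfl⟩
  rw [← hMdef] at htM ⊢
  have ht1 : (1 : ℝ) ≤ t := by exact_mod_cast ht
  have hn0 : (0 : ℝ) < n := by linarith [show (0:ℝ) < 10 ^ 80 by positivity]
  have hE63 : (10 : ℝ) ^ 63 ≤ E := by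
    rw [hE] at hn
    have : (10 : ℝ) ^ 17 * 10 ^ 63 ≤ 10 ^ 17 * E := by
      calc (10 : ℝ) ^ 17 * 10 ^ 63 = 10 ^ 80 := by norm_num
        _ ≤ _ := hn
    exact le_of_mul_le_mul_left this (by positivity)
  have hE0 : (0 : ℝ) < E := by linarith [show (0:ℝ) < 10 ^ 63 by positivity]
  have hmE : (m : ℝ) ≤ E := by
    rw [hE, mul_div_assoc, mul_comm] at hm
    have : E / 10 ^ 17 * 10 ^ 17 = E := by field_simp
    linarith
  have htE : (t : ℝ) ≤ E / 10 ^ 23 := by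
    rw [hE] at htn
    rw [le_div_iff₀ (by positivity)]
    have : (10 : ℝ) ^ 17 * (t * 10 ^ 23) ≤ 10 ^ 17 * E := by
      calc (10 : ℝ) ^ 17 * (t * 10 ^ 23) = 10 ^ 40 * t := by ring
        _ ≤ _ := htn
    exact le_of_mul_le_mul_left this (by positivity)
  have hzE : (z : ℝ) ≤ 5 * (E / 10 ^ 23) := by
    have h1 : (z : ℝ) ≤ 5 * t := by exact_mod_cast hz
    linarith
  have hME : (M : ℝ) ≤ 1.001 * E := by
    have h1 : (M : ℝ) = m + z := by rw [hMdef]; push_cast; ring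
    rw [h1]
    have h2 : 5 * (E / 10 ^ 23) ≤ 0.001 * E := by
      rw [show 5 * (E / 10 ^ 23) = (5 / 10 ^ 23) * E by ring]
      gcongr
      norm_num
    linarith
  have hMn : (M : ℝ) ≤ n := by rw [hE]; nlinarith
  -- the four factors
  have hl2 := Real.log_two_lt_d9
  have f1 : ((2 ^ m * Bz n z : ℕ) : ℝ) ^ 2 ≤ Real.exp (4 * E) := by
    have h1 : (2 : ℝ) ^ m ≤ Real.exp (0.7 * E) := by
      calc (2 : ℝ) ^ m = Real.exp (m * Real.log 2) := by
            rw [Real.exp_nat_mul, Real.exp_log (by norm_num)]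
        _ ≤ Real.exp (0.7 * E) := by
            apply Real.exp_le_exp.mpr
            have h0 : (0 : ℝ) ≤ m := Nat.cast_nonneg m
            nlinarith
    have h2 : (Bz n z : ℝ) ≤ Real.exp (1.1 * E) := by
      refine (hB (1 / 10 ^ 17) (by positivity) (by norm_num)).trans (Real.exp_le_exp.mpr ?_)
      have h3 := log_inv17
      have h0 : (0 : ℝ) ≤ z := Nat.cast_nonneg z
      have h4 : (z : ℝ) * Real.log (1 / (1 / 10 ^ 17)) ≤ 5 * (E / 10 ^ 23) * 40 := by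
        have h5 : (0 : ℝ) ≤ 5 * (E / 10 ^ 23) := by positivity
        calc (z : ℝ) * Real.log (1 / (1 / 10 ^ 17)) ≤ z * 40 := by gcongr
          _ ≤ _ := by gcongr
      have h5 : 5 * (E / 10 ^ 23) * 40 ≤ 0.1 * E := by
        rw [show 5 * (E / 10 ^ 23) * 40 = (200 / 10 ^ 23) * E by ring]
        gcongr
        norm_num
      have h6 : 1 / 10 ^ 17 * (n : ℝ) = E := by rw [hE]; field_simp
      rw [h6]
      linarith
    have h3 : ((2 ^ m * Bz n z : ℕ) : ℝ) ≤ Real.exp (1.8 * E) := by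
      push_cast
      calc (2 : ℝ) ^ m * (Bz n z : ℝ) ≤ Real.exp (0.7 * E) * Real.exp (1.1 * E) := by gcongr
        _ = Real.exp (1.8 * E) := by rw [← Real.exp_add]; congr 1; ring
    calc ((2 ^ m * Bz n z : ℕ) : ℝ) ^ 2 ≤ Real.exp (1.8 * E) ^ 2 := by gcongr
      _ = Real.exp (2 * (1.8 * E)) := by rw [← Real.exp_nat_mul]; norm_num
      _ ≤ _ := by apply Real.exp_le_exp.mpr; linarith
  have f2 : (3 : ℝ) ^ M * 9 ^ M ≤ Real.exp (4 * E) := by
    have h1 : (27 : ℝ) ≤ Real.exp 3.5 := by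
      have h2 := Real.exp_one_gt_d9
      have h3 : (2.7 : ℝ) ^ 7 ≤ Real.exp 7 := by
        calc (2.7 : ℝ) ^ 7 ≤ Real.exp 1 ^ 7 := by gcongr; linarith
          _ = Real.exp 7 := by rw [← Real.exp_nat_mul]; norm_num
      have h4 : Real.exp 3.5 ^ 2 = Real.exp 7 := by rw [← Real.exp_nat_mul]; norm_num
      have h5 : (27 : ℝ) ^ 2 ≤ Real.exp 3.5 ^ 2 := by
        rw [h4]
        refine le_trans ?_ h3
        norm_num
      exact le_of_sq_le_sq h5 (by positivity)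
    calc (3 : ℝ) ^ M * 9 ^ M = 27 ^ M := by rw [← mul_pow]; norm_num
      _ ≤ Real.exp 3.5 ^ M := by gcongr
      _ = Real.exp (M * 3.5) := by rw [← Real.exp_nat_mul]
      _ ≤ _ := by apply Real.exp_le_exp.mpr; nlinarith
  have f3 : ((n - M)! : ℝ) * (n : ℝ) ^ (M - t) ≤ Real.exp (2 * E) * ((n - t)! : ℝ) := by
    have h1 : 2 * M ≤ n := by
      have : (2 : ℝ) * M ≤ n := by rw [hE]; nlinarith
      exact_mod_cast this
    refine (fact_ratio htM h1).trans ?_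
    gcongr
    linarith
  have f4 : 4 * (5 * (t : ℝ) + 1) * 2 * ((M : ℝ) ^ 2 + M + 1) ≤ Real.exp E := by
    have htn' : (t : ℝ) ≤ n := by
      rw [hE]
      have : E / 10 ^ 23 ≤ 10 ^ 17 * E := by
        rw [div_le_iff₀ (by positivity)]
        nlinarith
      linarith
    have hn1 : (1 : ℝ) ≤ n := by linarith [show (1:ℝ) ≤ 10 ^ 80 by norm_num]
    have hM0 : (0 : ℝ) ≤ M := Nat.cast_nonneg M
    have h1 : 4 * (5 * (t : ℝ) + 1) * 2 * ((M : ℝ) ^ 2 + M + 1) ≤ 48 * n * (3 * (n : ℝ) ^ 2) := by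
      have h2 : 4 * (5 * (t : ℝ) + 1) * 2 ≤ 48 * n := by linarith
      have h3 : (M : ℝ) ^ 2 + M + 1 ≤ 3 * (n : ℝ) ^ 2 := by nlinarith
      exact mul_le_mul h2 h3 (by positivity) (by positivity)
    refine h1.trans ?_
    have h5 := Real.pow_div_factorial_le_exp E hE0.le 5
    refine le_trans ?_ h5
    rw [hE, le_div_iff₀ (by positivity)]
    have h6 : ((5 ! : ℕ) : ℝ) = 120 := by norm_num [Nat.factorial]
    rw [h6]
    calc 48 * (10 ^ 17 * E) * (3 * (10 ^ 17 * E) ^ 2) * 120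
        = (17280 * 10 ^ 51) * E ^ 3 := by ring
      _ ≤ (10 ^ 63) ^ 2 * E ^ 3 := by gcongr; norm_num
      _ ≤ E ^ 2 * E ^ 3 := by gcongr
      _ = E ^ 5 := by ring
  calc 4 * (5 * (t : ℝ) + 1) * (2 * 3 ^ M * ((M : ℝ) ^ 2 + M + 1) *
      9 ^ M * ((2 ^ m * Bz n z : ℕ) : ℝ) ^ 2 * (n : ℝ) ^ (M - t)) * ((n - M)! : ℝ)
      = (4 * (5 * (t : ℝ) + 1) * 2 * ((M : ℝ) ^ 2 + M + 1)) * (3 ^ M * 9 ^ M) *
        ((2 ^ m * Bz n z : ℕ) : ℝ) ^ 2 * (((n - M)! : ℝ) * (n : ℝ) ^ (M - t)) := by ring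
    _ ≤ Real.exp E * Real.exp (4 * E) * Real.exp (4 * E) *
        (Real.exp (2 * E) * ((n - t)! : ℝ)) := by gcongr
    _ = Real.exp (11 * E) * ((n - t)! : ℝ) := by
        rw [← mul_assoc, ← Real.exp_add, ← Real.exp_add, ← Real.exp_add]
        congr 2
        ring
    _ ≤ Real.exp (n / 10 ^ 15) * ((n - t)! : ℝ) := by
        gcongr
        rw [hE, show 10 ^ 17 * E / 10 ^ 15 = 100 * E by ring]
        linarith

/-- Every large `(t-1)`-avoiding family has a dense link of size at most `n / 10^16`. -/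
theorem dense_link : ∃ C : ℕ, ∀ t n : ℕ, C ≤ t → C * t ≤ n → ∀ G : Finset (Perm (Fin n)),
    IsAvoiding t G → (n - 2 * t)! ≤ G.card →
    ∃ u : Finset (Fin n × Fin n), (u.card : ℝ) ≤ n / 10 ^ 16 ∧
      (G.card : ℝ) * ((n - u.card)! : ℝ) ≤
        Real.exp (n / 10 ^ 15) * ((G.filter fun σ => u ⊆ gr σ).card : ℝ) * ((n - t)! : ℝ) := by
  classical
  obtain ⟨L, k₀, hnt⟩ := nt
  obtain ⟨n₁, hufam⟩ := ufam
  obtain ⟨n₂, hgc⟩ := good_colour
  refine ⟨10 ^ 18 * (L + 1) + 10 ^ 40 + k₀ + 1 + n₁ + n₂, ?_⟩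
  intro t n hCt hCn G hav hG
  set C := 10 ^ 18 * (L + 1) + 10 ^ 40 + k₀ + 1 + n₁ + n₂ with hC
  have hC0 : 1 ≤ C := by omega
  have ht : 1 ≤ t := hC0.trans hCt
  have hCn2 : C ≤ n := (Nat.le_mul_of_pos_right C ht).trans hCn
  have hn1 : n₁ ≤ n := by omega
  have hn2 : n₂ ≤ n := by omega
  have hn0 : 1 ≤ n := hC0.trans hCn2
  have hC40 : 10 ^ 40 ≤ C := by omega
  have hk0 : k₀ ≤ t - 1 := by omega
  have hC18 : 10 ^ 18 * (L + 1) ≤ C := by omega
  clear_value C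
  have h40n : 10 ^ 40 * t ≤ n := (Nat.mul_le_mul_right t hC40).trans hCn
  have h80 : 10 ^ 80 ≤ n := by
    calc 10 ^ 80 = 10 ^ 40 * 10 ^ 40 := by norm_num
      _ ≤ 10 ^ 40 * t := Nat.mul_le_mul_left _ (hC40.trans hCt)
      _ ≤ n := h40n
  obtain ⟨m, hm⟩ : ∃ m : ℕ, m = n / 10 ^ 17 := ⟨_, rfl⟩
  have hm1 : 10 * ((L + 1) * t) ≤ m := by
    rw [hm, Nat.le_div_iff_mul_le (by norm_num)]
    calc 10 * ((L + 1) * t) * 10 ^ 17 = 10 ^ 18 * (L + 1) * t := by ring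
      _ ≤ C * t := Nat.mul_le_mul_right t hC18
      _ ≤ n := hCn
  have hm2 : m * 10 ^ 17 ≤ n := by rw [hm]; exact Nat.div_mul_le_self n _
  have hmt : t ≤ m := by nlinarith [Nat.zero_le (L * t)]
  have hmL : L * (t - 1) ≤ m := by
    have : L * (t - 1) ≤ L * t := Nat.mul_le_mul_left _ (Nat.sub_le _ _)
    nlinarith
  have hmn : m ≤ n := by omega
  obtain ⟨K, hK⟩ : ∃ K : Finset (Fin n), K.card = m := by
    obtain ⟨K, _, hK⟩ := exists_subset_card_eq (s := (univ : Finset (Fin n))) (n := m)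
      (by rw [Finset.card_univ, Fintype.card_fin]; exact hmn)
    exact ⟨K, hK⟩
  obtain ⟨P, D, hP, hGP⟩ := hufam n hn1 t m ht (by omega) (by omega) K hK G hG
  have hnR : (10 : ℝ) ^ 80 ≤ n := by exact_mod_cast h80
  have htR : (10 : ℝ) ^ 40 * t ≤ n := by exact_mod_cast h40n
  have hmR : (m : ℝ) ≤ n / 10 ^ 17 := by
    rw [le_div_iff₀ (by positivity)]
    exact_mod_cast hm2
  -- one size
  have hz : ∀ z ∈ range (5 * t + 1), 4 * (5 * (t : ℝ) + 1) *
      (((P.filter fun u => u.card = m + z).card : ℝ) * ((n - (m + z))! : ℝ)) ≤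
      Real.exp (n / 10 ^ 15) * ((n - t)! : ℝ) := by
    intro z hz
    have hz5 : z ≤ 5 * t := by rw [mem_range] at hz; omega
    obtain ⟨U', hPU, hU'⟩ := piece_uni hgc (n := n) (t := t) (m := m) (z := z) hn2 hn0
      (by omega) K hK G hav (P.filter fun u => u.card = m + z) D (fun u hu => by
        rw [mem_filter] at hu
        have h1 := hP u hu.1
        exact ⟨h1.1, h1.2.1, h1.2.2.1, hu.2⟩)
    have hBz : 1 ≤ Bz n z := by
      unfold Bz
      calc 1 = n.choose 0 := by simp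
        _ ≤ _ := single_le_sum (f := fun i => n.choose i) (fun _ _ => Nat.zero_le _)
          (mem_range.mpr (by omega))
    have hB1 : (1 : ℝ) ≤ ((2 ^ m * Bz n z : ℕ) : ℝ) := by
      have : 1 ≤ 2 ^ m * Bz n z := Nat.one_le_iff_ne_zero.mpr (by positivity)
      exact_mod_cast this
    have huc := uni_card hU' hB1 hn0 (by omega) (hnt (t - 1) hk0 (m + z) (by omega))
    have he : m + z - (t - 1) - 1 = m + z - t := by omega
    rw [he] at huc
    have hnum := dl_num (n := n) (t := t) (m := m) (z := z) ht hnR htR hmR hz5 (by omega)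
      (cnt (n := n) (m := m) (z := z) hn0 K hK ∅ (by simp)).2.2
    refine le_trans ?_ hnum
    rw [← mul_assoc]
    refine mul_le_mul_of_nonneg_right ?_ (by positivity)
    refine mul_le_mul_of_nonneg_left ?_ (by positivity)
    refine hPU.trans ?_
    refine (mul_le_mul_of_nonneg_left huc (by positivity)).trans (le_of_eq ?_)
    ring
  by_contra hno
  push Not at hno
  have hGpos : 0 < G.card := lt_of_lt_of_le (Nat.factorial_pos _) hG
  have hGR : (0 : ℝ) < G.card := by exact_mod_cast hGpos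
  have hPne : P.Nonempty := by
    rw [nonempty_iff_ne_empty]
    intro h0
    rw [h0, sum_empty] at hGP
    omega
  have hlt : Real.exp (n / 10 ^ 15) * ((n - t)! : ℝ) < 4 * ∑ u ∈ P, ((n - u.card)! : ℝ) := by
    have h1 : ∀ u ∈ P, Real.exp (n / 10 ^ 15) * ((D u).card : ℝ) * ((n - t)! : ℝ) <
        (G.card : ℝ) * ((n - u.card)! : ℝ) := by
      intro u hu
      obtain ⟨hD, hPc, _, _, hu5⟩ := hP u hu
      have h2 : (u.card : ℝ) ≤ n / 10 ^ 16 := by
        rw [le_div_iff₀ (by positivity)]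
        have h2a : u.card * 10 ^ 16 ≤ (m + 5 * t) * 10 ^ 16 := Nat.mul_le_mul_right _ hu5
        have h2b : (m + 5 * t) * 10 ^ 16 ≤ n := by
          clear h2a h80 hnR htR hmR
          linarith
        have h2c : u.card * 10 ^ 16 ≤ n := h2a.trans h2b
        exact_mod_cast h2c
      refine lt_of_le_of_lt ?_ (hno u h2)
      have h3 : D u ⊆ G.filter fun σ => u ⊆ gr σ := by
        intro σ hσ
        rw [mem_filter]
        exact ⟨hD hσ, hPc.st σ hσ⟩
      have h4 : ((D u).card : ℝ) ≤ ((G.filter fun σ => u ⊆ gr σ).card : ℝ) := by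
        exact_mod_cast card_le_card h3
      gcongr
    have h5 : (G.card : ℝ) ≤ 4 * ∑ u ∈ P, ((D u).card : ℝ) := by exact_mod_cast hGP
    have h6 : Real.exp (n / 10 ^ 15) * ((n - t)! : ℝ) * G.card <
        4 * ∑ u ∈ P, ((n - u.card)! : ℝ) * G.card := by
      calc Real.exp (n / 10 ^ 15) * ((n - t)! : ℝ) * G.card
          ≤ Real.exp (n / 10 ^ 15) * ((n - t)! : ℝ) * (4 * ∑ u ∈ P, ((D u).card : ℝ)) := by gcongr
        _ = 4 * ∑ u ∈ P, Real.exp (n / 10 ^ 15) * ((D u).card : ℝ) * ((n - t)! : ℝ) := by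
            rw [mul_sum, mul_sum, mul_sum]
            exact sum_congr rfl fun u _ => by ring
        _ < 4 * ∑ u ∈ P, ((n - u.card)! : ℝ) * G.card := by
            refine mul_lt_mul_of_pos_left (sum_lt_sum_of_nonempty hPne fun u hu => ?_) (by norm_num)
            rw [mul_comm (((n - u.card)! : ℕ) : ℝ)]
            exact h1 u hu
    rw [← sum_mul, ← mul_assoc] at h6
    exact lt_of_mul_lt_mul_right h6 hGR.le
  have hsum : ∑ u ∈ P, ((n - u.card)! : ℝ) =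
      ∑ z ∈ range (5 * t + 1), ((P.filter fun u => u.card = m + z).card : ℝ) *
        ((n - (m + z))! : ℝ) := by
    have h1 : ∀ u ∈ P, u.card - m ∈ range (5 * t + 1) := by
      intro u hu
      have := (hP u hu).2.2.2
      rw [mem_range]
      omega
    rw [← sum_fiberwise_of_maps_to h1]
    refine sum_congr rfl fun z hz => ?_
    have h2 : (P.filter fun u => u.card - m = z) = P.filter fun u => u.card = m + z := by
      refine filter_congr fun u hu => ?_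
      have := (hP u hu).2.2.2
      omega
    rw [h2, ← nsmul_eq_mul, ← sum_const]
    refine sum_congr rfl fun u hu => ?_
    rw [(mem_filter.mp hu).2]
  rw [hsum, mul_sum] at hlt
  have h7 : (5 * (t : ℝ) + 1) * (∑ z ∈ range (5 * t + 1),
      4 * (((P.filter fun u => u.card = m + z).card : ℝ) * ((n - (m + z))! : ℝ))) ≤
      (5 * (t : ℝ) + 1) * (Real.exp (n / 10 ^ 15) * ((n - t)! : ℝ)) := by
    rw [mul_sum]
    have h8 : ∑ z ∈ range (5 * t + 1), (5 * (t : ℝ) + 1) *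
        (4 * (((P.filter fun u => u.card = m + z).card : ℝ) * ((n - (m + z))! : ℝ))) ≤
        ∑ z ∈ range (5 * t + 1), Real.exp (n / 10 ^ 15) * ((n - t)! : ℝ) := by
      refine sum_le_sum fun z hz' => ?_
      refine le_trans (le_of_eq ?_) (hz z hz')
      ring
    refine h8.trans (le_of_eq ?_)
    rw [sum_const, card_range, nsmul_eq_mul]
    push_cast
    ring
  have h8 := le_of_mul_le_mul_left h7 (by positivity)
  exact absurd hlt (not_lt.mpr h8)

end Pool.Agent.CL24
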