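import Pool.Agent.CL24.Base

/-!
# CL24/Dec: greedy decomposition into spread pieces (module 8, helper74)
-/

set_option autoImplicit false

namespace Pool.Agent.CL24

open Finset Equiv Nat Pool.Agent.H17.PermInt Pool.Agent.FI37

/-- one greedy step: a piece of `A'` which is spread outside `u` and of relative density at least `r ^ (-#(u \ v))` -/
private theorem piece {n : ℕ} {r : ℝ} (hr : 1 ≤ r) (v : Finset (Fin n × Fin n))
    (A' : Finset (Perm (Fin n))) (hA : InSt v A') (hne : A'.Nonempty) :
    ∃ u : Finset (Fin n × Fin n), v ⊆ u ∧ Pc r u (A'.filter fun σ => u ⊆ gr σ) ∧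
      (A'.card : ℝ) ≤ r ^ (u \ v).card * ((A'.filter fun σ => u ⊆ gr σ).card : ℝ) := by
  classical
  have hr0 : 0 < r := by linarith
  set C : Finset (Finset (Fin n × Fin n)) := univ.filter fun u => v ⊆ u ∧
    (A'.filter fun σ => u ⊆ gr σ).Nonempty ∧
      (A'.card : ℝ) ≤ r ^ (u \ v).card * ((A'.filter fun σ => u ⊆ gr σ).card : ℝ) with hC
  have hv : v ∈ C := by
    have h1 : (A'.filter fun σ => v ⊆ gr σ) = A' := by
      rw [Finset.filter_eq_self]
      exact hA
    rw [hC, mem_filter, h1]
    refine ⟨mem_univ _, Finset.Subset.refl v, hne, ?_⟩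
    simp
  obtain ⟨u, huC, hmax⟩ := Finset.exists_max_image C Finset.card ⟨v, hv⟩
  rw [hC, mem_filter] at huC
  obtain ⟨_, hvu, hu1, hu2⟩ := huC
  refine ⟨u, hvu, ⟨hu1, fun σ hσ => (mem_filter.1 hσ).2, ?_⟩, hu2⟩
  intro S hS
  rcases S.eq_empty_or_nonempty with rfl | hSne
  · simp
  have hfil : ((A'.filter fun σ => u ⊆ gr σ).filter fun σ => S ⊆ gr σ) =
      A'.filter fun σ => u ∪ S ⊆ gr σ := by
    rw [Finset.filter_filter]
    refine Finset.filter_congr fun σ _ => ?_
    rw [Finset.union_subset_iff]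
  rw [hfil]
  rcases (A'.filter fun σ => u ∪ S ⊆ gr σ).eq_empty_or_nonempty with he | hne'
  · rw [he]
    simp
  have hcard : (u ∪ S).card = u.card + S.card := Finset.card_union_of_disjoint hS.symm
  have hnot : u ∪ S ∉ C := by
    intro h
    have h1 := hmax _ h
    have h2 := hSne.card_pos
    omega
  have hlt : r ^ ((u ∪ S) \ v).card * ((A'.filter fun σ => u ∪ S ⊆ gr σ).card : ℝ) <
      (A'.card : ℝ) := by
    by_contra hcon
    rw [not_lt] at hcon
    exact hnot (by
      rw [hC, mem_filter]
      exact ⟨mem_univ _, hvu.trans subset_union_left, hne', hcon⟩)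
  have hsd : ((u ∪ S) \ v).card = (u \ v).card + S.card := by
    have hSv : Disjoint S v := Finset.disjoint_of_subset_right hvu hS
    rw [Finset.union_sdiff_distrib, Finset.sdiff_eq_self_of_disjoint hSv,
      Finset.card_union_of_disjoint]
    exact Finset.disjoint_of_subset_left sdiff_subset hS.symm
  rw [hsd, pow_add] at hlt
  have h3 : r ^ (u \ v).card * (((A'.filter fun σ => u ∪ S ⊆ gr σ).card : ℝ) * r ^ S.card) ≤
      r ^ (u \ v).card * ((A'.filter fun σ => u ⊆ gr σ).card : ℝ) := by
    refine le_trans (le_of_eq ?_) (hlt.le.trans hu2)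
    ring
  exact le_of_mul_le_mul_left h3 (by positivity)

private theorem greedy {n : ℕ} {r : ℝ} (hr : 1 ≤ r) (v : Finset (Fin n × Fin n)) (N : ℕ) :
    ∀ (k : ℕ) (A' : Finset (Perm (Fin n))), A'.card ≤ k → InSt v A' →
    ∃ (P : Finset (Finset (Fin n × Fin n)))
      (D : Finset (Fin n × Fin n) → Finset (Perm (Fin n))),
      (∀ u ∈ P, v ⊆ u ∧ D u ⊆ A' ∧ Pc r u (D u) ∧
        (N : ℝ) ≤ 2 * r ^ (u \ v).card * (D u).card) ∧
      2 * A'.card ≤ N + 2 * ∑ u ∈ P, (D u).card := by
  classical
  intro k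
  induction k with
  | zero =>
    intro A' hk _
    refine ⟨∅, fun _ => ∅, fun u hu => absurd hu (notMem_empty _), ?_⟩
    omega
  | succ k ih =>
    intro A' hk hA
    rcases Nat.lt_or_ge N (2 * A'.card) with hlt | hge
    · have hne : A'.Nonempty := by
        rw [← Finset.card_pos]
        omega
      obtain ⟨u, hvu, hPc, hd⟩ := piece hr v A' hA hne
      set E := A'.filter fun σ => u ⊆ gr σ with hE
      have hEsub : E ⊆ A' := Finset.filter_subset _ _
      have hEpos : 0 < E.card := hPc.ne.card_pos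
      have hsd : (A' \ E).card + E.card = A'.card := Finset.card_sdiff_add_card_eq_card hEsub
      obtain ⟨P, D, h1, h2⟩ := ih (A' \ E) (by omega) fun σ hσ => hA σ (mem_sdiff.1 hσ).1
      have huP : u ∉ P := by
        intro hu
        obtain ⟨_, hD, hPc', _⟩ := h1 u hu
        obtain ⟨σ, hσ⟩ := hPc'.ne
        have h3 := hD hσ
        rw [mem_sdiff] at h3
        exact h3.2 (by
          rw [hE, mem_filter]
          exact ⟨h3.1, hPc'.st σ hσ⟩)
      refine ⟨insert u P, Function.update D u E, ?_, ?_⟩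
      · intro w hw
        rcases Finset.mem_insert.1 hw with rfl | hwP
        · rw [Function.update_self]
          refine ⟨hvu, hEsub, hPc, ?_⟩
          have h4 : (N : ℝ) ≤ 2 * A'.card := by exact_mod_cast hlt.le
          linarith
        · have hne' : w ≠ u := by
            rintro rfl
            exact huP hwP
          rw [Function.update_of_ne hne']
          obtain ⟨a, b, c, d⟩ := h1 w hwP
          exact ⟨a, b.trans sdiff_subset, c, d⟩
      · rw [Finset.sum_insert huP, Function.update_self]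
        have h5 : ∑ w ∈ P, (Function.update D u E w).card = ∑ w ∈ P, (D w).card := by
          refine Finset.sum_congr rfl fun w hw => ?_
          rw [Function.update_of_ne]
          rintro rfl
          exact huP hw
        rw [h5]
        omega
    · refine ⟨∅, fun _ => ∅, fun u hu => absurd hu (notMem_empty _), ?_⟩
      omega

theorem decomp {n : ℕ} {r : ℝ} (hr : 1 ≤ r) (v : Finset (Fin n × Fin n))
    (A : Finset (Perm (Fin n))) (hA : InSt v A) :
    ∃ (P : Finset (Finset (Fin n × Fin n)))
      (D : Finset (Fin n × Fin n) → Finset (Perm (Fin n))),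
      (∀ u ∈ P, v ⊆ u ∧ D u ⊆ A ∧ Pc r u (D u) ∧
        (A.card : ℝ) ≤ 2 * r ^ (u \ v).card * (D u).card) ∧
      A.card ≤ 2 * ∑ u ∈ P, (D u).card := by
  obtain ⟨P, D, h1, h2⟩ := greedy hr v A.card A.card A le_rfl hA
  exact ⟨P, D, h1, by omega⟩

end Pool.Agent.CL24
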