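import Pool.Agent.CL24.EECore
import Pool.Agent.CL24.CS

/-!
# CL24/EE: uniform families without the intersection `k` are small (helper95)
-/

set_option autoImplicit false

namespace Pool.Agent.CL24

open Finset Equiv Nat Pool.Agent.H17.PermInt Pool.Agent.FI37

theorem uni_card {Ω : Type*} [Fintype Ω] [DecidableEq Ω] {U : Finset (Finset Ω)} {M k n : ℕ}
    {B : ℝ} (h : Uni U M k n B) (hB : 1 ≤ B) (hn : 1 ≤ n) (hk : k < M)
    (hS : k + 1 ≤ (skip k M).card) :
    (U.card : ℝ) ≤ (M ^ 2 + M + 1) * 9 ^ M * B ^ 2 * (n : ℝ) ^ (M - k - 1) :=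
  uni_card_core (fun C L h1 h2 => fw C L h1 h2)
    (fun h hB hp hkp hM => badstep h hB hp hkp hM) h hB hn hk hS

end Pool.Agent.CL24
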