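import Pool.Agent.CL24.Base

/-!
# CL24/EECore: uniform families without the intersection `k` are small (helper95)

The combination of the linear algebra bound `fw` and of `badstep`, both taken as hypotheses here.
-/

set_option autoImplicit false

namespace Pool.Agent.CL24

open Finset Equiv Nat Pool.Agent.H17.PermInt Pool.Agent.FI37

theorem Uni.sub {Ω : Type*} [DecidableEq Ω] {U V : Finset (Finset Ω)} {M k s n : ℕ} {B : ℝ}
    (h : Uni U M k n B) (hVU : V ⊆ U) (hs : ∀ u ∈ V, ∀ u' ∈ V, u ≠ u' → (u ∩ u').card ≠ s) :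
    Uni V M s n B where
  card := fun u hu => h.card u (hVU hu)
  avoid := hs
  faces := fun j => by
    refine le_trans ?_ (h.faces j)
    exact_mod_cast Finset.card_le_card (dn_mono hVU le_rfl)
  thru := fun c hc => by
    refine le_trans ?_ (h.thru c hc)
    exact_mod_cast Finset.card_le_card (Finset.filter_subset_filter _ hVU)

/-- the members of `U` which meet another member of `U` in exactly `s` points -/
private def bad {Ω : Type*} [DecidableEq Ω] (U : Finset (Finset Ω)) (s : ℕ) : Finset (Finset Ω) :=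
  U.filter fun u => ∃ u' ∈ U, u' ≠ u ∧ (u ∩ u').card = s

private theorem skip_sub (k M : ℕ) : skip k M ⊆ range M := by
  classical
  unfold skip
  exact Finset.filter_subset _ _

private theorem mem_skip {k M s : ℕ} : s ∈ skip k M ↔ s < M ∧
    ∃ p₁ p₂ : ℕ, p₁.Prime ∧ p₂.Prime ∧ k < p₁ ∧ k + p₁ < p₂ ∧ s = k + p₁ + p₂ := by
  classical
  unfold skip
  rw [Finset.mem_filter, Finset.mem_range]

theorem uni_card_core {Ω : Type*} [Fintype Ω] [DecidableEq Ω]
    (hfw : ∀ (C : Finset (Finset Ω)) (L : Finset ℚ),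
      (∀ c ∈ C, ∀ c' ∈ C, c ≠ c' → (((c ∩ c').card : ℕ) : ℚ) ∈ L) →
      (∀ c ∈ C, ((c.card : ℕ) : ℚ) ∉ L) → C.card ≤ (dn C L.card).card)
    (hbad : ∀ {U : Finset (Finset Ω)} {M k n p : ℕ} {B : ℝ}, Uni U M k n B → 0 ≤ B → p.Prime →
      k < p → k + p < M →
      ((U.filter fun u => ∃ u' ∈ U, u' ≠ u ∧ (u ∩ u').card = k + p).card : ℝ) ≤
        9 ^ M * B ^ 2 * (n : ℝ) ^ (M - k - 1))
    {U : Finset (Finset Ω)} {M k n : ℕ}
    {B : ℝ} (h : Uni U M k n B) (hB : 1 ≤ B) (hn : 1 ≤ n) (hk : k < M)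
    (hS : k + 1 ≤ (skip k M).card) :
    (U.card : ℝ) ≤ (M ^ 2 + M + 1) * 9 ^ M * B ^ 2 * (n : ℝ) ^ (M - k - 1) := by
  classical
  have hB0 : 0 ≤ B := by linarith
  have hn1 : (1 : ℝ) ≤ n := by exact_mod_cast hn
  set X : ℝ := 9 ^ M * B ^ 2 * (n : ℝ) ^ (M - k - 1) with hX
  have hX0 : 0 ≤ X := by positivity
  -- the primes of the first kind
  set P₁ : Finset ℕ := (range M).filter fun p => p.Prime ∧ k < p ∧ k + p < M with hP₁
  have hP₁c : (P₁.card : ℝ) ≤ M := by
    have := (Finset.card_filter_le (range M) fun p => p.Prime ∧ k < p ∧ k + p < M)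
    rw [Finset.card_range] at this
    exact_mod_cast this
  set U₁ : Finset (Finset Ω) := U \ P₁.biUnion fun p => bad U (k + p) with hU₁
  have hU₁U : U₁ ⊆ U := Finset.sdiff_subset
  have hc₁ : ((U \ U₁).card : ℝ) ≤ M * X := by
    have h1 : U \ U₁ ⊆ P₁.biUnion fun p => bad U (k + p) := by
      intro u hu
      rw [hU₁, Finset.mem_sdiff, Finset.mem_sdiff] at hu
      by_contra hcon
      exact hu.2 ⟨hu.1, hcon⟩
    calc ((U \ U₁).card : ℝ) ≤ ((P₁.biUnion fun p => bad U (k + p)).card : ℝ) := by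
          exact_mod_cast Finset.card_le_card h1
      _ ≤ ((∑ p ∈ P₁, (bad U (k + p)).card : ℕ) : ℝ) := by
          exact_mod_cast Finset.card_biUnion_le
      _ = ∑ p ∈ P₁, ((bad U (k + p)).card : ℝ) := by push_cast; rfl
      _ ≤ ∑ _p ∈ P₁, X := by
          refine Finset.sum_le_sum fun p hp => ?_
          rw [hP₁, Finset.mem_filter] at hp
          exact hbad h hB0 hp.2.1 hp.2.2.1 hp.2.2.2
      _ = P₁.card * X := by rw [Finset.sum_const, nsmul_eq_mul]
      _ ≤ M * X := mul_le_mul_of_nonneg_right hP₁c hX0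
  have hav₁ : ∀ p ∈ P₁, Uni U₁ M (k + p) n B := by
    intro p hp
    refine h.sub hU₁U fun u hu u' hu' hne hcard => ?_
    rw [hU₁, Finset.mem_sdiff] at hu
    refine hu.2 (Finset.mem_biUnion.2 ⟨p, hp, ?_⟩)
    exact Finset.mem_filter.2 ⟨hu.1, u', hU₁U hu', hne.symm, hcard⟩
  -- the primes of the second kind
  set P₂ : Finset (ℕ × ℕ) := (P₁ ×ˢ range M).filter fun p =>
    p.2.Prime ∧ k + p.1 < p.2 ∧ k + p.1 + p.2 < M with hP₂
  have hP₂c : (P₂.card : ℝ) ≤ (M : ℝ) ^ 2 := by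
    have h1 : P₂.card ≤ P₁.card * M := by
      refine (Finset.card_filter_le _ _).trans ?_
      rw [Finset.card_product, Finset.card_range]
    calc (P₂.card : ℝ) ≤ (P₁.card : ℝ) * M := by exact_mod_cast h1
      _ ≤ M * M := mul_le_mul_of_nonneg_right hP₁c (Nat.cast_nonneg M)
      _ = (M : ℝ) ^ 2 := by ring
  set U₂ : Finset (Finset Ω) := U₁ \ P₂.biUnion fun p => bad U₁ (k + p.1 + p.2) with hU₂
  have hU₂U : U₂ ⊆ U₁ := Finset.sdiff_subset
  have hc₂ : ((U₁ \ U₂).card : ℝ) ≤ (M : ℝ) ^ 2 * X := by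
    have h1 : U₁ \ U₂ ⊆ P₂.biUnion fun p => bad U₁ (k + p.1 + p.2) := by
      intro u hu
      have hu' := Finset.mem_sdiff.1 hu
      by_contra hcon
      refine hu'.2 ?_
      rw [hU₂]
      exact Finset.mem_sdiff.2 ⟨hu'.1, hcon⟩
    calc ((U₁ \ U₂).card : ℝ) ≤ ((P₂.biUnion fun p => bad U₁ (k + p.1 + p.2)).card : ℝ) := by
          exact_mod_cast Finset.card_le_card h1
      _ ≤ ((∑ p ∈ P₂, (bad U₁ (k + p.1 + p.2)).card : ℕ) : ℝ) := by
          exact_mod_cast Finset.card_biUnion_le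
      _ = ∑ p ∈ P₂, ((bad U₁ (k + p.1 + p.2)).card : ℝ) := by push_cast; rfl
      _ ≤ ∑ _p ∈ P₂, X := by
          refine Finset.sum_le_sum fun p hp => ?_
          rw [hP₂, Finset.mem_filter, Finset.mem_product] at hp
          have h2 := hbad (hav₁ p.1 hp.1.1) hB0 hp.2.1 hp.2.2.1 hp.2.2.2
          refine le_trans h2 ?_
          rw [hX]
          refine mul_le_mul_of_nonneg_left ?_ (by positivity)
          exact pow_le_pow_right₀ hn1 (by omega)
      _ = P₂.card * X := by rw [Finset.sum_const, nsmul_eq_mul]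
      _ ≤ (M : ℝ) ^ 2 * X := mul_le_mul_of_nonneg_right hP₂c hX0
  have hav₂ : ∀ u ∈ U₂, ∀ u' ∈ U₂, u ≠ u' → (u ∩ u').card ∉ skip k M := by
    intro u hu u' hu' hne hcard
    obtain ⟨hlt, p₁, p₂, h1, h2, h3, h4, h5⟩ := mem_skip.1 hcard
    rw [hU₂, Finset.mem_sdiff] at hu
    refine hu.2 (Finset.mem_biUnion.2 ⟨(p₁, p₂), ?_, ?_⟩)
    · rw [hP₂, Finset.mem_filter, Finset.mem_product, hP₁, Finset.mem_filter, Finset.mem_range,
        Finset.mem_range]
      refine ⟨⟨⟨by omega, h1, h3, by omega⟩, by dsimp only; omega⟩, h2, h4, by dsimp only; omega⟩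
    · exact Finset.mem_filter.2 ⟨hu.1, u', hU₂U hu', hne.symm, h5⟩
  -- Frankl-Wilson over the rationals
  have hc₃ : (U₂.card : ℝ) ≤ X := by
    set L : Finset ℚ := (range M \ skip k M).image (fun s : ℕ => (s : ℚ)) with hL
    have hLc : L.card ≤ M - k - 1 := by
      refine Finset.card_image_le.trans ?_
      rw [Finset.card_sdiff_of_subset (skip_sub k M), Finset.card_range]
      omega
    have hcard : ∀ u ∈ U₂, u.card = M := fun u hu => h.card u (hU₁U (hU₂U hu))
    have h1 : ∀ c ∈ U₂, ∀ c' ∈ U₂, c ≠ c' → (((c ∩ c').card : ℕ) : ℚ) ∈ L := by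
      intro c hc c' hc' hne
      rw [hL, Finset.mem_image]
      refine ⟨(c ∩ c').card, ?_, rfl⟩
      rw [Finset.mem_sdiff, Finset.mem_range]
      refine ⟨?_, hav₂ c hc c' hc' hne⟩
      rw [← hcard c hc]
      refine Finset.card_lt_card (Finset.ssubset_iff_subset_ne.2 ⟨Finset.inter_subset_left, ?_⟩)
      intro he
      apply hne
      refine Finset.eq_of_subset_of_card_le (Finset.inter_eq_left.1 he) ?_
      rw [hcard c hc, hcard c' hc']
    have h2 : ∀ c ∈ U₂, ((c.card : ℕ) : ℚ) ∉ L := by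
      intro c hc hmem
      rw [hL, Finset.mem_image] at hmem
      obtain ⟨s, hs, he⟩ := hmem
      rw [Finset.mem_sdiff, Finset.mem_range] at hs
      have : s = c.card := by exact_mod_cast he
      rw [this, hcard c hc] at hs
      exact lt_irrefl _ hs.1
    have h3 := hfw U₂ L h1 h2
    have h4 : ((dn U₂ L.card).card : ℝ) ≤ B * (n : ℝ) ^ L.card := by
      refine le_trans ?_ (h.faces L.card)
      exact_mod_cast Finset.card_le_card (dn_mono (hU₂U.trans hU₁U) le_rfl)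
    calc (U₂.card : ℝ) ≤ ((dn U₂ L.card).card : ℝ) := by exact_mod_cast h3
      _ ≤ B * (n : ℝ) ^ L.card := h4
      _ ≤ B * (n : ℝ) ^ (M - k - 1) :=
          mul_le_mul_of_nonneg_left (pow_le_pow_right₀ hn1 hLc) hB0
      _ ≤ (9 ^ M * B ^ 2) * (n : ℝ) ^ (M - k - 1) := by
          refine mul_le_mul_of_nonneg_right ?_ (by positivity)
          have h5 : (1 : ℝ) ≤ 9 ^ M := one_le_pow₀ (by norm_num)
          nlinarith [sq_nonneg B, mul_le_mul h5 (le_refl (B ^ 2)) (sq_nonneg B) (by positivity)]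
      _ = X := by rw [hX]
  -- the sum
  have e1 : (U.card : ℝ) = ((U \ U₁).card : ℝ) + (U₁.card : ℝ) := by
    exact_mod_cast (Finset.card_sdiff_add_card_eq_card hU₁U).symm
  have e2 : (U₁.card : ℝ) = ((U₁ \ U₂).card : ℝ) + (U₂.card : ℝ) := by
    exact_mod_cast (Finset.card_sdiff_add_card_eq_card hU₂U).symm
  calc (U.card : ℝ) = ((U \ U₁).card : ℝ) + (((U₁ \ U₂).card : ℝ) + (U₂.card : ℝ)) := by
        rw [e1, e2]
    _ ≤ M * X + ((M : ℝ) ^ 2 * X + X) := add_le_add hc₁ (add_le_add hc₂ hc₃)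
    _ = (M ^ 2 + M + 1) * 9 ^ M * B ^ 2 * (n : ℝ) ^ (M - k - 1) := by rw [hX]; ring

end Pool.Agent.CL24
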