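import Pool.Agent.CL24.Base

set_option autoImplicit false

/-!
# Forbidden intersections of permutations, `n ≥ C t` (MP_ee287f_co): projection of a family
-/

namespace Pool.Agent.CL24

open Finset Equiv Nat Pool.Agent.H17.PermInt Pool.Agent.FI37

namespace End1

variable {n : ℕ}

theorem rs_union (S B : Finset (Fin n)) (σ : Perm (Fin n)) :
    rs (S ∪ B) σ = rs S σ ∪ rs B σ := by
  ext q
  simp only [mem_rs, mem_union]
  tauto

theorem img_union (A : Finset (Perm (Fin n))) (S B : Finset (Fin n)) :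
    (A.image (rs (S ∪ B))).card ≤ (A.image (rs S)).card * (A.image (rs B)).card := by
  rw [← card_product]
  refine (card_le_card (t := ((A.image (rs S)) ×ˢ (A.image (rs B))).image
    fun p => p.1 ∪ p.2) ?_).trans card_image_le
  intro w hw
  obtain ⟨σ, hσ, rfl⟩ := mem_image.1 hw
  refine mem_image.2 ⟨(rs S σ, rs B σ), ?_, (rs_union S B σ).symm⟩
  exact mem_product.2 ⟨mem_image_of_mem _ hσ, mem_image_of_mem _ hσ⟩

theorem img_le_one (A : Finset (Perm (Fin n))) : (A.image (rs ∅)).card ≤ 1 := by
  rw [card_le_one]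
  intro a ha b hb
  obtain ⟨σ, -, rfl⟩ := mem_image.1 ha
  obtain ⟨τ, -, rfl⟩ := mem_image.1 hb
  ext q
  simp [mem_rs]

theorem img_single (A : Finset (Perm (Fin n))) (i : Fin n) : (A.image (rs {i})).card ≤ n := by
  have h : A.image (rs {i}) ⊆ (univ : Finset (Fin n)).image fun j => ({(i, j)} : Finset _) := by
    intro w hw
    obtain ⟨σ, -, rfl⟩ := mem_image.1 hw
    refine mem_image.2 ⟨σ i, mem_univ _, ?_⟩
    ext ⟨a, b⟩
    simp only [mem_singleton, Prod.mk.injEq, mem_rs]
    constructor
    · rintro ⟨rfl, rfl⟩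
      exact ⟨rfl, rfl⟩
    · rintro ⟨h, rfl⟩
      exact ⟨rfl, h.symm⟩
  calc (A.image (rs {i})).card ≤ _ := card_le_card h
    _ ≤ (univ : Finset (Fin n)).card := card_image_le
    _ = n := by simp

theorem img_le_pow (A : Finset (Perm (Fin n))) (S : Finset (Fin n)) :
    (A.image (rs S)).card ≤ n ^ S.card := by
  induction S using Finset.induction_on with
  | empty => simpa using img_le_one A
  | insert a S ha ih =>
    rw [insert_eq, card_union_of_disjoint (by simpa using ha), card_singleton, pow_add, pow_one]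
    exact (img_union A {a} S).trans (Nat.mul_le_mul (img_single A a) ih)

theorem img_univ (A : Finset (Perm (Fin n))) : (A.image (rs univ)).card = A.card := by
  refine card_image_of_injective _ fun σ τ h => ?_
  ext i
  have h1 : (i, σ i) ∈ rs univ σ := by simp [mem_rs]
  rw [h, mem_rs] at h1
  exact congrArg Fin.val h1.1.symm

theorem img_rows {A : Finset (Perm (Fin n))} {u : Finset (Fin n × Fin n)} (hA : InSt u A) :
    (A.image (rs (u.image Prod.fst))).card ≤ 1 := by
  have key : ∀ σ ∈ A, rs (u.image Prod.fst) σ = u := by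
    intro σ hσ
    ext ⟨a, b⟩
    simp only [mem_rs, mem_image, Prod.exists, exists_and_right, exists_eq_right]
    constructor
    · rintro ⟨rfl, c, hc⟩
      have := mem_gr.1 (hA σ hσ hc)
      simp only at this
      rwa [this]
    · intro h
      exact ⟨mem_gr.1 (hA σ hσ h), b, h⟩
  rw [card_le_one]
  intro a ha b hb
  obtain ⟨σ, hσ, rfl⟩ := mem_image.1 ha
  obtain ⟨τ, hτ, rfl⟩ := mem_image.1 hb
  rw [key σ hσ, key τ hτ]

theorem card_rows {A : Finset (Perm (Fin n))} {u : Finset (Fin n × Fin n)} (hA : InSt u A)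
    (hne : A.Nonempty) : (u.image Prod.fst).card = u.card := by
  obtain ⟨σ, hσ⟩ := hne
  refine card_image_of_injOn fun p hp q hq h => ?_
  have h1 := mem_gr.1 (hA σ hσ hp)
  have h2 := mem_gr.1 (hA σ hσ hq)
  ext
  · exact congrArg Fin.val h
  · rw [← h1, ← h2, h]

/-- many disjoint blocks with at most `g` patterns each -/
theorem blocks {A : Finset (Perm (Fin n))} {m g : ℕ} {R : Finset (Fin n)}
    (hg : ∀ B ⊆ R, B.card = m → (A.image (rs B)).card ≤ g) :
    ∀ (Q : ℕ) (R' : Finset (Fin n)), R' ⊆ R → Q * m ≤ R'.card →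
      ∃ B ⊆ R', B.card = Q * m ∧ (A.image (rs B)).card ≤ g ^ Q := by
  intro Q
  induction Q with
  | zero =>
    intro R' _ _
    exact ⟨∅, empty_subset _, by simp, by simpa using img_le_one A⟩
  | succ Q ih =>
    intro R' hR' hc
    have hm : m ≤ R'.card := le_trans (by rw [add_mul, one_mul]; exact Nat.le_add_left _ _) hc
    obtain ⟨B₁, hB₁, hcB⟩ := exists_subset_card_eq hm
    obtain ⟨B, hB, hcB', hb⟩ := ih (R' \ B₁) (sdiff_subset.trans hR') (by
      rw [card_sdiff_of_subset hB₁, hcB]
      rw [add_mul, one_mul] at hc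
      omega)
    refine ⟨B₁ ∪ B, union_subset hB₁ (hB.trans sdiff_subset), ?_, ?_⟩
    · rw [card_union_of_disjoint, hcB, hcB', add_mul, one_mul, add_comm]
      exact disjoint_of_subset_right hB disjoint_sdiff
    · rw [pow_succ, mul_comm]
      exact (img_union A B₁ B).trans (Nat.mul_le_mul (hg B₁ (hB₁.trans hR') hcB) hb)

end End1

open End1 in
theorem proj {n : ℕ} {A : Finset (Perm (Fin n))} {u : Finset (Fin n × Fin n)}
    (hA : InSt u A) (hne : A.Nonempty) (R : Finset (Fin n))
    (hR : Disjoint R (u.image Prod.fst)) {Q m : ℕ}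
    (hQ : 1 ≤ Q) (hm : Q * m ≤ R.card) :
    ∃ K : Finset (Fin n), K ⊆ R ∧ K.card = m ∧
      (A.card : ℝ) * (n : ℝ) ^ (Q * m) ≤
        (n : ℝ) ^ (n - u.card) * ((A.image (rs K)).card : ℝ) ^ Q := by
  have hmR : m ≤ R.card := le_trans (Nat.le_mul_of_pos_left m hQ) hm
  obtain ⟨K, hK, hmax⟩ := exists_max_image (powersetCard m R)
    (fun K => (A.image (rs K)).card) (powersetCard_nonempty.2 hmR)
  rw [mem_powersetCard] at hK
  refine ⟨K, hK.1, hK.2, ?_⟩
  obtain ⟨B, hBR, hBc, hB⟩ := blocks (A := A) (m := m) (g := (A.image (rs K)).card) (R := R)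
    (fun B hB hc => hmax B (mem_powersetCard.2 ⟨hB, hc⟩)) Q R (Subset.refl _) hm
  have hd : Disjoint B (u.image Prod.fst) := disjoint_of_subset_left hBR hR
  have hcu := card_rows hA hne
  set T : Finset (Fin n) := B ∪ u.image Prod.fst with hT
  have hTc : T.card = Q * m + u.card := by
    rw [hT, card_union_of_disjoint hd, hBc, hcu]
  have hTn : T.card ≤ n := by simpa using card_le_univ T
  have hu : (univ : Finset (Fin n)) = Tᶜ ∪ T := by
    rw [union_comm, union_compl]
  have h1 : A.card ≤ n ^ (n - T.card) * ((A.image (rs K)).card ^ Q * 1) := by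
    calc A.card = (A.image (rs univ)).card := (img_univ A).symm
      _ = (A.image (rs (Tᶜ ∪ T))).card := by rw [← hu]
      _ ≤ (A.image (rs Tᶜ)).card * (A.image (rs T)).card := img_union A _ _
      _ ≤ n ^ (n - T.card) * ((A.image (rs K)).card ^ Q * 1) := by
        refine Nat.mul_le_mul ?_ ?_
        · have := img_le_pow A Tᶜ
          rwa [card_compl, Fintype.card_fin] at this
        · exact (img_union A _ _).trans (Nat.mul_le_mul hB (img_rows hA))
  have h2 : A.card * n ^ (Q * m) ≤ n ^ (n - u.card) * (A.image (rs K)).card ^ Q := by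
    calc A.card * n ^ (Q * m) ≤ n ^ (n - T.card) * ((A.image (rs K)).card ^ Q * 1) * n ^ (Q * m) :=
        Nat.mul_le_mul_right _ h1
      _ = n ^ (n - T.card + Q * m) * (A.image (rs K)).card ^ Q := by rw [pow_add]; ring
      _ = n ^ (n - u.card) * (A.image (rs K)).card ^ Q := by
        congr 2
        omega
  exact_mod_cast h2

end Pool.Agent.CL24
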