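import Pool.Agent.CL24.End2a

/-!
# From many patterns on `K` to many members of the star that agree with a member of `A` in exactly
`t - 1` points
-/

set_option autoImplicit false

namespace Pool.Agent.CL24

open Finset Equiv Nat Pool.Agent.H17.PermInt Pool.Agent.FI37

variable {n : ℕ}

/-- a permutation of the set `K₂` with exactly `κ` fixed points -/
private theorem exists_fix (K₂ : Finset (Fin n)) (κ : ℕ) (h : κ + 2 ≤ K₂.card) :
    ∃ s : Perm (Fin n), (∀ i ∈ K₂, s i ∈ K₂) ∧ (K₂.filter fun i => s i = i).card = κ := by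
  classical
  obtain ⟨T, hT, hTc⟩ := exists_subset_card_eq (s := K₂) (n := κ) (by omega)
  have hD : (K₂ \ T).card = K₂.card - κ := by rw [card_sdiff_of_subset hT, hTc]
  have h1 := card_der (K₂ \ T)
  obtain ⟨m, hm⟩ : ∃ m, (K₂ \ T).card = m + 2 := ⟨K₂.card - κ - 2, by omega⟩
  have h2 : 0 < ((univ : Finset (Perm (Fin n))).filter
      fun ρ => ∀ a, a ∉ K₂ \ T ↔ ρ a = a).card := by
    rw [h1, hm]
    exact lt_of_lt_of_le (Nat.factorial_pos _) (numDer_ge m)
  obtain ⟨ρ, hρ⟩ := Finset.card_pos.mp h2
  rw [mem_filter] at hρ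
  have hρ2 := hρ.2
  refine ⟨ρ, ?_, ?_⟩
  · intro i hi
    by_cases hiT : i ∈ T
    · have h3 : ρ i = i := (hρ2 i).mp (by simp [hiT])
      rw [h3]; exact hi
    · by_contra hc
      have h3 : ρ (ρ i) = ρ i := (hρ2 (ρ i)).mp (fun h' => hc (mem_sdiff.mp h').1)
      have h4 : ρ i = i := ρ.injective h3
      exact hc (by rw [h4]; exact hi)
  · have h3 : (K₂.filter fun i => ρ i = i) = T := by
      ext i
      rw [mem_filter, ← hρ2 i, mem_sdiff]
      constructor
      · rintro ⟨h4, h5⟩
        by_contra hc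
        exact h5 ⟨h4, hc⟩
      · intro h4
        exact ⟨hT h4, fun h5 => h5.2 h4⟩
    rw [h3, hTc]

/-- the part of the graph of `σ` over `K` with values in `I` -/
private def pt (K I : Finset (Fin n)) (σ : Perm (Fin n)) : Finset (Fin n × Fin n) :=
  (rs K σ).filter fun q => q.2 ∈ I

private theorem mem_pt {K I : Finset (Fin n)} {σ : Perm (Fin n)} {q : Fin n × Fin n} :
    q ∈ pt K I σ ↔ (σ q.1 = q.2 ∧ q.1 ∈ K) ∧ q.2 ∈ I := by
  rw [pt, mem_filter, mem_rs]

private theorem card_pt (K I : Finset (Fin n)) (σ : Perm (Fin n)) :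
    (pt K I σ).card = (K.filter fun i => σ i ∈ I).card := by
  classical
  have h : pt K I σ = (K.filter fun i => σ i ∈ I).image fun i => (i, σ i) := by
    ext ⟨a, b⟩
    simp only [mem_pt, mem_image, mem_filter, Prod.mk.injEq]
    constructor
    · rintro ⟨⟨h1, h2⟩, h3⟩
      exact ⟨a, ⟨h2, by rw [h1]; exact h3⟩, rfl, h1⟩
    · rintro ⟨c, ⟨h1, h2⟩, rfl, rfl⟩
      exact ⟨⟨rfl, h1⟩, h2⟩
  rw [h, Finset.card_image_of_injective]
  intro a b hab
  exact (Prod.mk.inj hab).1

private theorem card_rest (K I : Finset (Fin n)) (σ : Perm (Fin n)) :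
    (K.filter fun i => σ i ∉ I).card = K.card - (pt K I σ).card := by
  classical
  rw [card_pt]
  have := card_filter_add_card_filter_not (s := K) (fun i => σ i ∈ I)
  omega

/-- types and embeddings -/
private theorem sum_types (K I : Finset (Fin n)) (A : Finset (Perm (Fin n))) :
    ∑ u ∈ A.image (pt K I), (n - I.card).descFactorial (K.card - u.card) ≤
      n.descFactorial K.card := by
  classical
  let Φ : (K ↪ Fin n) → Finset (Fin n × Fin n) := fun e =>
    ((univ : Finset {x // x ∈ K}).filter fun i => e i ∈ I).image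
      fun i : {x // x ∈ K} => (i.1, e i)
  have hΦ : ∀ (e : K ↪ Fin n) (q : Fin n × Fin n), q ∈ Φ e ↔ ∃ h : q.1 ∈ K, e ⟨q.1, h⟩ = q.2 ∧
      q.2 ∈ I := by
    rintro e ⟨a, b⟩
    simp only [Φ, mem_image, mem_filter, mem_univ, true_and, Prod.mk.injEq]
    constructor
    · rintro ⟨i, hi, rfl, rfl⟩
      exact ⟨i.2, rfl, hi⟩
    · rintro ⟨h, h1, h2⟩
      exact ⟨⟨a, h⟩, by rw [h1]; exact h2, rfl, h1⟩
  have hall : (univ : Finset (K ↪ Fin n)).card = n.descFactorial K.card := by
    rw [Finset.card_univ, Fintype.card_embedding_eq, Fintype.card_fin, Fintype.card_coe]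
  have hfib : ∀ u ∈ A.image (pt K I), (n - I.card).descFactorial (K.card - u.card) ≤
      ((univ : Finset (K ↪ Fin n)).filter fun e => Φ e = u).card := by
    intro u hu
    rw [mem_image] at hu
    obtain ⟨σ, _, rfl⟩ := hu
    rw [← card_rest]
    set K₂ := K.filter fun i => σ i ∉ I with hK₂
    have h1 : (univ : Finset (K₂ ↪ (Iᶜ : Finset (Fin n)))).card =
        (n - I.card).descFactorial K₂.card := by
      rw [Finset.card_univ, Fintype.card_embedding_eq, Fintype.card_coe, Fintype.card_coe,
        card_compl, Fintype.card_fin]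
    rw [← h1]
    let E : (K₂ ↪ (Iᶜ : Finset (Fin n))) → (K → Fin n) := fun g i =>
      if h : σ i.1 ∈ I then σ i.1 else
        ((g ⟨i.1, mem_filter.mpr ⟨i.2, h⟩⟩ : (Iᶜ : Finset (Fin n))) : Fin n)
    have hEpos : ∀ g (i : K), σ i.1 ∈ I → E g i = σ i.1 := by
      intro g i h
      simp only [E, dif_pos h]
    have hEneg : ∀ g (i : K) (h : σ i.1 ∉ I), E g i =
        ((g ⟨i.1, mem_filter.mpr ⟨i.2, h⟩⟩ : (Iᶜ : Finset (Fin n))) : Fin n) := by
      intro g i h
      simp only [E, dif_neg h]
    have hEnot : ∀ g (i : K), σ i.1 ∉ I → E g i ∉ I := by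
      intro g i h
      rw [hEneg g i h]
      exact mem_compl.mp (g ⟨i.1, mem_filter.mpr ⟨i.2, h⟩⟩).2
    have hEinj : ∀ g, Function.Injective (E g) := by
      intro g i j hij
      by_cases hi : σ i.1 ∈ I <;> by_cases hj : σ j.1 ∈ I
      · rw [hEpos g i hi, hEpos g j hj] at hij
        exact Subtype.ext (σ.injective hij)
      · exact absurd (by rw [← hij, hEpos g i hi]; exact hi) (hEnot g j hj)
      · exact absurd (by rw [hij, hEpos g j hj]; exact hj) (hEnot g i hi)
      · rw [hEneg g i hi, hEneg g j hj] at hij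
        have h2 := g.injective (Subtype.ext hij)
        exact Subtype.ext (congrArg (fun x : K₂ => (x : Fin n)) h2)
    refine card_le_card_of_injOn (fun g => (⟨E g, hEinj g⟩ : K ↪ Fin n)) ?_ ?_
    · intro g _
      rw [mem_coe, mem_filter]
      refine ⟨mem_univ _, ?_⟩
      ext ⟨a, b⟩
      rw [hΦ, mem_pt]
      constructor
      · rintro ⟨h, h2, h3⟩
        change E g ⟨a, h⟩ = b at h2
        by_cases ha : σ a ∈ I
        · rw [hEpos g ⟨a, h⟩ ha] at h2
          exact ⟨⟨h2, h⟩, h3⟩
        · exact absurd (by rw [h2]; exact h3) (hEnot g ⟨a, h⟩ ha)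
      · rintro ⟨⟨h2, h⟩, h3⟩
        refine ⟨h, ?_, h3⟩
        change E g ⟨a, h⟩ = b
        rw [hEpos g ⟨a, h⟩ (by simp only at h2 h3; rw [h2]; exact h3)]
        exact h2
    · intro g _ g' _ hgg
      have h2 : E g = E g' := congrArg (fun e : K ↪ Fin n => (e : K → Fin n)) hgg
      ext ⟨i, hi⟩
      rw [hK₂, mem_filter] at hi
      have h3 := congrFun h2 ⟨i, hi.1⟩
      rw [hEneg g ⟨i, hi.1⟩ hi.2, hEneg g' ⟨i, hi.1⟩ hi.2] at h3
      rw [h3]
  calc ∑ u ∈ A.image (pt K I), (n - I.card).descFactorial (K.card - u.card)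
      ≤ ∑ u ∈ A.image (pt K I), ((univ : Finset (K ↪ Fin n)).filter fun e => Φ e = u).card :=
        sum_le_sum hfib
    _ = ((univ : Finset (K ↪ Fin n)).filter fun e => Φ e ∈ A.image (pt K I)).card :=
        sum_card_fiberwise_eq_card_filter _ _ _
    _ ≤ (univ : Finset (K ↪ Fin n)).card := card_filter_le _ _
    _ = n.descFactorial K.card := hall

theorem expand {n t m : ℕ} (ht : 1 ≤ t) (X₀ : Finset (Fin n × Fin n)) (hX : X₀.card = t)
    (π₀ : Perm (Fin n)) (hπ : X₀ ⊆ gr π₀) (K : Finset (Fin n)) (hK : K.card = m)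
    (hd : Disjoint K (X₀.image Prod.fst)) (hm : 2 * t + 2 ≤ m) (hn : t + m + 2 ≤ n)
    (A : Finset (Perm (Fin n))) (hA : ∀ σ ∈ A, ¬ X₀ ⊆ gr σ) :
    (n - t)! * (A.image (rs K)).card ≤
      t * n * ((st X₀).filter fun τ => ∃ σ ∈ A, agr σ τ = t - 1).card * n.descFactorial m := by
  classical
  set N := (st X₀).filter fun τ => ∃ σ ∈ A, agr σ τ = t - 1 with hN
  set S := X₀.image Prod.fst with hS
  set I := X₀.image Prod.snd with hI
  have hIc : I.card = t := by rw [hI, card_snd hπ, hX]
  have hmemS : ∀ i ∈ S, (i, π₀ i) ∈ X₀ := by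
    intro i hi
    rw [hS, mem_image] at hi
    obtain ⟨q, hq, rfl⟩ := hi
    rw [mem_gr.mp (hπ hq)]
    exact hq
  -- representatives
  obtain ⟨R, hRA, hRinj, hRim⟩ := exists_subset_injOn_image_eq_of_surjOn
    (f := rs K) (A : Set (Perm (Fin n))) (A.image (rs K)) (by
      intro w hw
      rw [mem_coe, mem_image] at hw
      obtain ⟨σ, h1, h2⟩ := hw
      exact ⟨σ, h1, h2⟩)
  have hRA' : ∀ σ ∈ R, σ ∈ A := fun σ hσ => by exact_mod_cast hRA hσ
  have hRc : (A.image (rs K)).card = R.card := by rw [← hRim, Finset.card_image_of_injOn hRinj]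
  -- the number of common points with the star centre
  let κ : Perm (Fin n) → ℕ := fun σ => t - 1 - (X₀ ∩ gr σ).card
  have hκ : ∀ σ ∈ A, (X₀ ∩ gr σ).card + κ σ = t - 1 := by
    intro σ hσ
    have h1 : (X₀ ∩ gr σ).card < X₀.card := by
      apply card_lt_card
      rw [Finset.ssubset_iff_subset_ne]
      refine ⟨inter_subset_left, fun h => hA σ hσ ?_⟩
      exact inter_eq_left.mp h
    simp only [κ]
    omega
  -- one type
  have key : ∀ k ∈ range t, ∀ u ∈ A.image (pt K I),
      (n - t)! * (R.filter fun σ => κ σ = k ∧ pt K I σ = u).card ≤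
        n * N.card * (n - t).descFactorial (m - u.card) := by
    intro k hk u hu
    rw [mem_range] at hk
    rw [mem_image] at hu
    obtain ⟨σ₀, hσ₀, rfl⟩ := hu
    set K₂ := K.filter fun i => σ₀ i ∉ I with hK₂
    have hK₂c : K₂.card = m - (pt K I σ₀).card := by rw [hK₂, card_rest, hK]
    have hule : (pt K I σ₀).card ≤ t := by
      rw [← hIc, ← Finset.card_image_of_injOn (s := pt K I σ₀) (f := Prod.snd)
        ((snd_injOn_gr σ₀).mono (by
          intro q hq
          rw [mem_coe, mem_pt] at hq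
          rw [mem_coe, mem_gr]
          exact hq.1.1))]
      apply card_le_card
      intro v hv
      rw [mem_image] at hv
      obtain ⟨q, hq, rfl⟩ := hv
      exact (mem_pt.mp hq).2
    obtain ⟨s, hs1, hs2⟩ := exists_fix K₂ k (by omega)
    have hK₂K : K₂ ⊆ K := filter_subset _ _
    have hK₂S : Disjoint K₂ S := hd.mono_left hK₂K
    set R' := R.filter fun σ => κ σ = k ∧ pt K I σ = pt K I σ₀ with hR'
    have hiff : ∀ σ ∈ R', ∀ i ∈ K, (σ i ∈ I ↔ σ₀ i ∈ I) ∧ (σ i ∈ I → σ i = σ₀ i) := by
      intro σ hσ i hi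
      rw [hR', mem_filter] at hσ
      have hpt := hσ.2.2
      have h1 : σ i ∈ I → σ₀ i = σ i := by
        intro h
        have h2 : (i, σ i) ∈ pt K I σ := mem_pt.mpr ⟨⟨rfl, hi⟩, h⟩
        rw [hpt, mem_pt] at h2
        exact h2.1.1
      have h1' : σ₀ i ∈ I → σ i = σ₀ i := by
        intro h
        have h2 : (i, σ₀ i) ∈ pt K I σ₀ := mem_pt.mpr ⟨⟨rfl, hi⟩, h⟩
        rw [← hpt, mem_pt] at h2
        exact h2.1.1
      refine ⟨⟨fun h => by rw [h1 h]; exact h, fun h => by rw [h1' h]; exact h⟩, fun h => (h1 h).symm⟩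
    let T : Perm (Fin n) → Finset (Perm (Fin n)) := fun σ =>
      (st X₀).filter fun τ => (∀ i ∈ K₂, τ i = σ (s i)) ∧ ∀ i, i ∉ S → i ∉ K₂ → τ i ≠ σ i
    have hTcard : ∀ σ ∈ R', (n - t - K₂.card - 1)! ≤ (T σ).card := by
      intro σ hσ
      have h1 := count_ext X₀ π₀ hπ K₂ hK₂S (fun i => σ (s i))
        (fun a _ b _ hab => s.injective (σ.injective hab)) (by
          intro i hi
          have h2 := hs1 i hi
          have h3 := (hiff σ hσ (s i) (hK₂K h2)).1
          rw [hK₂, mem_filter] at h2
          exact fun h4 => h2.2 (h3.mp h4)) σ (by omega)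
      rw [hX] at h1
      exact h1
    have hTN : ∀ σ ∈ R', T σ ⊆ N := by
      intro σ hσ τ hτ
      rw [hR', mem_filter] at hσ
      have hσA := hRA' σ hσ.1
      simp only [T, mem_filter] at hτ
      rw [hN, mem_filter]
      refine ⟨hτ.1, σ, hσA, ?_⟩
      have hτS : ∀ i ∈ S, τ i = π₀ i := by
        intro i hi
        have := (mem_st.mp hτ.1) (hmemS i hi)
        exact mem_gr.mp this
      have hag : (univ.filter fun i => σ i = τ i) =
          (S.filter fun i => σ i = π₀ i) ∪ (K₂.filter fun i => s i = i) := by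
        ext i
        simp only [mem_filter, mem_univ, true_and, mem_union]
        constructor
        · intro h
          by_cases hiS : i ∈ S
          · left
            exact ⟨hiS, by rw [h, hτS i hiS]⟩
          · by_cases hiK : i ∈ K₂
            · right
              refine ⟨hiK, ?_⟩
              rw [hτ.2.1 i hiK] at h
              exact (σ.injective h).symm
            · exact absurd h.symm (hτ.2.2 i hiS hiK)
        · rintro (⟨hiS, h⟩ | ⟨hiK, h⟩)
          · rw [hτS i hiS, h]
          · rw [hτ.2.1 i hiK, h]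
      have hS0 : (S.filter fun i => σ i = π₀ i).card = (X₀ ∩ gr σ).card := by
        have h1 : X₀ ∩ gr σ = (S.filter fun i => σ i = π₀ i).image fun i => (i, π₀ i) := by
          ext ⟨a, b⟩
          simp only [mem_inter, mem_gr, mem_image, mem_filter, Prod.mk.injEq]
          constructor
          · rintro ⟨h1, h2⟩
            have h3 : π₀ a = b := mem_gr.mp (hπ h1)
            exact ⟨a, ⟨mem_image_of_mem Prod.fst h1, by rw [h3]; exact h2⟩, rfl, h3⟩
          · rintro ⟨c, ⟨h1, h2⟩, rfl, rfl⟩
            exact ⟨hmemS c h1, h2⟩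
        rw [h1, Finset.card_image_of_injective]
        intro a b hab
        exact (Prod.mk.inj hab).1
      unfold agr
      rw [hag, card_union_of_disjoint, hS0, hs2]
      · have := hκ σ hσA
        omega
      · refine Disjoint.mono (filter_subset _ _) (filter_subset _ _) hK₂S.symm
    have hdisj : Set.PairwiseDisjoint (R' : Set (Perm (Fin n))) T := by
      intro σ hσ σ' hσ' hne
      rw [Function.onFun, disjoint_left]
      intro τ hτ hτ'
      simp only [T, mem_filter] at hτ hτ'
      rw [mem_coe] at hσ hσ'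
      apply hne
      apply hRinj (mem_filter.mp hσ).1 (mem_filter.mp hσ').1
      have hs3 : ∀ i ∈ K₂, ∃ j ∈ K₂, s j = i := by
        have h1 : K₂.image s = K₂ := by
          apply eq_of_subset_of_card_le
          · intro i hi
            rw [mem_image] at hi
            obtain ⟨j, hj, rfl⟩ := hi
            exact hs1 j hj
          · rw [Finset.card_image_of_injective _ s.injective]
        intro i hi
        rw [← h1, mem_image] at hi
        exact hi
      have heq : ∀ i ∈ K, σ i = σ' i := by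
        intro i hi
        by_cases hiI : σ₀ i ∈ I
        · have h1 := hiff σ hσ i hi
          have h2 := hiff σ' hσ' i hi
          rw [h1.2 (h1.1.mpr hiI), h2.2 (h2.1.mpr hiI)]
        · have hiK : i ∈ K₂ := by rw [hK₂, mem_filter]; exact ⟨hi, hiI⟩
          obtain ⟨j, hj, rfl⟩ := hs3 i hiK
          rw [← hτ.2.1 j hj, ← hτ'.2.1 j hj]
      ext q
      rw [mem_rs, mem_rs]
      constructor
      · rintro ⟨h1, h2⟩
        exact ⟨by rw [← heq _ h2]; exact h1, h2⟩
      · rintro ⟨h1, h2⟩
        exact ⟨by rw [heq _ h2]; exact h1, h2⟩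
    have hsum : (n - t - K₂.card - 1)! * R'.card ≤ N.card := by
      calc (n - t - K₂.card - 1)! * R'.card = ∑ _σ ∈ R', (n - t - K₂.card - 1)! := by
            rw [sum_const, smul_eq_mul, mul_comm]
        _ ≤ ∑ σ ∈ R', (T σ).card := sum_le_sum hTcard
        _ = (R'.biUnion T).card := (card_biUnion hdisj).symm
        _ ≤ N.card := card_le_card (biUnion_subset.mpr hTN)
    have hfac : (n - t)! ≤ n * (n - t).descFactorial K₂.card * (n - t - K₂.card - 1)! := by
      have h1 := Nat.factorial_mul_descFactorial (n := n - t) (k := K₂.card) (by omega)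
      have h2 : (n - t - K₂.card)! = (n - t - K₂.card) * (n - t - K₂.card - 1)! := by
        rw [Nat.mul_factorial_pred (by omega)]
      rw [← h1, h2]
      calc (n - t - K₂.card) * (n - t - K₂.card - 1)! * (n - t).descFactorial K₂.card
          ≤ n * (n - t - K₂.card - 1)! * (n - t).descFactorial K₂.card := by
            gcongr
            omega
        _ = _ := by ring
    rw [← hK₂c]
    calc (n - t)! * R'.card
        ≤ n * (n - t).descFactorial K₂.card * (n - t - K₂.card - 1)! * R'.card := by gcongr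
      _ = n * (n - t).descFactorial K₂.card * ((n - t - K₂.card - 1)! * R'.card) := by ring
      _ ≤ n * (n - t).descFactorial K₂.card * N.card := by gcongr
      _ = _ := by ring
  -- summation over the types
  have hcardR : R.card = ∑ p ∈ range t ×ˢ A.image (pt K I),
      (R.filter fun σ => (κ σ, pt K I σ) = p).card := by
    apply card_eq_sum_card_fiberwise
    intro σ hσ
    have h1 := hRA' σ (by exact_mod_cast hσ)
    have h2 := hκ σ h1
    rw [mem_coe, mem_product, mem_range]
    exact ⟨by simp only; omega, mem_image_of_mem _ h1⟩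
  rw [hRc, hcardR, sum_product, mul_sum]
  have h3 := sum_types K I A
  rw [hIc, hK] at h3
  calc ∑ k ∈ range t, (n - t)! * ∑ u ∈ A.image (pt K I),
        (R.filter fun σ => (κ σ, pt K I σ) = (k, u)).card
      ≤ ∑ _k ∈ range t, n * N.card * n.descFactorial m := by
        refine sum_le_sum fun k hk => ?_
        rw [mul_sum]
        calc ∑ u ∈ A.image (pt K I),
              (n - t)! * (R.filter fun σ => (κ σ, pt K I σ) = (k, u)).card
            ≤ ∑ u ∈ A.image (pt K I), n * N.card * (n - t).descFactorial (m - u.card) := by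
              refine sum_le_sum fun u hu => ?_
              have := key k hk u hu
              simpa only [Prod.mk.injEq] using this
          _ = n * N.card * ∑ u ∈ A.image (pt K I), (n - t).descFactorial (m - u.card) := by
              rw [mul_sum]
          _ ≤ n * N.card * n.descFactorial m := by gcongr
    _ = t * (n * N.card * n.descFactorial m) := by rw [sum_const, card_range, smul_eq_mul]
    _ = _ := by ring

end Pool.Agent.CL24
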