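import Pool.Agent.CL24.Base

/-!
# CL24/End2a: counting the extensions of an injection on some rows without given agreements (helper95)
-/

set_option autoImplicit false

namespace Pool.Agent.CL24

open Finset Equiv Nat Pool.Agent.H17.PermInt Pool.Agent.FI37

theorem count_ext {n : ℕ} (X₀ : Finset (Fin n × Fin n)) (π₀ : Perm (Fin n)) (hπ : X₀ ⊆ gr π₀)
    (K₂ : Finset (Fin n)) (hd : Disjoint K₂ (X₀.image Prod.fst)) (y : Fin n → Fin n)
    (hy : Set.InjOn y (K₂ : Set (Fin n))) (hyI : ∀ i ∈ K₂, y i ∉ X₀.image Prod.snd)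
    (σ : Perm (Fin n)) (hn : X₀.card + K₂.card + 2 ≤ n) :
    (n - X₀.card - K₂.card - 1)! ≤
      ((st X₀).filter fun τ => (∀ i ∈ K₂, τ i = y i) ∧
        ∀ i, i ∉ X₀.image Prod.fst → i ∉ K₂ → τ i ≠ σ i).card := by
  classical
  set S := X₀.image Prod.fst with hS
  have hSc : S.card = X₀.card := by rw [hS, card_fst hπ]
  have hmemS : ∀ i ∈ S, (i, π₀ i) ∈ X₀ := by
    intro i hi
    rw [hS, mem_image] at hi
    obtain ⟨q, hq, rfl⟩ := hi
    have h1 := mem_gr.mp (hπ hq)
    rw [h1]
    exact hq
  have hKS : ∀ i ∈ K₂, i ∉ S := fun i hi => disjoint_left.mp hd hi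
  have hyS : ∀ i ∈ K₂, ∀ j ∈ S, y i ≠ π₀ j := by
    intro i hi j hj he
    apply hyI i hi
    rw [he]
    exact mem_image_of_mem Prod.snd (hmemS j hj)
  -- the base permutation
  obtain ⟨π, hπ1⟩ := Pool.Agent.H52.ThreeStar.extend_perm (S ∪ K₂)
    (fun i => if i ∈ S then π₀ i else y i) (by
      intro a ha b hb hab
      rw [mem_coe, mem_union] at ha hb
      simp only at hab
      by_cases ha' : a ∈ S <;> by_cases hb' : b ∈ S
      · rw [if_pos ha', if_pos hb'] at hab
        exact π₀.injective hab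
      · rw [if_pos ha', if_neg hb'] at hab
        exact absurd hab.symm (hyS b (hb.resolve_left hb') a ha')
      · rw [if_neg ha', if_pos hb'] at hab
        exact absurd hab (hyS a (ha.resolve_left ha') b hb')
      · rw [if_neg ha', if_neg hb'] at hab
        exact hy (ha.resolve_left ha') (hb.resolve_left hb') hab)
  have hπS : ∀ i ∈ S, π i = π₀ i := by
    intro i hi
    rw [hπ1 i (mem_union_left _ hi)]
    simp [hi]
  have hπK : ∀ i ∈ K₂, π i = y i := by
    intro i hi
    rw [hπ1 i (mem_union_right _ hi)]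
    simp [hKS i hi]
  set D : Finset (Fin n) := (S ∪ K₂)ᶜ with hD
  have hmemD : ∀ i, i ∈ D ↔ i ∉ S ∧ i ∉ K₂ := by
    intro i
    rw [hD, mem_compl, mem_union, not_or]
  have hDc : D.card = n - X₀.card - K₂.card := by
    rw [hD, card_compl, Fintype.card_fin, card_union_of_disjoint hd.symm, hSc]
    omega
  -- the forbidden positions
  set ph : Perm (Fin n) := π⁻¹ * σ with hph
  obtain ⟨ps, hps1⟩ := Pool.Agent.H52.ThreeStar.extend_perm (Dᶜ ∪ D.filter fun i => ph i ∈ D)
    (fun i => if i ∈ D then ph i else i) (by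
      intro a ha b hb hab
      rw [mem_coe, mem_union, mem_compl, mem_filter] at ha hb
      simp only at hab
      by_cases ha' : a ∈ D <;> by_cases hb' : b ∈ D
      · rw [if_pos ha', if_pos hb'] at hab
        exact ph.injective hab
      · rw [if_pos ha', if_neg hb'] at hab
        have h1 := (ha.resolve_left (fun h => h ha')).2
        rw [hab] at h1
        exact absurd h1 hb'
      · rw [if_neg ha', if_pos hb'] at hab
        have h1 := (hb.resolve_left (fun h => h hb')).2
        rw [← hab] at h1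
        exact absurd h1 ha'
      · rw [if_neg ha', if_neg hb'] at hab
        exact hab)
  have hps2 : ∀ i, i ∉ D → ps i = i := by
    intro i hi
    rw [hps1 i (mem_union_left _ (mem_compl.mpr hi))]
    simp [hi]
  have hps3 : ∀ i ∈ D, ph i ∈ D → ps i = ph i := by
    intro i hi hphi
    rw [hps1 i (mem_union_right _ (mem_filter.mpr ⟨hi, hphi⟩))]
    simp [hi]
  have hpsD : ∀ i ∈ D, ps i ∈ D := by
    intro i hi
    by_contra hcon
    have h1 := hps2 _ hcon
    have h2 := ps.injective h1
    rw [h2] at hcon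
    exact hcon hi
  -- the injection
  have hN : ∃ k, D.card = k + 2 := ⟨D.card - 2, by omega⟩
  obtain ⟨k, hk⟩ := hN
  have h1 : (n - X₀.card - K₂.card - 1)! ≤ numDerangements D.card := by
    rw [hk]
    refine le_trans ?_ (numDer_ge k)
    rw [show n - X₀.card - K₂.card - 1 = k + 1 by omega]
  refine h1.trans ?_
  rw [← card_der D]
  refine card_le_card_of_injOn (fun ρ => π * ps * ρ) ?_ ?_
  · intro ρ hρ
    rw [mem_coe, mem_filter] at hρ
    have hρ1 := hρ.2
    have hτ : ∀ i, i ∉ D → (π * ps * ρ) i = π i := by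
      intro i hi
      rw [Perm.mul_apply, (hρ1 i).mp hi, Perm.mul_apply, hps2 i hi]
    have hρD : ∀ i ∈ D, ρ i ∈ D := by
      intro i hi
      by_contra hcon
      have h2 := (hρ1 _).mp hcon
      have h3 := ρ.injective h2
      rw [h3] at hcon
      exact hcon hi
    rw [mem_coe, mem_filter, mem_st]
    refine ⟨?_, ?_, ?_⟩
    · intro q hq
      have hq1 : q.1 ∈ S := mem_image_of_mem _ hq
      rw [mem_gr]
      have h2 : q.1 ∉ D := fun h => ((hmemD _).mp h).1 hq1
      show (π * ps * ρ) q.1 = q.2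
      rw [hτ _ h2, hπS _ hq1]
      exact mem_gr.mp (hπ hq)
    · intro i hi
      have h2 : i ∉ D := fun h => ((hmemD _).mp h).2 hi
      show (π * ps * ρ) i = y i
      rw [hτ _ h2, hπK _ hi]
    · intro i hiS hiK
      have hiD : i ∈ D := (hmemD i).mpr ⟨hiS, hiK⟩
      intro he
      have he' : π (ps (ρ i)) = σ i := he
      have h2 : ps (ρ i) = ph i := by
        rw [hph, Perm.mul_apply, ← he']
        exact (π.symm_apply_apply _).symm
      have h3 : ph i ∈ D := by
        rw [← h2]
        exact hpsD _ (hρD i hiD)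
      have h4 : ps (ρ i) = ps i := by rw [h2, hps3 i hiD h3]
      have h5 : ρ i = i := ps.injective h4
      exact (hρ1 i).mpr h5 hiD
  · intro a _ b _ hab
    exact mul_left_cancel hab

end Pool.Agent.CL24
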