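import Pool.Agent.CL24.Base

/-!
# Frankl-Wilson / Ray-Chaudhuri-Wilson in one lemma (MP_ee287f_co, CL24, piece 1)
-/

namespace Pool.Agent.CL24

open Finset

/-- the indicator of `J ⊆ c'`, as a function on `C` -/
private def mo {Ω : Type*} [DecidableEq Ω] (F : Type*) [Field F] (C : Finset (Finset Ω))
    (J : Finset Ω) : C → F := fun c' => if J ⊆ c'.1 then 1 else 0

private theorem prod_mem {Ω F : Type*} [DecidableEq Ω] [Field F] [DecidableEq F]
    (C : Finset (Finset Ω)) (c : Finset Ω) (L : Finset F) :
    (fun c' : C => ∏ l ∈ L, ((((c ∩ c'.1).card : ℕ) : F) - l)) ∈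
      Submodule.span F (mo F C '' {J | J ⊆ c ∧ J.card ≤ L.card}) := by
  classical
  induction L using Finset.induction_on with
  | empty =>
    refine Submodule.subset_span ⟨∅, ⟨empty_subset _, by simp⟩, ?_⟩
    funext c'
    simp [mo]
  | insert l L hl ih =>
    have hcard : (insert l L).card = L.card + 1 := card_insert_of_notMem hl
    rw [hcard]
    have key : ∀ P ∈ Submodule.span F (mo F C '' {J | J ⊆ c ∧ J.card ≤ L.card}),
        (fun c' : C => ((((c ∩ c'.1).card : ℕ) : F) - l) * P c') ∈
          Submodule.span F (mo F C '' {J | J ⊆ c ∧ J.card ≤ L.card + 1}) := by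
      intro P hP
      induction hP using Submodule.span_induction with
      | mem P hP =>
        obtain ⟨J, ⟨hJc, hJk⟩, rfl⟩ := hP
        have e : (fun c' : C => ((((c ∩ c'.1).card : ℕ) : F) - l) * mo F C J c') =
            ∑ a ∈ c, mo F C (insert a J) - l • mo F C J := by
          funext c'
          rw [Pi.sub_apply, Finset.sum_apply, Pi.smul_apply, smul_eq_mul, sub_mul]
          congr 1
          have h1 : (((c ∩ c'.1).card : ℕ) : F) = ∑ a ∈ c, if a ∈ c'.1 then (1 : F) else 0 := by
            rw [← Finset.sum_filter, Finset.filter_mem_eq_inter]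
            simp
          rw [h1, Finset.sum_mul]
          refine Finset.sum_congr rfl fun a _ => ?_
          simp only [mo, insert_subset_iff]
          by_cases h2 : a ∈ c'.1 <;> by_cases h3 : J ⊆ c'.1 <;> simp [h2, h3]
        rw [e]
        refine Submodule.sub_mem _ (Submodule.sum_mem _ fun a ha => ?_)
          (Submodule.smul_mem _ _ ?_)
        · refine Submodule.subset_span ⟨insert a J, ⟨insert_subset ha hJc, ?_⟩, rfl⟩
          exact (card_insert_le _ _).trans (by omega)
        · exact Submodule.subset_span ⟨J, ⟨hJc, by omega⟩, rfl⟩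
      | zero =>
        have : (fun c' : C => ((((c ∩ c'.1).card : ℕ) : F) - l) * (0 : C → F) c') = 0 := by
          funext c'; simp
        rw [this]; exact Submodule.zero_mem _
      | add P Q _ _ hP hQ =>
        have : (fun c' : C => ((((c ∩ c'.1).card : ℕ) : F) - l) * (P + Q) c') =
            (fun c' : C => ((((c ∩ c'.1).card : ℕ) : F) - l) * P c') +
            (fun c' : C => ((((c ∩ c'.1).card : ℕ) : F) - l) * Q c') := by
          funext c'; simp [mul_add]
        rw [this]; exact Submodule.add_mem _ hP hQ
      | smul r P _ hP =>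
        have : (fun c' : C => ((((c ∩ c'.1).card : ℕ) : F) - l) * (r • P) c') =
            r • (fun c' : C => ((((c ∩ c'.1).card : ℕ) : F) - l) * P c') := by
          funext c'
          simp only [Pi.smul_apply, smul_eq_mul]
          ring
        rw [this]; exact Submodule.smul_mem _ _ hP
    have h := key _ ih
    have e : (fun c' : C => ∏ l' ∈ insert l L, ((((c ∩ c'.1).card : ℕ) : F) - l')) =
        (fun c' : C => ((((c ∩ c'.1).card : ℕ) : F) - l) *
          ∏ l' ∈ L, ((((c ∩ c'.1).card : ℕ) : F) - l')) := by
      funext c'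
      rw [Finset.prod_insert hl]
    rw [e]; exact h

/-- **Frankl-Wilson / Ray-Chaudhuri-Wilson**: if the sizes of the intersections of different
members of `C` lie in `L` and the sizes of the members do not (all in a field `F`), then `C` has at
most as many members as there are sets of size at most `#L` below members of `C`. -/
theorem fw {Ω F : Type*} [DecidableEq Ω] [Field F] [DecidableEq F] (C : Finset (Finset Ω))
    (L : Finset F) (h1 : ∀ c ∈ C, ∀ c' ∈ C, c ≠ c' → (((c ∩ c').card : ℕ) : F) ∈ L)
    (h2 : ∀ c ∈ C, ((c.card : ℕ) : F) ∉ L) : C.card ≤ (dn C L.card).card := by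
  classical
  set S : Submodule F (C → F) :=
    Submodule.span F (((dn C L.card).image (mo F C) : Finset (C → F)) : Set (C → F)) with hS
  have hmem : ∀ c ∈ C, (fun c' : C => ∏ l ∈ L, ((((c ∩ c'.1).card : ℕ) : F) - l)) ∈ S := by
    intro c hc
    refine Submodule.span_mono ?_ (prod_mem C c L)
    rintro _ ⟨J, ⟨hJc, hJk⟩, rfl⟩
    rw [Finset.coe_image]
    exact ⟨J, mem_dn.2 ⟨⟨c, hc, hJc⟩, hJk⟩, rfl⟩
  have hsingle : ∀ c : C, (Pi.single c (1 : F) : C → F) ∈ S := by
    intro c
    set d := ∏ l ∈ L, ((((c.1 ∩ c.1).card : ℕ) : F) - l) with hd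
    have hd0 : d ≠ 0 := by
      rw [hd, Finset.prod_ne_zero_iff]
      intro l hl h0
      rw [Finset.inter_self, sub_eq_zero] at h0
      exact h2 c.1 c.2 (h0 ▸ hl)
    have e : (fun c' : C => ∏ l ∈ L, ((((c.1 ∩ c'.1).card : ℕ) : F) - l)) =
        d • (Pi.single c (1 : F) : C → F) := by
      funext c'
      rw [Pi.smul_apply, smul_eq_mul]
      by_cases h : c' = c
      · subst h
        rw [Pi.single_eq_same, mul_one]
      · rw [Pi.single_eq_of_ne h, mul_zero]
        refine Finset.prod_eq_zero (h1 c.1 c.2 c'.1 c'.2 ?_) (sub_self _)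
        exact fun h' => h (Subtype.ext h').symm
    have h := hmem c.1 c.2
    rw [e] at h
    have := S.smul_mem d⁻¹ h
    rwa [smul_smul, inv_mul_cancel₀ hd0, one_smul] at this
  have htop : S = ⊤ := by
    rw [eq_top_iff]
    intro f _
    have : f = ∑ c : C, f c • (Pi.single c (1 : F) : C → F) := by
      funext c'
      simp [Finset.sum_apply, Pi.single_apply]
    rw [this]
    exact Submodule.sum_mem _ fun c _ => Submodule.smul_mem _ _ (hsingle c)
  have hfr : Module.finrank F S ≤ (dn C L.card).card :=
    (finrank_span_finset_le_card _).trans Finset.card_image_le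
  have hV : Module.finrank F (C → F) = C.card := by
    rw [Module.finrank_fintype_fun_eq_card, Fintype.card_coe]
  rw [← hV, ← finrank_top F (C → F), ← htop]
  exact hfr

end Pool.Agent.CL24
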