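import Pool.Agent.CL24.DL
import Pool.Agent.CL24.End1
import Pool.Agent.CL24.End2
import Pool.Agent.FI37.Range

/-!
# Large `(t-1)`-avoiding families are stars, `n ≥ C t`
-/

set_option autoImplicit false

namespace Pool.Agent.CL24

open Finset Equiv Nat Pool.Agent.H17.PermInt Pool.Agent.FI37

/-- the dense link property -/
def DL (n t : ℕ) : Prop := ∀ G : Finset (Perm (Fin n)),
    IsAvoiding t G → (n - 2 * t)! ≤ G.card →
    ∃ u : Finset (Fin n × Fin n), (u.card : ℝ) ≤ n / 10 ^ 16 ∧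
      (G.card : ℝ) * ((n - u.card)! : ℝ) ≤
        Real.exp (n / 10 ^ 15) * ((G.filter fun σ => u ⊆ gr σ).card : ℝ) * ((n - t)! : ℝ)

theorem link_piece {n t : ℕ} (hdl : DL n t) (hn : 10 ^ 40 ≤ n) {c : ℝ}
    (hc : c ≤ n / 10 ^ 14) {G : Finset (Perm (Fin n))} (hG : IsAvoiding t G)
    (hG1 : (n - 2 * t)! ≤ G.card) (hG2 : ((n - t)! : ℝ) ≤ Real.exp c * G.card) :
    ∃ (Y : Finset (Fin n × Fin n)) (A : Finset (Perm (Fin n))),
      A ⊆ G ∧ InSt Y A ∧ Spr 6 Y A ∧ Den (c + n / 10 ^ 15 + n / 10 ^ 16) Y A := by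
  classical
  obtain ⟨u, hu, hul⟩ := hdl G hG hG1
  have hnR : (10 : ℝ) ^ 40 ≤ n := by exact_mod_cast hn
  have hGpos : (0 : ℝ) < G.card := by
    exact_mod_cast lt_of_lt_of_le (Nat.factorial_pos _) hG1
  have hS : InSt u (G.filter fun σ => u ⊆ gr σ) := fun σ hσ => (mem_filter.mp hσ).2
  have h1 : ((n - u.card)! : ℝ) ≤ Real.exp (n / 10 ^ 15) *
      ((G.filter fun σ => u ⊆ gr σ).card : ℝ) * Real.exp c := by
    have h2 : (G.card : ℝ) * ((n - u.card)! : ℝ) ≤ (G.card : ℝ) * (Real.exp (n / 10 ^ 15) *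
        ((G.filter fun σ => u ⊆ gr σ).card : ℝ) * Real.exp c) := by
      calc (G.card : ℝ) * ((n - u.card)! : ℝ) ≤ _ := hul
        _ ≤ Real.exp (n / 10 ^ 15) * ((G.filter fun σ => u ⊆ gr σ).card : ℝ) *
            (Real.exp c * G.card) := by gcongr
        _ = _ := by ring
    exact le_of_mul_le_mul_left h2 hGpos
  have hD : Den (c + n / 10 ^ 15 + n / 10 ^ 16) u (G.filter fun σ => u ⊆ gr σ) := by
    unfold Den
    rw [Real.exp_add, Real.exp_add]
    calc ((n - u.card)! : ℝ) * Real.exp (u.card : ℝ)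
        ≤ (Real.exp (n / 10 ^ 15) * ((G.filter fun σ => u ⊆ gr σ).card : ℝ) * Real.exp c) *
          Real.exp (n / 10 ^ 16) := by gcongr
      _ = _ := by ring
  obtain ⟨Y, A, -, hA, hS', hp, hD'⟩ := reg hS hD (by
    have e1 : (n : ℝ) / 10 ^ 14 ≤ n / 100 := by
      apply div_le_div_of_nonneg_left (by positivity) (by norm_num) (by norm_num)
    have e2 : (n : ℝ) / 10 ^ 15 ≤ n / 100 := by
      apply div_le_div_of_nonneg_left (by positivity) (by norm_num) (by norm_num)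
    have e3 : (n : ℝ) / 10 ^ 16 ≤ n / 100 := by
      apply div_le_div_of_nonneg_left (by positivity) (by norm_num) (by norm_num)
    have e4 : (100 : ℝ) ≤ n := le_trans (by norm_num) hnR
    linarith)
  exact ⟨Y, A, hA.trans (filter_subset _ _), hS', hp, hD'⟩

/-- the final numerical contradiction -/
theorem final_num {n t Q : ℕ} (hn : 10 ^ 40 ≤ n) (htn : t ≤ n)
    (hQ : Q = 10 ^ 15) {a m' : ℕ} {f G A I : ℝ} (hf : 0 < f) (hG : 0 < G)
    (hI : 0 ≤ I)
    (E1 : f * I ≤ t * n * G * (n : ℝ) ^ m')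
    (E2 : A * (n : ℝ) ^ (Q * m') ≤ (n : ℝ) ^ (n - a) * I ^ Q)
    (E3 : G * ((n - a)! : ℝ) ≤ Real.exp (n / 10 ^ 15) * A * f)
    (E4 : Real.exp (n / 10 ^ 14) * G < f) : False := by
  have hnR : (10 : ℝ) ^ 40 ≤ n := by exact_mod_cast hn
  have hn0 : (0 : ℝ) < n := by linarith [show (0 : ℝ) < 10 ^ 40 by positivity]
  have hn1 : (1 : ℝ) ≤ n := le_trans (by norm_num) hnR
  have hQR : (Q : ℝ) = 10 ^ 15 := by rw [hQ]; norm_num
  obtain ⟨q, hq⟩ : ∃ q : ℕ, Q = q + 1 := ⟨Q - 1, by rw [hQ]; norm_num⟩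
  have hqR : (q : ℝ) = 10 ^ 15 - 1 := by
    have : (Q : ℝ) = q + 1 := by rw [hq]; push_cast; ring
    linarith
  clear hQ
  have E5 : (n : ℝ) ^ (n - a) ≤ Real.exp n * ((n - a)! : ℝ) := by
    have h1 := Real.pow_div_factorial_le_exp (n : ℝ) hn0.le (n - a)
    rwa [div_le_iff₀ (by positivity)] at h1
  -- eliminate `I`
  have h1 : A * f ^ Q ≤ (n : ℝ) ^ (n - a) * (t * n * G) ^ Q := by
    have h2 : (f * I) ^ Q ≤ (t * n * G * (n : ℝ) ^ m') ^ Q :=
      pow_le_pow_left₀ (by positivity) E1 Q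
    have h3 : A * f ^ Q * (n : ℝ) ^ (Q * m') ≤
        (n : ℝ) ^ (n - a) * (t * n * G) ^ Q * (n : ℝ) ^ (Q * m') := by
      calc A * f ^ Q * (n : ℝ) ^ (Q * m') = A * (n : ℝ) ^ (Q * m') * f ^ Q := by ring
        _ ≤ (n : ℝ) ^ (n - a) * I ^ Q * f ^ Q := by gcongr
        _ = (n : ℝ) ^ (n - a) * (f * I) ^ Q := by rw [mul_pow]; ring
        _ ≤ (n : ℝ) ^ (n - a) * (t * n * G * (n : ℝ) ^ m') ^ Q := by gcongr
        _ = (n : ℝ) ^ (n - a) * (t * n * G) ^ Q * (n : ℝ) ^ (Q * m') := by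
            rw [mul_pow (t * n * G), ← pow_mul, mul_comm m' Q]; ring
    exact le_of_mul_le_mul_right h3 (by positivity)
  -- eliminate `A`
  have h2 : G * f ^ Q ≤ Real.exp (n / 10 ^ 15) * f * (Real.exp n * (t * n * G) ^ Q) := by
    have h3 : G * f ^ Q * ((n - a)! : ℝ) ≤
        Real.exp (n / 10 ^ 15) * f * (Real.exp n * (t * n * G) ^ Q) * ((n - a)! : ℝ) := by
      calc G * f ^ Q * ((n - a)! : ℝ) = G * ((n - a)! : ℝ) * f ^ Q := by ring
        _ ≤ Real.exp (n / 10 ^ 15) * A * f * f ^ Q := by gcongr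
        _ = Real.exp (n / 10 ^ 15) * f * (A * f ^ Q) := by ring
        _ ≤ Real.exp (n / 10 ^ 15) * f * ((n : ℝ) ^ (n - a) * (t * n * G) ^ Q) := by gcongr
        _ ≤ Real.exp (n / 10 ^ 15) * f *
            ((Real.exp n * ((n - a)! : ℝ)) * (t * n * G) ^ Q) := by gcongr
        _ = _ := by ring
    exact le_of_mul_le_mul_right h3 (by positivity)
  -- divide by `f` and `G`
  have h3 : f ^ q ≤ Real.exp (n / 10 ^ 15) * Real.exp n * ((t : ℝ) * n) ^ Q * G ^ q := by
    have h4 : (G * f) * f ^ q ≤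
        (G * f) * (Real.exp (n / 10 ^ 15) * Real.exp n * ((t : ℝ) * n) ^ Q * G ^ q) := by
      calc (G * f) * f ^ q = G * f ^ Q := by rw [hq, pow_succ]; ring
        _ ≤ _ := h2
        _ = _ := by rw [mul_pow (t * n : ℝ), hq, pow_succ, pow_succ]; ring
    exact le_of_mul_le_mul_left h4 (by positivity)
  have h4 : Real.exp (n / 10 ^ 14) ^ q * G ^ q ≤
      Real.exp (n / 10 ^ 15) * Real.exp n * ((t : ℝ) * n) ^ Q * G ^ q := by
    rw [← mul_pow]
    exact (pow_le_pow_left₀ (by positivity) E4.le q).trans h3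
  have h5 : Real.exp (n / 10 ^ 14) ^ q ≤
      Real.exp (n / 10 ^ 15) * Real.exp n * ((t : ℝ) * n) ^ Q :=
    le_of_mul_le_mul_right h4 (by positivity)
  have htR : (t : ℝ) ≤ n := by exact_mod_cast htn
  have h6 : ((t : ℝ) * n) ^ Q ≤ Real.exp (Q * (2 * Real.log n)) := by
    have h7 : (t : ℝ) * n ≤ Real.exp (2 * Real.log n) := by
      rw [two_mul, Real.exp_add, Real.exp_log hn0]
      gcongr
    calc ((t : ℝ) * n) ^ Q ≤ Real.exp (2 * Real.log n) ^ Q := by gcongr
      _ = _ := by rw [← Real.exp_nat_mul]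
  have h7 : Real.exp (q * (n / 10 ^ 14)) ≤ Real.exp (n / 10 ^ 15 + n + Q * (2 * Real.log n)) := by
    rw [Real.exp_nat_mul, Real.exp_add, Real.exp_add]
    refine h5.trans ?_
    gcongr
  have h8 := Real.exp_le_exp.mp h7
  -- `log n ≤ 2 sqrt n`
  have h9 : Real.log n ≤ 2 * Real.sqrt n := by
    have h10 : Real.log n = 2 * Real.log (Real.sqrt n) := by
      rw [Real.log_sqrt hn0.le]; ring
    rw [h10]
    have h11 := Real.log_le_sub_one_of_pos (Real.sqrt_pos.mpr hn0)
    linarith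
  have h10 : (10 : ℝ) ^ 20 ≤ Real.sqrt n := by
    rw [Real.le_sqrt (by positivity) hn0.le]
    exact (show ((10 : ℝ) ^ 20) ^ 2 = (10 : ℝ) ^ 40 by norm_num).le.trans hnR
  have h11 : Real.sqrt n * Real.sqrt n = n := Real.mul_self_sqrt hn0.le
  rw [hqR, hQR] at h8
  have h12 : (10 ^ 15 - 1 : ℝ) * (n / 10 ^ 14) = 10 * n - n / 10 ^ 14 := by ring
  rw [h12] at h8
  have e1 : (n : ℝ) / 10 ^ 14 ≤ n / 100 := by
    apply div_le_div_of_nonneg_left (by positivity) (by norm_num) (by norm_num)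
  have e2 : (n : ℝ) / 10 ^ 15 ≤ n / 100 := by
    apply div_le_div_of_nonneg_left (by positivity) (by norm_num) (by norm_num)
  have h13 : (10 : ℝ) ^ 15 * (2 * Real.log n) ≤ 4 * 10 ^ 15 * Real.sqrt n := by linarith
  have h14 : 4 * 10 ^ 15 * Real.sqrt n ≤ n := by
    rw [← h11]
    have h15 : (4 * 10 ^ 15 : ℝ) ≤ Real.sqrt n := le_trans (by norm_num) h10
    have h16 : 0 ≤ Real.sqrt n := Real.sqrt_nonneg n
    rw [Real.mul_self_sqrt hn0.le]
    nlinarith
  linarith

theorem mainStarL {n t : ℕ} (hdl : DL n t) (ht : 1 ≤ t) (hn : 10 ^ 40 ≤ n)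
    (hC : 10 ^ 20 * t ≤ n) (F : Finset (Perm (Fin n)))
    (hF : IsAvoiding t F) (hcard : (n - t)! ≤ F.card) :
    ∃ X₀ : Finset (Fin n × Fin n), X₀.card = t ∧ F = st X₀ := by
  classical
  have ht' : (1 : ℝ) ≤ t := by exact_mod_cast ht
  have hn' : (10 : ℝ) ^ 40 ≤ n := by exact_mod_cast hn
  have hn15 : 10 ^ 15 ≤ n := le_trans (by norm_num) hn
  obtain ⟨E, hE⟩ : ∃ E : ℝ, (n : ℝ) = 10 ^ 17 * E := ⟨n / 10 ^ 17, by ring⟩
  have hEbig : (10 : ℝ) ^ 23 ≤ E := by
    rw [hE] at hn'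
    have : (10 : ℝ) ^ 17 * 10 ^ 23 ≤ 10 ^ 17 * E :=
      (show (10 : ℝ) ^ 17 * 10 ^ 23 = 10 ^ 40 by norm_num).le.trans hn'
    exact le_of_mul_le_mul_left this (by positivity)
  have e13 : (n : ℝ) / 10 ^ 13 = 10000 * E := by rw [hE]; ring
  have e14 : (n : ℝ) / 10 ^ 14 = 1000 * E := by rw [hE]; ring
  have e15 : (n : ℝ) / 10 ^ 15 = 100 * E := by rw [hE]; ring
  have e16 : (n : ℝ) / 10 ^ 16 = 10 * E := by rw [hE]; ring
  have htE : (t : ℝ) ≤ E / 1000 := by
    have h1 : (10 : ℝ) ^ 20 * t ≤ n := by exact_mod_cast hC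
    rw [hE] at h1
    have h2 : (10 : ℝ) ^ 17 * (1000 * t) ≤ 10 ^ 17 * E :=
      (show (10 : ℝ) ^ 17 * (1000 * t) = 10 ^ 20 * t by ring).le.trans h1
    have h3 := le_of_mul_le_mul_left h2 (by positivity)
    linarith
  have hlog10 : Real.log 10 ≤ 3 := by
    have h1 : Real.log 10 = Real.log 2 + Real.log 5 := by
      rw [← Real.log_mul (by norm_num) (by norm_num)]; norm_num
    have h2 : Real.log 5 ≤ Real.log 8 := Real.log_le_log (by norm_num) (by norm_num)
    have h3 : Real.log 8 = 3 * Real.log 2 := by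
      rw [show (8 : ℝ) = 2 ^ 3 by norm_num, Real.log_pow]; norm_num
    have h4 := Real.log_two_lt_d9
    linarith
  have hlog10' : 0 ≤ Real.log 10 := Real.log_nonneg (by norm_num)
  have hE0 : (0 : ℝ) < E := lt_of_lt_of_le (by positivity) hEbig
  have hE100 : (10 : ℝ) ^ 6 ≤ E := le_trans (by norm_num) hEbig
  -- naturals
  have htn : 1000 * t ≤ n := by
    calc 1000 * t ≤ 10 ^ 20 * t := Nat.mul_le_mul_right _ (by norm_num)
      _ ≤ n := hC
  have hf : (0 : ℝ) < ((n - t)! : ℝ) := by positivity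
  -- no agreement `t - 1` inside `F`
  have hno : ∀ σ ∈ F, ∀ τ ∈ F, agr σ τ ≠ t - 1 := by
    intro σ hσ τ hτ h
    by_cases hst : σ = τ
    · subst hst
      rw [agr_self] at h
      omega
    · exact hF σ hσ τ hτ hst h
  have hm : ((t - 1 : ℕ) : ℝ) ≤ t := by exact_mod_cast Nat.sub_le t 1
  -- pieces
  obtain ⟨P, hPdef⟩ : ∃ P : Finset (Finset (Fin n × Fin n)), ∀ Y, Y ∈ P ↔
      ∃ A : Finset (Perm (Fin n)), A ⊆ F ∧ InSt Y A ∧ Spr 6 Y A ∧ Den (2000 * E) Y A :=
    ⟨univ.filter fun Y => ∃ A : Finset (Perm (Fin n)), A ⊆ F ∧ InSt Y A ∧ Spr 6 Y A ∧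
      Den (2000 * E) Y A, fun Y => by simp⟩
  have hP : ∀ Y ∈ P, ∃ A : Finset (Perm (Fin n)), A ⊆ F ∧ InSt Y A ∧ Spr 6 Y A ∧
      Den (2000 * E) Y A := fun Y hY => (hPdef Y).mp hY
  have hrest : ((F.filter fun σ => ∀ Y ∈ P, ¬ Y ⊆ gr σ).card : ℝ) < ((n - t)! : ℝ) / 10 := by
    by_contra hc
    push Not at hc
    have h1 : (n - 2 * t)! ≤ (F.filter fun σ => ∀ Y ∈ P, ¬ Y ⊆ gr σ).card := by
      have h2 : 10 * (n - 2 * t)! ≤ (n - t)! := by
        have h3 : (n - t)! = (n - t) * (n - t - 1)! := by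
          rw [Nat.mul_factorial_pred (by omega)]
        rw [h3]
        exact Nat.mul_le_mul (by omega) (Nat.factorial_le (by omega))
      have h4 : (10 : ℝ) * ((n - 2 * t)! : ℝ) ≤ ((n - t)! : ℝ) := by exact_mod_cast h2
      have h5 : ((n - 2 * t)! : ℝ) ≤ ((F.filter fun σ => ∀ Y ∈ P, ¬ Y ⊆ gr σ).card : ℝ) := by
        linarith
      exact_mod_cast h5
    obtain ⟨Y, A, hA, hS, hp, hD⟩ := link_piece hdl hn (c := Real.log 10)
      (by rw [e14]; linarith) (G := F.filter fun σ => ∀ Y ∈ P, ¬ Y ⊆ gr σ)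
      (fun σ hσ τ hτ => hF σ (mem_filter.mp hσ).1 τ (mem_filter.mp hτ).1) h1
      (by rw [Real.exp_log (by norm_num)]; linarith)
    have hYP : Y ∈ P := (hPdef Y).mpr ⟨A, hA.trans (filter_subset _ _), hS, hp,
      hD.mono (by rw [e15, e16]; linarith)⟩
    obtain ⟨σ, hσ⟩ := hD.nonempty
    exact (mem_filter.mp (hA hσ)).2 Y hYP (hS σ hσ)
  have hint : ∀ X ∈ P, ∀ Y ∈ P, t ≤ (X ∩ Y).card := by
    intro X hX Y hY
    by_contra hlt
    push Not at hlt
    obtain ⟨A1, hA1, hS1, hp1, hD1⟩ := hP X hX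
    obtain ⟨A2, hA2, hS2, hp2, hD2⟩ := hP Y hY
    obtain ⟨σ, hσ, τ, hτ, h⟩ := cross_init hn15 hS1 hS2 hp1 hp2 hD1 hD2 (t - 1) (by omega)
      (by rw [e13]; linarith) (by rw [e13]; linarith)
    exact hno σ (hA1 hσ) τ (hA2 hτ) h
  have hd0 : 0 ≤ 2000 * E := by linarith
  have hsz : ∀ X ∈ P, X.card ≤ t + (⌊2000 * E⌋₊ - t) := by
    intro X hX
    obtain ⟨A1, hA1, hS1, hp1, hD1⟩ := hP X hX
    have h1 := hD1.card_le hS1
    have h2 : X.card ≤ ⌊2000 * E⌋₊ := Nat.le_floor h1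
    omega
  have htfl : t ≤ ⌊2000 * E⌋₊ := Nat.le_floor (by linarith)
  obtain ⟨X₀, hX₀, hlay⟩ := layer t (⌊2000 * E⌋₊ - t) ht (by
    rw [Nat.add_sub_cancel' htfl]
    have h1 : ((⌊2000 * E⌋₊ : ℕ) : ℝ) ≤ 2000 * E := Nat.floor_le hd0
    have h2 : (220 : ℝ) * ((⌊2000 * E⌋₊ : ℕ) : ℝ) ≤ n := by rw [hE]; linarith
    exact_mod_cast h2) P hint hsz
  refine ⟨X₀, hX₀, ?_⟩
  set A₀ := F.filter fun σ => X₀ ⊆ gr σ with hA₀
  set G := F.filter fun σ => ¬ X₀ ⊆ gr σ with hG
  have hsplit : A₀.card + G.card = F.card := card_filter_add_card_filter_not _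
  have hGle : (G.card : ℝ) ≤ ((n - t)! : ℝ) / 5 := by
    have h1 : G.card ≤ (F.filter fun σ => ∀ Y ∈ P, ¬ Y ⊆ gr σ).card +
        ((univ : Finset (Perm (Fin n))).filter fun σ => (∃ X ∈ P, X ⊆ gr σ) ∧
        ¬ X₀ ⊆ gr σ).card := by
      refine (card_le_card ?_).trans (card_union_le _ _)
      intro σ hσ
      rw [hG, mem_filter] at hσ
      rw [mem_union, mem_filter, mem_filter]
      by_cases hc : ∃ X ∈ P, X ⊆ gr σ
      · exact Or.inr ⟨mem_univ _, hc, hσ.2⟩
      · push Not at hc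
        exact Or.inl ⟨hσ.1, hc⟩
    have h2 : (10 : ℝ) * (((univ : Finset (Perm (Fin n))).filter fun σ => (∃ X ∈ P, X ⊆ gr σ) ∧
        ¬ X₀ ⊆ gr σ).card : ℝ) ≤ ((n - t)! : ℝ) := by exact_mod_cast hlay
    have h3 : (G.card : ℝ) ≤ ((F.filter fun σ => ∀ Y ∈ P, ¬ Y ⊆ gr σ).card : ℝ) +
        (((univ : Finset (Perm (Fin n))).filter fun σ => (∃ X ∈ P, X ⊆ gr σ) ∧
        ¬ X₀ ⊆ gr σ).card : ℝ) := by exact_mod_cast h1
    linarith
  have hcard' : ((n - t)! : ℝ) ≤ F.card := by exact_mod_cast hcard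
  have hsplit' : (A₀.card : ℝ) + G.card = F.card := by exact_mod_cast hsplit
  have hA₀ge : (4 / 5 : ℝ) * ((n - t)! : ℝ) ≤ A₀.card := by linarith
  have hA₀F : A₀ ⊆ F := filter_subset _ _
  have hGF : G ⊆ F := filter_subset _ _
  have hA₀st : InSt X₀ A₀ := fun σ hσ => (mem_filter.mp hσ).2
  have hstar : (st X₀).card ≤ (n - t)! := by
    have := card_st_le X₀
    rwa [hX₀] at this
  rcases G.eq_empty_or_nonempty with hGe | ⟨σ₀, hσ₀⟩
  · -- `F` is inside the star
    have hFst : F ⊆ st X₀ := by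
      intro σ hσ
      rw [mem_st]
      by_contra hc
      have : σ ∈ G := mem_filter.mpr ⟨hσ, hc⟩
      rw [hGe] at this
      simp at this
    exact eq_of_subset_of_card_le hFst (hstar.trans hcard)
  · exfalso
    have hσ₀' := (mem_filter.mp hσ₀)
    obtain ⟨π₀, hπ₀⟩ : A₀.Nonempty := by
      rw [← Finset.card_pos]
      have : (0 : ℝ) < A₀.card := by linarith
      exact_mod_cast this
    have hns := nSigma t ht (by omega) X₀ hX₀ π₀ (hA₀st π₀ hπ₀) σ₀ hσ₀'.2
    -- permutations of the star agreeing with a member of `G` in `t - 1` places are not in `A₀`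
    have hNG : ∀ N ⊆ st X₀, (∀ τ ∈ N, ∃ σ ∈ G, agr σ τ = t - 1) → N.card ≤ G.card := by
      intro N hN hN'
      have hdis : Disjoint A₀ N := by
        rw [disjoint_left]
        intro τ hτ hτ'
        obtain ⟨σ, hσ, h⟩ := hN' τ hτ'
        exact hno σ (hGF hσ) τ (hA₀F hτ) h
      have hle : A₀.card + N.card ≤ (n - t)! := by
        rw [← card_union_of_disjoint hdis]
        exact (card_le_card (union_subset hA₀st.subset hN)).trans hstar
      omega
    have hGbig : (n - 2 * t)! ≤ G.card :=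
      hns.trans (hNG _ (filter_subset _ _) fun τ hτ => ⟨σ₀, hσ₀, (mem_filter.mp hτ).2⟩)
    have hGav : IsAvoiding t G := fun σ hσ τ hτ => hF σ (hGF hσ) τ (hGF hτ)
    have hGpos : (0 : ℝ) < G.card := by
      exact_mod_cast Finset.card_pos.mpr ⟨σ₀, hσ₀⟩
    by_cases hcase : ((n - t)! : ℝ) ≤ Real.exp (n / 10 ^ 14) * G.card
    · -- dense case
      obtain ⟨Y', A', hA'G, hS', hp', hD'⟩ := link_piece hdl hn (c := n / 10 ^ 14) le_rfl
        hGav hGbig hcase
      have hDA₀ : Den (t + 1) X₀ A₀ := by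
        unfold Den
        rw [hX₀, Real.exp_add]
        have h1 : (2.7 : ℝ) ≤ Real.exp 1 := by have := Real.exp_one_gt_d9; linarith
        have h2 : (0 : ℝ) < Real.exp t := Real.exp_pos _
        calc ((n - t)! : ℝ) * Real.exp t ≤ (Real.exp t * 2.7) * (4 / 5 * ((n - t)! : ℝ)) := by
              nlinarith [mul_pos h2 hf]
          _ ≤ (Real.exp t * Real.exp 1) * A₀.card := by gcongr
      have hpA₀ : Spr 6 X₀ A₀ := by
        intro q hq
        have h1 : (lk A₀ q).card ≤ (n - t - 1)! := by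
          have h2 := card_le_card (inSt_insert_lk hA₀st q).subset
          have h3 := card_st_le (insert q X₀)
          rw [card_insert_of_notMem hq, hX₀] at h3
          exact h2.trans h3
        have h2 : (n - t)! = (n - t) * (n - t - 1)! := by
          rw [Nat.mul_factorial_pred (by omega)]
        have h3 : (n : ℝ) ≤ (24 / 5 : ℝ) * ((n - t : ℕ) : ℝ) := by
          have h4 : n * 5 ≤ 24 * (n - t) := by omega
          have h5 : (n : ℝ) * 5 ≤ 24 * ((n - t : ℕ) : ℝ) := by exact_mod_cast h4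
          linarith
        have h6 : ((n : ℝ)) * ((lk A₀ q).card : ℝ) ≤ 6 * (A₀.card : ℝ) := by
          calc (n : ℝ) * ((lk A₀ q).card : ℝ) ≤ (24 / 5 : ℝ) * ((n - t : ℕ) : ℝ) *
                ((n - t - 1)! : ℝ) := by
                gcongr
            _ = 6 * (4 / 5 * ((n - t)! : ℝ)) := by
                rw [h2]
                push_cast
                ring
            _ ≤ _ := by gcongr
        exact_mod_cast h6
      have hXY : (X₀ ∩ Y').card ≤ t - 1 := by
        by_contra hc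
        push Not at hc
        have h1 : X₀ ∩ Y' = X₀ := by
          apply eq_of_subset_of_card_le inter_subset_left
          rw [hX₀]
          omega
        obtain ⟨σ, hσ⟩ := hD'.nonempty
        have h2 : X₀ ⊆ gr σ := by
          rw [← h1]
          exact inter_subset_right.trans (hS' σ hσ)
        exact (mem_filter.mp (hA'G hσ)).2 h2
      obtain ⟨σ, hσ, τ, hτ, h⟩ := cross_init hn15 hA₀st hS' hpA₀ hp' hDA₀ hD' (t - 1) hXY
        (by rw [e13]; linarith) (by rw [e13, e14, e15, e16]; linarith)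
      exact hno σ (hA₀F hσ) τ (hGF (hA'G hτ)) h
    · -- sparse case
      push Not at hcase
      obtain ⟨u, hu, hul⟩ := hdl G hGav hGbig
      set A := G.filter fun σ => u ⊆ gr σ with hA
      have hAG : A ⊆ G := filter_subset _ _
      have hAu : InSt u A := fun σ hσ => (mem_filter.mp hσ).2
      have hAne : A.Nonempty := by
        rw [nonempty_iff_ne_empty]
        intro h0
        rw [h0, card_empty, Nat.cast_zero, mul_zero, zero_mul] at hul
        have : (0 : ℝ) < (G.card : ℝ) * ((n - u.card)! : ℝ) := by positivity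
        linarith
      have hun : 10 ^ 15 * u.card ≤ n := by
        have h1 : (10 : ℝ) ^ 15 * u.card ≤ n := by
          rw [e16] at hu
          rw [hE]
          linarith
        exact_mod_cast h1
      have hu2 : 1000 * u.card ≤ n := by
        calc 1000 * u.card ≤ 10 ^ 15 * u.card := Nat.mul_le_mul_right _ (by norm_num)
          _ ≤ n := hun
      obtain ⟨R, hR⟩ : ∃ R : Finset (Fin n), R = (u.image Prod.fst ∪ X₀.image Prod.fst)ᶜ :=
        ⟨_, rfl⟩
      have hRu : Disjoint R (u.image Prod.fst) := by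
        rw [hR]
        exact disjoint_compl_left.mono_right subset_union_left
      have hRX : Disjoint R (X₀.image Prod.fst) := by
        rw [hR]
        exact disjoint_compl_left.mono_right subset_union_right
      have hRc : n ≤ 2 * R.card := by
        rw [hR, card_compl, Fintype.card_fin]
        have h1 := card_union_le (u.image Prod.fst) (X₀.image Prod.fst)
        have h2 := card_image_le (s := u) (f := Prod.fst)
        have h3 := card_image_le (s := X₀) (f := Prod.fst)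
        omega
      obtain ⟨Q, hQ⟩ : ∃ Q : ℕ, Q = 10 ^ 15 := ⟨_, rfl⟩
      obtain ⟨m', hm'⟩ : ∃ m' : ℕ, m' = n / (2 * 10 ^ 15) := ⟨_, rfl⟩
      have hm1 : m' * (2 * 10 ^ 15) ≤ n := by rw [hm']; exact Nat.div_mul_le_self n _
      have hm2 : 2 * t + 2 ≤ m' := by
        rw [hm', Nat.le_div_iff_mul_le (by norm_num)]
        calc (2 * t + 2) * (2 * 10 ^ 15) ≤ (4 * t) * (2 * 10 ^ 15) :=
              Nat.mul_le_mul_right _ (by omega)
          _ = (8 * 10 ^ 15) * t := by ring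
          _ ≤ 10 ^ 20 * t := Nat.mul_le_mul_right _ (by norm_num)
          _ ≤ n := hC
      obtain ⟨K, hKR, hKc, hproj⟩ := proj hAu hAne R hRu (Q := Q) (m := m')
        (by rw [hQ]; norm_num) (by rw [hQ]; omega)
      have hexp := expand ht X₀ hX₀ π₀ (hA₀st π₀ hπ₀) K hKc (hRX.mono_left hKR) hm2
        (by omega) A (fun σ hσ => (mem_filter.mp (hAG hσ)).2)
      have hNle : ((st X₀).filter fun τ => ∃ σ ∈ A, agr σ τ = t - 1).card ≤ G.card := by
        refine hNG _ (filter_subset _ _) fun τ hτ => ?_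
        obtain ⟨σ, hσ, h⟩ := (mem_filter.mp hτ).2
        exact ⟨σ, hAG hσ, h⟩
      have hE1 : ((n - t)! : ℝ) * ((A.image (rs K)).card : ℝ) ≤
          t * n * G.card * (n : ℝ) ^ m' := by
        have h1 : (n - t)! * (A.image (rs K)).card ≤ t * n * G.card * n ^ m' := by
          refine hexp.trans ?_
          exact Nat.mul_le_mul (Nat.mul_le_mul_left _ hNle) (Nat.descFactorial_le_pow _ _)
        exact_mod_cast h1
      exact final_num hn (by omega) hQ (a := u.card) (m' := m') hf hGpos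
        (Nat.cast_nonneg _) hE1 hproj hul hcase

theorem of_star {n t : ℕ} (ht : 1 ≤ t) (htn : t ≤ n)
    (hS : ∀ F : Finset (Perm (Fin n)), IsAvoiding t F → (n - t)! ≤ F.card →
      ∃ X₀ : Finset (Fin n × Fin n), X₀.card = t ∧ F = st X₀) :
    Coincide n t ∧ ∀ F : Finset (Perm (Fin n)), IsLargest (IsAvoiding t) F ↔
      ∃ (S : Finset (Fin n)) (π : Perm (Fin n)), S.card = t ∧
        F = univ.filter fun σ => ∀ i ∈ S, σ i = π i := by
  classical
  obtain ⟨F₁, hF₁, hF₁c⟩ := star_exists (n := n) htn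
  -- stars of partial permutations of size `t`
  have hst : ∀ F : Finset (Perm (Fin n)), IsAvoiding t F → (n - t)! ≤ F.card →
      F.card = (n - t)! ∧ IsIntersecting t F ∧
      ∃ (S : Finset (Fin n)) (π : Perm (Fin n)), S.card = t ∧
        F = univ.filter fun σ => ∀ i ∈ S, σ i = π i := by
    intro F hF hc
    obtain ⟨X₀, hX₀, rfl⟩ := hS F hF hc
    have hle := card_st_le X₀
    rw [hX₀] at hle
    obtain ⟨π, hπ⟩ : (st X₀).Nonempty := by
      rw [← Finset.card_pos]
      exact lt_of_lt_of_le (Nat.factorial_pos _) hc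
    rw [mem_st] at hπ
    refine ⟨le_antisymm hle hc, st_intersecting hX₀, X₀.image Prod.fst, π, ?_, ?_⟩
    · rw [card_fst hπ, hX₀]
    · ext σ
      simp only [mem_st, mem_filter, mem_univ, true_and, mem_image, Prod.exists, exists_and_right,
        exists_eq_right, forall_exists_index]
      constructor
      · intro h i j hij
        rw [mem_gr.mp (h hij), mem_gr.mp (hπ hij)]
      · rintro h ⟨i, j⟩ hij
        rw [mem_gr]
        have := h i j hij
        rw [this]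
        exact mem_gr.mp (hπ hij)
  have hav : ∀ F : Finset (Perm (Fin n)), IsAvoiding t F → F.card ≤ (n - t)! := by
    intro F hF
    by_contra hlt
    push Not at hlt
    have := (hst F hF hlt.le).1
    omega
  constructor
  · intro F
    constructor
    · rintro ⟨hF, hmax⟩
      have h1 : (n - t)! ≤ F.card := by
        rw [← hF₁c]
        exact hmax F₁ (hF₁.avoiding ht)
      obtain ⟨h2, h3, -⟩ := hst F hF h1
      exact ⟨h3, fun G hG => by rw [h2]; exact hav G (hG.avoiding ht)⟩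
    · rintro ⟨hF, hmax⟩
      have h1 : (n - t)! ≤ F.card := by
        rw [← hF₁c]
        exact hmax F₁ hF₁
      exact ⟨hF.avoiding ht, fun G hG => (hav G hG).trans h1⟩
  · intro F
    constructor
    · rintro ⟨hF, hmax⟩
      have h1 : (n - t)! ≤ F.card := by
        rw [← hF₁c]
        exact hmax F₁ (hF₁.avoiding ht)
      exact (hst F hF h1).2.2
    · rintro ⟨S, π, hS, rfl⟩
      have hc : (univ.filter fun σ : Perm (Fin n) => ∀ i ∈ S, σ i = π i) =
          st (S.image fun i => (i, π i)) := by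
        ext σ
        simp only [mem_st, mem_filter, mem_univ, true_and, image_subset_iff, mem_gr]
      have hX : (S.image fun i => (i, π i)).card = t := by
        rw [Finset.card_image_of_injective _ (fun a b h => (Prod.mk.inj h).1), hS]
      have hcard : (st (S.image fun i => (i, π i))).card = (n - t)! := by
        rw [← hX]
        apply card_st (σ₀ := π)
        intro q hq
        rw [mem_image] at hq
        obtain ⟨i, -, rfl⟩ := hq
        rw [mem_gr]
      rw [hc]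
      refine ⟨(st_intersecting hX).avoiding ht, fun G hG => ?_⟩
      rw [hcard]
      exact hav G hG

/-- For an absolute constant `C` and `n ≥ C t`, the largest families of permutations of an
`n`-set without two members agreeing in exactly `t - 1` points are the cosets of the pointwise
stabilisers of `t` points. -/
theorem mainL : ∃ C : ℕ, ∀ t n : ℕ, 1 ≤ t → C * t ≤ n →
    Coincide n t ∧ ∀ F : Finset (Perm (Fin n)), IsLargest (IsAvoiding t) F ↔
      ∃ (S : Finset (Fin n)) (π : Perm (Fin n)), S.card = t ∧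
        F = univ.filter fun σ => ∀ i ∈ S, σ i = π i := by
  obtain ⟨C₀, hC₀⟩ := dense_link
  refine ⟨10 ^ 40 * (C₀ + 1), ?_⟩
  intro t n ht hn
  have h1 : 10 ^ 40 * t ≤ n := by
    calc 10 ^ 40 * t ≤ 10 ^ 40 * (C₀ + 1) * t := by
          rw [mul_assoc]
          exact Nat.mul_le_mul_left _ (Nat.le_mul_of_pos_left t (by omega))
      _ ≤ n := hn
  rcases lt_or_ge t C₀ with htC | htC
  · -- small `t`
    obtain ⟨hn2, hC⟩ := range (t := t) (n := n) ht (by
      have h2 : (10 : ℝ) ^ 40 * (C₀ + 1) * t ≤ n := by exact_mod_cast hn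
      refine le_trans ?_ h2
      have h3 : Real.log (t + 1) ≤ C₀ + 1 := by
        have h4 := Real.log_le_sub_one_of_pos (show (0 : ℝ) < t + 1 by positivity)
        have h5 : (t : ℝ) ≤ C₀ := by exact_mod_cast htC.le
        linarith
      have h6 : (0 : ℝ) ≤ t := Nat.cast_nonneg t
      calc (10 : ℝ) ^ 16 * (t : ℝ) * Real.log (t + 1) ≤
            (10 : ℝ) ^ 16 * (t : ℝ) * ((C₀ : ℝ) + 1) := by gcongr
        _ ≤ (10 : ℝ) ^ 40 * (t : ℝ) * ((C₀ : ℝ) + 1) := by gcongr <;> norm_num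
        _ = _ := by ring)
    exact main ht hn2 hC
  · have h2 : 10 ^ 40 ≤ n := by
      calc 10 ^ 40 = 10 ^ 40 * 1 := (mul_one _).symm
        _ ≤ 10 ^ 40 * t := Nat.mul_le_mul_left _ ht
        _ ≤ n := h1
    have h3 : 10 ^ 20 * t ≤ n :=
      (Nat.mul_le_mul_right t (show 10 ^ 20 ≤ 10 ^ 40 by norm_num)).trans h1
    have h4 : C₀ * t ≤ n := by
      calc C₀ * t ≤ 10 ^ 40 * (C₀ + 1) * t := Nat.mul_le_mul_right _ (by nlinarith)
        _ ≤ n := hn
    have htn : t ≤ n := le_trans (by nlinarith) h3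
    exact of_star ht htn fun F hF hc => mainStarL (hC₀ t n htC h4) ht h2 h3 F hF hc

end Pool.Agent.CL24
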