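import Pool.Agent.CL24.Base
import Pool.Agent.TotGap.BT

/-!
# Prime pairs `p, p + d`: an upper bound of the right order, uniform in `d`
-/

set_option autoImplicit false

namespace Pool.Agent.CL24

open Finset Pool.Agent.H14Trans Pool.Agent.TotGap

private lemma bd_mod (d b s : ℕ) : bd 1 0 {0, d} b s ↔ bd 1 0 {0, d % b} b s := by
  have h : b ∣ 1 * s + (0 + d) ↔ b ∣ 1 * s + (0 + d % b) := by
    have e : 1 * s + (0 + d) = (1 * s + (0 + d % b)) + b * (d / b) := by
      have := Nat.mod_add_div d b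
      omega
    rw [e]
    exact (Nat.dvd_add_iff_left (Dvd.intro _ rfl)).symm
  unfold bd
  simp only [mem_insert, mem_singleton, exists_eq_or_imp, exists_eq_left, h]

private lemma good_pair (d w : ℕ) : Good (bd 1 0 {0, d}) (fun b => #({0, d % b} : Finset ℕ))
    ((Ioc 2 w).filter Nat.Prime) := by
  refine ⟨?_, ?_, ?_, ?_⟩
  · intro b hb
    rw [mem_filter] at hb
    exact hb.2.pos
  · intro b _ s
    exact bd_periodic 1 0 {0, d} b s
  · intro b hb
    rw [mem_filter, mem_Ioc] at hb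
    have h1 := card_bd (b := b) (c := 1) (e := 0) (n := b - 1) (A := {0, d % b}) (by
      intro a ha
      simp only [mem_insert, mem_singleton] at ha
      have := Nat.mod_lt d (by omega : 0 < b)
      omega) (by omega) (Nat.coprime_one_left b)
    rw [← h1]
    congr 1
    ext s
    simp only [mem_filter, bd_mod d b s]
  · intro b hb c hc hbc
    rw [mem_filter] at hb hc
    exact (Nat.coprime_primes hb.2 hc.2).mpr hbc

private lemma lay_mass_pair {y₀ i w : ℕ} (hy₀ : 2 ≤ y₀) :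
    ∑ b ∈ lay y₀ ((Ioc 2 w).filter Nat.Prime) i, (1 : ℝ) / b ≤ 16 := by
  have h2 : 2 ≤ y₀ ^ (2 ^ i) := by
    calc 2 ≤ y₀ := hy₀
      _ ≤ y₀ ^ (2 ^ i) := Nat.le_self_pow (by positivity) _
  refine mass_le (y := y₀ ^ (2 ^ i)) ?_ ?_ h2 ?_ ?_
  · intro b hb
    simp only [lay, mem_filter] at hb
    exact hb.1.2.two_le
  · intro b hb c hc hbc
    simp only [lay, mem_filter] at hb hc
    exact (Nat.coprime_primes hb.1.2 hc.1.2).mpr hbc
  · intro b hb
    simp only [lay, mem_filter] at hb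
    exact hb.2.1
  · intro b hb
    simp only [lay, mem_filter] at hb
    have := hb.2.2
    rwa [pow_succ, pow_mul] at this

private lemma one_le_sing (d : ℕ) : (1 : ℝ) ≤ ∏ p ∈ d.primeFactors, (1 + 1 / (p : ℝ)) := by
  have h : ∏ p ∈ d.primeFactors, (1 : ℝ) ≤ ∏ p ∈ d.primeFactors, (1 + 1 / (p : ℝ)) := by
    refine prod_le_prod (fun _ _ => zero_le_one) (fun p _ => ?_)
    have : (0 : ℝ) ≤ 1 / (p : ℝ) := by positivity
    linarith
  simpa using h

private lemma card_two (d b : ℕ) : #({0, d % b} : Finset ℕ) = if b ∣ d then 1 else 2 := by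
  by_cases h : b ∣ d
  · rw [if_pos h, Nat.mod_eq_zero_of_dvd h]
    simp
  · rw [if_neg h]
    refine card_pair ?_
    intro h0
    exact h (Nat.dvd_of_mod_eq_zero h0.symm)

private lemma prod_pair_le {w d : ℕ} (hw : 2 ≤ w) (hd : d ≠ 0) :
    ∏ b ∈ (Ioc 2 w).filter Nat.Prime, (1 - ((#({0, d % b} : Finset ℕ) : ℕ) : ℝ) / b) ≤
      (2 * Real.exp 14 * (Real.log 2 / Real.log w)) ^ 2 *
        (Real.exp 2 * ∏ p ∈ d.primeFactors, (1 + 1 / (p : ℝ))) := by
  have h1 := prime_prod_le (u := 2) (v := w) le_rfl hw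
  set D := (Ioc 2 w).filter Nat.Prime with hD
  have hb3 : ∀ b ∈ D, (3 : ℝ) ≤ b := by
    intro b hb
    rw [hD, mem_filter, mem_Ioc] at hb
    exact_mod_cast hb.1.1
  have hstep : ∏ b ∈ D, (1 - ((#({0, d % b} : Finset ℕ) : ℕ) : ℝ) / b) ≤
      ∏ b ∈ D, ((1 - (1 : ℝ) / b) ^ 2 *
        (Real.exp (2 * (1 / (b : ℝ) ^ 2)) * (if b ∣ d then (1 + 1 / (b : ℝ)) else 1))) := by
    refine prod_le_prod (fun b hb => ?_) (fun b hb => ?_)
    · have h3 := hb3 b hb
      rw [card_two, sub_nonneg, div_le_one (by linarith)]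
      split_ifs <;> push_cast <;> linarith
    · have h3 := hb3 b hb
      set t : ℝ := 1 / (b : ℝ) with ht
      have ht0 : 0 ≤ t := by positivity
      have ht1 : t ≤ 1 / 3 := by
        rw [ht]
        exact one_div_le_one_div_of_le (by norm_num) h3
      have e1 : 1 / (b : ℝ) ^ 2 = t ^ 2 := by rw [ht]; ring
      have hexp : 1 + 2 * t ^ 2 ≤ Real.exp (2 * t ^ 2) := by
        have := Real.add_one_le_exp (2 * t ^ 2)
        linarith
      rw [card_two, e1]
      split_ifs with hbd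
      · have e2 : ((1 : ℕ) : ℝ) / b = t := by rw [ht]; push_cast; ring
        rw [e2]
        have h4 : 1 - t ≤ (1 - t) ^ 2 * ((1 + 2 * t ^ 2) * (1 + t)) := by
          have h5 : (1 - t) ^ 2 * ((1 + 2 * t ^ 2) * (1 + t)) - (1 - t) =
              (1 - t) * (t ^ 2 * (1 - 2 * t ^ 2)) := by ring
          have h6 : 0 ≤ (1 - t) * (t ^ 2 * (1 - 2 * t ^ 2)) := by
            have : 0 ≤ 1 - t := by linarith
            have : 0 ≤ 1 - 2 * t ^ 2 := by nlinarith
            positivity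
          linarith
        refine h4.trans ?_
        gcongr
      · have e2 : ((2 : ℕ) : ℝ) / b = 2 * t := by rw [ht]; push_cast; ring
        rw [e2, mul_one]
        have h4 : 1 - 2 * t ≤ (1 - t) ^ 2 * 1 := by nlinarith
        refine h4.trans ?_
        have : (1 : ℝ) ≤ Real.exp (2 * t ^ 2) := by
          have : 0 ≤ 2 * t ^ 2 := by positivity
          linarith
        gcongr
  refine hstep.trans ?_
  rw [prod_mul_distrib, prod_mul_distrib, prod_pow]
  have hA0 : 0 ≤ ∏ b ∈ D, (1 - (1 : ℝ) / b) := by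
    refine prod_nonneg fun b hb => ?_
    have h3 := hb3 b hb
    rw [sub_nonneg, div_le_one (by linarith)]
    linarith
  have hA : (∏ b ∈ D, (1 - (1 : ℝ) / b)) ^ 2 ≤
      (2 * Real.exp 14 * (Real.log 2 / Real.log w)) ^ 2 :=
    pow_le_pow_left₀ hA0 (by exact_mod_cast h1) 2
  have hB : ∏ b ∈ D, Real.exp (2 * (1 / (b : ℝ) ^ 2)) ≤ Real.exp 2 := by
    rw [← Real.exp_sum, ← mul_sum]
    refine Real.exp_le_exp.mpr ?_
    have hsum : ∑ b ∈ D, 1 / (b : ℝ) ^ 2 ≤ 1 := by
      refine le_trans ?_ (sum_inv_sq_le w)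
      refine sum_le_sum_of_subset_of_nonneg ?_ (fun m _ _ => by positivity)
      intro b hb
      rw [hD, mem_filter, mem_Ioc] at hb
      rw [mem_Icc]
      omega
    linarith
  have hCC : ∏ b ∈ D, (if b ∣ d then (1 + 1 / (b : ℝ)) else 1) ≤
      ∏ p ∈ d.primeFactors, (1 + 1 / (p : ℝ)) := by
    rw [← prod_filter]
    have hsub : D.filter (fun b => b ∣ d) ⊆ d.primeFactors := by
      intro b hb
      rw [mem_filter, hD, mem_filter] at hb
      exact Nat.mem_primeFactors.mpr ⟨hb.1.2, hb.2, hd⟩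
    rw [← prod_sdiff hsub]
    refine le_mul_of_one_le_left (prod_nonneg fun b _ => by positivity) ?_
    have h1 : ∏ p ∈ d.primeFactors \ D.filter (fun b => b ∣ d), (1 : ℝ) ≤
        ∏ p ∈ d.primeFactors \ D.filter (fun b => b ∣ d), (1 + 1 / (p : ℝ)) := by
      refine prod_le_prod (fun _ _ => zero_le_one) (fun p _ => ?_)
      have : (0 : ℝ) ≤ 1 / (p : ℝ) := by positivity
      linarith
    simpa using h1
  have hC0 : 0 ≤ ∏ b ∈ D, (if b ∣ d then (1 + 1 / (b : ℝ)) else 1) := by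
    refine prod_nonneg fun b _ => ?_
    split_ifs <;> positivity
  exact mul_le_mul hA (mul_le_mul hB hCC hC0 (Real.exp_pos _).le)
    (mul_nonneg (prod_nonneg fun b _ => (Real.exp_pos _).le) hC0) (by positivity)

private lemma log_sq_le {x : ℝ} (hx : 1 ≤ x) : Real.log x ^ 2 ≤ 2 * x := by
  have h0 : 0 ≤ Real.log x := Real.log_nonneg hx
  have h1 := Real.pow_div_factorial_le_exp (Real.log x) h0 2
  rw [Real.exp_log (by linarith)] at h1
  norm_num [Nat.factorial] at h1
  linarith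

/-- Prime pairs with difference `d`, uniformly in `d`. -/
theorem pairs_le : ∃ C : ℝ, 0 < C ∧ ∃ R₀ : ℕ, ∀ R : ℕ, R₀ ≤ R → ∀ d : ℕ, 1 ≤ d → d ≤ R →
    (((range (R + 1)).filter fun p => p.Prime ∧ (p + d).Prime).card : ℝ) ≤
      C * (R / Real.log R ^ 2) * ∏ p ∈ d.primeFactors, (1 + 1 / (p : ℝ)) := by
  classical
  obtain ⟨s₁, hs₁, H⟩ := fundamental 2 16 (by norm_num)
  obtain ⟨J₀, HJ⟩ := H 8 (by norm_num)
  have hs0 : (0 : ℝ) < s₁ := by exact_mod_cast (by omega : 0 < s₁)
  have hl2 : 0 < Real.log 2 := Real.log_pos (by norm_num)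
  refine ⟨4 * ((2 * Real.exp 14 * (Real.log 2 * (2 * s₁))) ^ 2 * Real.exp 2) +
    2 * (2 * s₁) ^ 2, by positivity, (8 ^ (2 ^ J₀)) ^ s₁, ?_⟩
  intro R hR d hd1 _
  obtain ⟨J, hJ, hwy, hyw⟩ := exists_scale (a := 8) (by norm_num) (by omega) hR
  set w := 8 ^ (2 ^ J) with hw
  have hw8 : 8 ≤ w := Nat.le_self_pow (by positivity) _
  have hwley : w ≤ R := (Nat.le_self_pow (by omega) w).trans hwy
  set D := (Ioc 2 w).filter Nat.Prime with hD
  obtain ⟨_, hN⟩ := HJ J hJ (bd 1 0 {0, d}) (fun b => #({0, d % b} : Finset ℕ)) D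
    (good_pair d w) (fun b hb => by
      rw [hD, mem_filter, mem_Ioc] at hb
      have : #({0, d % b} : Finset ℕ) ≤ 2 := card_le_two
      exact ⟨this, by omega⟩) (fun b hb => by
      rw [hD, mem_filter, mem_Ioc] at hb
      exact hb.1.2) (fun i _ => lay_mass_pair (by norm_num))
  have hub := (hN (R + 1) (hwy.trans (Nat.le_succ R))).2
  have hcard : #((range (R + 1)).filter fun p => p.Prime ∧ (p + d).Prime) ≤
      #((range (R + 1)).filter (Sift (bd 1 0 {0, d}) D)) + w := by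
    have hsub : ((range (R + 1)).filter fun p => p.Prime ∧ (p + d).Prime) ⊆
        (range (R + 1)).filter (Sift (bd 1 0 {0, d}) D) ∪ Ioc 0 w := by
      intro m hm
      rw [mem_filter, mem_range] at hm
      rw [mem_union]
      by_cases hmw : m ≤ w
      · right
        rw [mem_Ioc]
        exact ⟨hm.2.1.pos, hmw⟩
      · left
        rw [mem_filter, mem_range]
        refine ⟨hm.1, ?_⟩
        intro b hb hbad
        rw [hD, mem_filter, mem_Ioc] at hb
        obtain ⟨a, ha, hdiv⟩ := hbad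
        have e : 1 * m + (0 + a) = m + a := by omega
        rw [e] at hdiv
        have hp : (m + a).Prime := by
          simp only [mem_insert, mem_singleton] at ha
          rcases ha with rfl | rfl
          · exact hm.2.1
          · exact hm.2.2
        have := (Nat.prime_dvd_prime_iff_eq hb.2 hp).mp hdiv
        omega
    refine (card_le_card hsub).trans ((card_union_le _ _).trans ?_)
    refine Nat.add_le_add le_rfl ?_
    simp
  have hwR : (8 : ℝ) ≤ w := by exact_mod_cast hw8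
  have hlogw : 0 < Real.log w := Real.log_pos (by linarith)
  have hy1 : (1 : ℝ) < R := by
    have : 1 < R := by omega
    exact_mod_cast this
  have hlogy : 0 < Real.log R := Real.log_pos hy1
  have hlog : Real.log R ≤ 2 * s₁ * Real.log w := by
    have h1 : (R : ℝ) ≤ (w : ℝ) ^ (2 * s₁) := by
      have : R ≤ w ^ (2 * s₁) := by
        refine hyw.le.trans ?_
        rw [pow_succ, pow_mul, ← hw, ← pow_mul]
      exact_mod_cast this
    have h2 := Real.log_le_log (by linarith) h1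
    rw [Real.log_pow] at h2
    push_cast at h2
    exact h2
  have hprod := prod_pair_le (w := w) (d := d) (by omega) (by omega)
  have h3 : Real.log 2 / Real.log w ≤ Real.log 2 * (2 * s₁) / Real.log R := by
    rw [div_le_div_iff₀ hlogw hlogy]
    nlinarith
  have hwbd : (w : ℝ) ≤ 2 * (2 * (s₁ : ℝ)) ^ 2 * (R / Real.log R ^ 2) := by
    rw [← mul_div_assoc, le_div_iff₀ (by positivity)]
    have h7 : Real.log R ^ 2 ≤ (2 * (s₁ : ℝ)) ^ 2 * (2 * w) := by
      calc Real.log R ^ 2 ≤ (2 * (s₁ : ℝ) * Real.log w) ^ 2 := by gcongr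
        _ = (2 * (s₁ : ℝ)) ^ 2 * Real.log w ^ 2 := by ring
        _ ≤ (2 * (s₁ : ℝ)) ^ 2 * (2 * w) := by
            have := log_sq_le (x := (w : ℝ)) (by linarith)
            gcongr
    have h8 : (w : ℝ) * w ≤ R := by
      have : w * w ≤ R := by
        calc w * w = w ^ 2 := by ring
          _ ≤ w ^ s₁ := Nat.pow_le_pow_right (by omega) (by omega)
          _ ≤ R := hwy
      exact_mod_cast this
    calc (w : ℝ) * Real.log R ^ 2 ≤ w * ((2 * (s₁ : ℝ)) ^ 2 * (2 * w)) := by gcongr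
      _ = 2 * (2 * (s₁ : ℝ)) ^ 2 * (w * w) := by ring
      _ ≤ 2 * (2 * (s₁ : ℝ)) ^ 2 * R := by gcongr
  set P : ℝ := ∏ p ∈ d.primeFactors, (1 + 1 / (p : ℝ)) with hP
  have hP1 : 1 ≤ P := one_le_sing d
  have hmain : 2 * ((R + 1 : ℕ) : ℝ) *
      (∏ b ∈ D, (1 - ((#({0, d % b} : Finset ℕ) : ℕ) : ℝ) / b)) ≤
      4 * R * ((2 * Real.exp 14 * (Real.log 2 * (2 * s₁) / Real.log R)) ^ 2 *
        (Real.exp 2 * P)) := by
    have hR2 : 2 * ((R + 1 : ℕ) : ℝ) ≤ 4 * R := by push_cast; linarith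
    have h0 : 0 ≤ Real.log 2 / Real.log w := by positivity
    have h10 : (2 * Real.exp 14 * (Real.log 2 / Real.log w)) ^ 2 * (Real.exp 2 * P) ≤
        (2 * Real.exp 14 * (Real.log 2 * (2 * s₁) / Real.log R)) ^ 2 * (Real.exp 2 * P) := by
      gcongr
    have h11 : 0 ≤ (2 * Real.exp 14 * (Real.log 2 * (2 * s₁) / Real.log R)) ^ 2 *
        (Real.exp 2 * P) := by positivity
    calc 2 * ((R + 1 : ℕ) : ℝ) * (∏ b ∈ D, (1 - ((#({0, d % b} : Finset ℕ) : ℕ) : ℝ) / b))
        ≤ 2 * ((R + 1 : ℕ) : ℝ) *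
          ((2 * Real.exp 14 * (Real.log 2 * (2 * s₁) / Real.log R)) ^ 2 * (Real.exp 2 * P)) :=
          mul_le_mul_of_nonneg_left (hprod.trans h10) (by positivity)
      _ ≤ _ := mul_le_mul_of_nonneg_right hR2 h11
  have hRl : 0 ≤ 2 * (2 * (s₁ : ℝ)) ^ 2 * (R / Real.log R ^ 2) := by positivity
  calc ((#((range (R + 1)).filter fun p => p.Prime ∧ (p + d).Prime) : ℕ) : ℝ)
      ≤ (#((range (R + 1)).filter (Sift (bd 1 0 {0, d}) D)) : ℝ) + w := by
        exact_mod_cast hcard
    _ ≤ 4 * R * ((2 * Real.exp 14 * (Real.log 2 * (2 * s₁) / Real.log R)) ^ 2 *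
        (Real.exp 2 * P)) + 2 * (2 * (s₁ : ℝ)) ^ 2 * (R / Real.log R ^ 2) * P := by
        refine add_le_add (hub.trans hmain) ?_
        exact hwbd.trans (le_mul_of_one_le_right hRl hP1)
    _ = _ := by
        field_simp

end Pool.Agent.CL24
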