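import Pool.Agent.CL24.NTa

/-!
# Sums of two primes: the singular series on average and the additive energy (helper2)
-/

set_option autoImplicit false

namespace Pool.Agent.CL24

open Finset Equiv Nat Pool.Agent.H17.PermInt Pool.Agent.FI37

private theorem prod_sq_le (d : ℕ) :
    (∏ p ∈ d.primeFactors, (1 + 1 / (p : ℝ))) ^ 2 ≤ ∏ p ∈ d.primeFactors, (1 + 3 / (p : ℝ)) := by
  rw [← Finset.prod_pow]
  refine Finset.prod_le_prod (fun p _ => by positivity) fun p hp => ?_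
  have hp1 : (1 : ℝ) ≤ p := by exact_mod_cast (Nat.prime_of_mem_primeFactors hp).one_le
  have hp0 : (0 : ℝ) < p := by linarith
  have h : 1 / (p : ℝ) * (1 / p) ≤ 1 / p :=
    mul_le_of_le_one_left (by positivity) (by rw [div_le_one hp0]; exact hp1)
  have e : (3 : ℝ) / p = 3 * (1 / p) := by ring
  rw [e]
  nlinarith

/-- the singular series on average -/
theorem sing_sum : ∃ C : ℝ, 0 < C ∧ ∀ R : ℕ,
    ∑ d ∈ Ioc 0 R, (∏ p ∈ d.primeFactors, (1 + 1 / (p : ℝ))) ^ 2 ≤ C * R := by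
  have hsum : Summable (fun n : ℕ => 1 / (n : ℝ) ^ 2) := Real.summable_one_div_nat_pow.2 one_lt_two
  refine ⟨Real.exp (3 * ∑' n : ℕ, 1 / (n : ℝ) ^ 2), Real.exp_pos _, fun R => ?_⟩
  set P : Finset ℕ := (range (R + 1)).filter Nat.Prime with hP
  set g : Finset ℕ → ℝ := fun S => ∏ p ∈ S, (3 / (p : ℝ)) with hg
  have hg0 : ∀ S, 0 ≤ g S := fun S => Finset.prod_nonneg fun p _ => by positivity
  have hpf : ∀ d ∈ Ioc 0 R, d.primeFactors ⊆ P := by
    intro d hd p hp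
    rw [mem_Ioc] at hd
    have h1 := Nat.prime_of_mem_primeFactors hp
    have h2 := Nat.le_of_dvd hd.1 (Nat.dvd_of_mem_primeFactors hp)
    rw [hP, mem_filter, mem_range]
    exact ⟨by omega, h1⟩
  calc ∑ d ∈ Ioc 0 R, (∏ p ∈ d.primeFactors, (1 + 1 / (p : ℝ))) ^ 2
      ≤ ∑ d ∈ Ioc 0 R, ∑ S ∈ d.primeFactors.powerset, g S := by
        refine sum_le_sum fun d _ => (prod_sq_le d).trans (le_of_eq ?_)
        rw [Finset.prod_one_add]
    _ = ∑ d ∈ Ioc 0 R, ∑ S ∈ P.powerset, if S ⊆ d.primeFactors then g S else 0 := by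
        refine sum_congr rfl fun d hd => ?_
        rw [← sum_filter]
        refine sum_congr ?_ fun _ _ => rfl
        ext S
        rw [mem_powerset, mem_filter, mem_powerset]
        exact ⟨fun h => ⟨h.trans (hpf d hd), h⟩, fun h => h.2⟩
    _ = ∑ S ∈ P.powerset, ∑ d ∈ Ioc 0 R, if S ⊆ d.primeFactors then g S else 0 := sum_comm
    _ ≤ ∑ S ∈ P.powerset, (R : ℝ) * ∏ p ∈ S, (3 / (p : ℝ) ^ 2) := by
        refine sum_le_sum fun S hS => ?_
        rw [mem_powerset] at hS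
        rw [← sum_filter, sum_const, nsmul_eq_mul]
        have hSp : ∀ p ∈ S, p.Prime := fun p hp => (mem_filter.1 (hS hp)).2
        have hpos : 0 < ∏ p ∈ S, p := Finset.prod_pos fun p hp => (hSp p hp).pos
        have hsub : ((Ioc 0 R).filter fun d => S ⊆ d.primeFactors) ⊆
            (Ioc 0 R).filter fun d => (∏ p ∈ S, p) ∣ d := by
          intro d hd
          rw [mem_filter] at hd ⊢
          refine ⟨hd.1, Finset.prod_primes_dvd _ (fun p hp => (hSp p hp).prime) fun p hp =>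
            Nat.dvd_of_mem_primeFactors (hd.2 hp)⟩
        have h1 : (((Ioc 0 R).filter fun d => S ⊆ d.primeFactors).card : ℝ) ≤
            R / ((∏ p ∈ S, p : ℕ) : ℝ) := by
          have h2 := card_le_card hsub
          rw [Nat.Ioc_filter_dvd_card_eq_div] at h2
          calc (((Ioc 0 R).filter fun d => S ⊆ d.primeFactors).card : ℝ) ≤
                ((R / ∏ p ∈ S, p : ℕ) : ℝ) := by exact_mod_cast h2
            _ ≤ _ := Nat.cast_div_le
        calc (((Ioc 0 R).filter fun d => S ⊆ d.primeFactors).card : ℝ) * g S ≤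
              R / ((∏ p ∈ S, p : ℕ) : ℝ) * g S := mul_le_mul_of_nonneg_right h1 (hg0 S)
          _ = R * ∏ p ∈ S, (3 / (p : ℝ) ^ 2) := by
              rw [hg, Nat.cast_prod, div_mul_eq_mul_div, mul_div_assoc, ← Finset.prod_div_distrib]
              congr 1
              refine prod_congr rfl fun p hp => ?_
              rw [div_div, sq]
    _ = (R : ℝ) * ∏ p ∈ P, (1 + 3 / (p : ℝ) ^ 2) := by
        rw [← mul_sum, Finset.prod_one_add]
    _ ≤ (R : ℝ) * Real.exp (3 * ∑' n : ℕ, 1 / (n : ℝ) ^ 2) := by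
        refine mul_le_mul_of_nonneg_left ?_ (Nat.cast_nonneg R)
        calc ∏ p ∈ P, (1 + 3 / (p : ℝ) ^ 2) ≤ ∏ p ∈ P, Real.exp (3 / (p : ℝ) ^ 2) := by
              refine Finset.prod_le_prod (fun p _ => by positivity) fun p _ => ?_
              have := Real.add_one_le_exp (3 / (p : ℝ) ^ 2)
              linarith
          _ = Real.exp (∑ p ∈ P, 3 / (p : ℝ) ^ 2) := (Real.exp_sum _ _).symm
          _ ≤ _ := by
              refine Real.exp_le_exp.2 ?_
              have h1 : ∑ p ∈ P, 3 / (p : ℝ) ^ 2 = 3 * ∑ p ∈ P, 1 / (p : ℝ) ^ 2 := by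
                rw [mul_sum]
                refine sum_congr rfl fun p _ => by ring
              rw [h1]
              refine mul_le_mul_of_nonneg_left ?_ (by norm_num)
              exact hsum.sum_le_tsum P fun n _ => by positivity
    _ = _ := by ring

/-- the number of prime pairs at distance `d` -/
private noncomputable def pd (R d : ℕ) : ℕ :=
  ((range (R + 1)).filter fun p => p.Prime ∧ (p + d).Prime).card

private theorem energy_le (R : ℕ) (A₁ A₂ : Finset ℕ) (h1 : ∀ p ∈ A₁, p.Prime ∧ p ≤ R)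
    (h2 : ∀ p ∈ A₂, p.Prime ∧ p ≤ R) :
    A₁.addEnergy A₂ ≤ A₁.card * A₂.card + 2 * ∑ d ∈ Ioc 0 R, pd R d ^ 2 := by
  classical
  set Q : ℕ → Finset ℕ := fun d => (range (R + 1)).filter fun p => p.Prime ∧ (p + d).Prime with hQ
  -- the three parts
  set X₀ : Finset ((ℕ × ℕ) × (ℕ × ℕ)) :=
    (A₁ ×ˢ A₂).image fun z => ((z.1, z.1), (z.2, z.2)) with hX₀
  set X₁ : Finset ((ℕ × ℕ) × (ℕ × ℕ)) := (Ioc 0 R).biUnion fun d =>
    (Q d ×ˢ Q d).image fun z => ((z.1, z.1 + d), (z.2 + d, z.2)) with hX₁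
  set X₂ : Finset ((ℕ × ℕ) × (ℕ × ℕ)) := (Ioc 0 R).biUnion fun d =>
    (Q d ×ˢ Q d).image fun z => ((z.1 + d, z.1), (z.2, z.2 + d)) with hX₂
  have hsub : (((A₁ ×ˢ A₁) ×ˢ A₂ ×ˢ A₂).filter fun x => x.1.1 + x.2.1 = x.1.2 + x.2.2) ⊆
      X₀ ∪ (X₁ ∪ X₂) := by
    rintro ⟨⟨a, a'⟩, ⟨b, b'⟩⟩ hx
    rw [mem_filter, mem_product, mem_product, mem_product] at hx
    obtain ⟨⟨⟨ha, ha'⟩, ⟨hb, hb'⟩⟩, he⟩ := hx
    dsimp only at ha ha' hb hb' he
    have ka := h1 a ha
    have ka' := h1 a' ha'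
    have kb := h2 b hb
    have kb' := h2 b' hb'
    rw [mem_union, mem_union]
    rcases lt_trichotomy a a' with h | h | h
    · right; left
      rw [hX₁, mem_biUnion]
      refine ⟨a' - a, mem_Ioc.2 ⟨by omega, by omega⟩, ?_⟩
      rw [mem_image]
      refine ⟨(a, b'), mem_product.2 ⟨?_, ?_⟩, ?_⟩
      · rw [hQ, mem_filter, mem_range]
        exact ⟨by dsimp only; omega, ka.1, by rw [show a + (a' - a) = a' by omega]; exact ka'.1⟩
      · rw [hQ, mem_filter, mem_range]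
        exact ⟨by dsimp only; omega, kb'.1, by
          dsimp only
          rw [show b' + (a' - a) = b by omega]; exact kb.1⟩
      · dsimp only
        rw [show a + (a' - a) = a' by omega, show b' + (a' - a) = b by omega]
    · left
      rw [hX₀, mem_image]
      refine ⟨(a, b), mem_product.2 ⟨ha, hb⟩, ?_⟩
      have hbb : b = b' := by omega
      rw [h, hbb]
    · right; right
      rw [hX₂, mem_biUnion]
      refine ⟨a - a', mem_Ioc.2 ⟨by omega, by omega⟩, ?_⟩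
      rw [mem_image]
      refine ⟨(a', b), mem_product.2 ⟨?_, ?_⟩, ?_⟩
      · rw [hQ, mem_filter, mem_range]
        exact ⟨by dsimp only; omega, ka'.1, by rw [show a' + (a - a') = a by omega]; exact ka.1⟩
      · rw [hQ, mem_filter, mem_range]
        exact ⟨by dsimp only; omega, kb.1, by
          dsimp only
          rw [show b + (a - a') = b' by omega]; exact kb'.1⟩
      · dsimp only
        rw [show a' + (a - a') = a by omega, show b + (a - a') = b' by omega]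
  have hc0 : X₀.card ≤ A₁.card * A₂.card := card_image_le.trans (le_of_eq (card_product _ _))
  have hcd : ∀ d, (Q d ×ˢ Q d).card = pd R d ^ 2 := fun d => by
    rw [card_product, sq]
    rfl
  have hc1 : X₁.card ≤ ∑ d ∈ Ioc 0 R, pd R d ^ 2 :=
    card_biUnion_le.trans (sum_le_sum fun d _ => card_image_le.trans (hcd d).le)
  have hc2 : X₂.card ≤ ∑ d ∈ Ioc 0 R, pd R d ^ 2 :=
    card_biUnion_le.trans (sum_le_sum fun d _ => card_image_le.trans (hcd d).le)
  have h := (card_le_card hsub).trans (card_union_le _ _)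
  have h' := card_union_le X₁ X₂
  change ((((A₁ ×ˢ A₁) ×ˢ A₂ ×ˢ A₂).filter fun x => x.1.1 + x.2.1 = x.1.2 + x.2.2)).card ≤ _
  omega

/-- Cauchy-Schwarz: many sums of two primes -/
theorem energy : ∃ C : ℝ, 0 < C ∧ ∃ R₀ : ℕ, ∀ R ≥ R₀, ∀ A₁ A₂ : Finset ℕ,
    (∀ p ∈ A₁, p.Prime ∧ p ≤ R) → (∀ p ∈ A₂, p.Prime ∧ p ≤ R) →
    ((A₁.card : ℝ) * A₂.card) ^ 2 ≤ ((A₁ ×ˢ A₂).image fun q => q.1 + q.2).card *
      ((A₁.card : ℝ) * A₂.card + C * R ^ 3 / Real.log R ^ 4) := by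
  obtain ⟨C₁, hC₁, R₀, hpair⟩ := pairs_le
  obtain ⟨C₂, hC₂, hsing⟩ := sing_sum
  refine ⟨2 * C₁ ^ 2 * C₂, by positivity, R₀, fun R hR A₁ A₂ h1 h2 => ?_⟩
  have hE := energy_le R A₁ A₂ h1 h2
  have hcs := card_sq_le_card_mul_addEnergy A₁ A₂ ((A₁ ×ˢ A₂).image fun q => q.1 + q.2)
  have hall : ((A₁ ×ˢ A₂).filter fun xy => xy.1 + xy.2 ∈
      (A₁ ×ˢ A₂).image fun q => q.1 + q.2) = A₁ ×ˢ A₂ := by
    refine filter_true_of_mem fun x hx => ?_
    exact mem_image_of_mem (fun q : ℕ × ℕ => q.1 + q.2) hx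
  rw [hall, card_product] at hcs
  have hsumd : ∑ d ∈ Ioc 0 R, (pd R d : ℝ) ^ 2 ≤ C₁ ^ 2 * C₂ * R ^ 3 / Real.log R ^ 4 := by
    calc ∑ d ∈ Ioc 0 R, (pd R d : ℝ) ^ 2 ≤ ∑ d ∈ Ioc 0 R, (C₁ * (R / Real.log R ^ 2)) ^ 2 *
          (∏ p ∈ d.primeFactors, (1 + 1 / (p : ℝ))) ^ 2 := by
          refine sum_le_sum fun d hd => ?_
          rw [mem_Ioc] at hd
          rw [← mul_pow]
          exact pow_le_pow_left₀ (Nat.cast_nonneg _) (hpair R hR d (by omega) hd.2) 2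
      _ = (C₁ * (R / Real.log R ^ 2)) ^ 2 *
          ∑ d ∈ Ioc 0 R, (∏ p ∈ d.primeFactors, (1 + 1 / (p : ℝ))) ^ 2 := by rw [mul_sum]
      _ ≤ (C₁ * (R / Real.log R ^ 2)) ^ 2 * (C₂ * R) :=
          mul_le_mul_of_nonneg_left (hsing R) (by positivity)
      _ = _ := by ring
  have hE' : ((A₁.addEnergy A₂ : ℕ) : ℝ) ≤
      (A₁.card : ℝ) * A₂.card + 2 * C₁ ^ 2 * C₂ * R ^ 3 / Real.log R ^ 4 := by
    have h3 : ((A₁.addEnergy A₂ : ℕ) : ℝ) ≤
        (A₁.card : ℝ) * A₂.card + 2 * ∑ d ∈ Ioc 0 R, (pd R d : ℝ) ^ 2 := by exact_mod_cast hE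
    have h4 : 2 * (C₁ ^ 2 * C₂ * (R : ℝ) ^ 3 / Real.log R ^ 4) =
        2 * C₁ ^ 2 * C₂ * R ^ 3 / Real.log R ^ 4 := by ring
    linarith
  have hcs' : ((A₁.card : ℝ) * A₂.card) ^ 2 ≤
      (((A₁ ×ˢ A₂).image fun q => q.1 + q.2).card : ℝ) * ((A₁.addEnergy A₂ : ℕ) : ℝ) := by
    exact_mod_cast hcs
  exact hcs'.trans (mul_le_mul_of_nonneg_left hE' (Nat.cast_nonneg _))

end Pool.Agent.CL24
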