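import Pool.Agent.CL24.Base

/-!
# One step of the spread lemma (pure counting)
-/

set_option autoImplicit false

namespace Pool.Agent.CL24

open Finset

section Sp1

variable {Ω ι : Type*} [Fintype Ω] [DecidableEq Ω] [DecidableEq ι]

/-- the zero set of a colouring -/
private def zs {q : ℕ} [NeZero q] (χ : Ω → Fin q) : Finset Ω := univ.filter fun x => χ x = 0

/-- the colouring set to zero on a set -/
private def s0 {q : ℕ} [NeZero q] (A : Finset Ω) (χ : Ω → Fin q) : Ω → Fin q :=
  fun x => if x ∈ A then 0 else χ x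

private theorem zs_s0 {q : ℕ} [NeZero q] (A : Finset Ω) (χ : Ω → Fin q) :
    zs (s0 A χ) = zs χ ∪ A := by
  ext x
  simp only [zs, s0, mem_filter, mem_univ, true_and, mem_union]
  by_cases hx : x ∈ A
  · simp [hx]
  · simp [hx]

/-- the indices `i` which can come from a counted pair mapped to `χ'` -/
private def gd (I : Finset ι) (T : ι → Finset Ω) (w : ℕ) {q : ℕ} [NeZero q] (χ : Ω → Fin q) :
    Finset ι :=
  I.filter fun i => T i ⊆ zs χ ∧ ∀ i' ∈ I, T i' ⊆ zs χ → w ≤ (T i' ∩ T i).card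

private theorem gd_card (I : Finset ι) (T : ι → Finset Ω) {N₀ r : ℝ} (hr : 0 < r) (hN : 0 ≤ N₀)
    {l w q : ℕ} [NeZero q] (hsz : ∀ i ∈ I, (T i).card ≤ l)
    (hsp : ∀ S : Finset Ω, ((I.filter fun i => S ⊆ T i).card : ℝ) * r ^ S.card ≤ N₀)
    (χ : Ω → Fin q) : ((gd I T w χ).card : ℝ) * r ^ w ≤ 2 ^ l * N₀ := by
  rcases (gd I T w χ).eq_empty_or_nonempty with h | ⟨i₀, hi₀⟩
  · rw [h]
    simp only [card_empty, Nat.cast_zero, zero_mul]
    positivity
  · have h0 := hi₀
    simp only [gd, mem_filter] at h0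
    have hsub : gd I T w χ ⊆
        ((T i₀).powersetCard w).biUnion fun R => I.filter fun i => R ⊆ T i := by
      intro i hi
      simp only [gd, mem_filter] at hi
      obtain ⟨R, hR, hRc⟩ := exists_subset_card_eq (hi.2.2 i₀ h0.1 h0.2.1)
      rw [mem_biUnion]
      refine ⟨R, ?_, ?_⟩
      · rw [mem_powersetCard]
        exact ⟨hR.trans inter_subset_left, hRc⟩
      · rw [mem_filter]
        exact ⟨hi.1, hR.trans inter_subset_right⟩
    have h1 : ((gd I T w χ).card : ℝ) ≤
        ∑ R ∈ (T i₀).powersetCard w, ((I.filter fun i => R ⊆ T i).card : ℝ) := by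
      have := (card_le_card hsub).trans card_biUnion_le
      exact_mod_cast this
    have h2 : (((T i₀).powersetCard w).card : ℝ) ≤ 2 ^ l := by
      have h3 : ((T i₀).powersetCard w).card ≤ 2 ^ l := by
        calc ((T i₀).powersetCard w).card ≤ (T i₀).powerset.card :=
              card_le_card (fun R hR => by
                rw [mem_powersetCard] at hR
                rw [mem_powerset]
                exact hR.1)
          _ = 2 ^ (T i₀).card := card_powerset _
          _ ≤ 2 ^ l := Nat.pow_le_pow_right (by norm_num) (hsz i₀ h0.1)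
      exact_mod_cast h3
    calc ((gd I T w χ).card : ℝ) * r ^ w
        ≤ (∑ R ∈ (T i₀).powersetCard w, ((I.filter fun i => R ⊆ T i).card : ℝ)) * r ^ w := by
          apply mul_le_mul_of_nonneg_right h1 (by positivity)
      _ = ∑ R ∈ (T i₀).powersetCard w, ((I.filter fun i => R ⊆ T i).card : ℝ) * r ^ w := by
          rw [sum_mul]
      _ ≤ ∑ R ∈ (T i₀).powersetCard w, N₀ := by
          apply sum_le_sum
          intro R hR
          rw [mem_powersetCard] at hR
          have := hsp R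
          rw [hR.2] at this
          exact this
      _ = (((T i₀).powersetCard w).card : ℝ) * N₀ := by
          rw [sum_const, nsmul_eq_mul]
      _ ≤ 2 ^ l * N₀ := mul_le_mul_of_nonneg_right h2 hN

private theorem fib {q : ℕ} [NeZero q] (A : Finset Ω) (χ' : Ω → Fin q)
    (s : Finset (Ω → Fin q)) :
    (s.filter fun χ => s0 A χ = χ').card ≤ q ^ A.card := by
  have h1 : (s.filter fun χ => s0 A χ = χ').card ≤
      (univ : Finset ((↥A) → Fin q)).card := by
    refine card_le_card_of_injOn (fun χ => fun x : ↥A => χ x) (fun χ _ => mem_coe.2 (mem_univ _)) ?_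
    intro χ hχ ψ hψ h
    rw [mem_coe, mem_filter] at hχ hψ
    funext x
    by_cases hx : x ∈ A
    · exact congrFun h ⟨x, hx⟩
    · have h2 := congrFun (hχ.2.trans hψ.2.symm) x
      simpa [s0, hx] using h2
  refine h1.trans (le_of_eq ?_)
  rw [card_univ, Fintype.card_fun, Fintype.card_fin, Fintype.card_coe]

theorem one_step (I : Finset ι)
    (T : ι → Finset Ω) {N₀ r : ℝ} (hr : 0 < r) (hN : 0 ≤ N₀) {l w q : ℕ} [NeZero q]
    (hsz : ∀ i ∈ I, (T i).card ≤ l)
    (hsp : ∀ S : Finset Ω, ((I.filter fun i => S ⊆ T i).card : ℝ) * r ^ S.card ≤ N₀) :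
    (∑ χ : Ω → Fin q, ((I.filter fun i => ∀ i' ∈ I,
        T i' ⊆ (univ.filter fun x => χ x = 0) ∪ T i →
          w ≤ (T i' \ (univ.filter fun x => χ x = 0)).card).card : ℝ)) * r ^ w ≤
      (2 * q : ℝ) ^ l * N₀ * (q : ℝ) ^ Fintype.card Ω := by
  have hkey : (∑ χ : Ω → Fin q, (I.filter fun i => ∀ i' ∈ I,
        T i' ⊆ (univ.filter fun x => χ x = 0) ∪ T i →
          w ≤ (T i' \ (univ.filter fun x => χ x = 0)).card).card) ≤
      q ^ l * ∑ χ : Ω → Fin q, (gd I T w χ).card := by
    have e1 : (∑ χ : Ω → Fin q, (I.filter fun i => ∀ i' ∈ I,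
        T i' ⊆ (univ.filter fun x => χ x = 0) ∪ T i →
          w ≤ (T i' \ (univ.filter fun x => χ x = 0)).card).card) =
        ∑ i ∈ I, (univ.filter fun χ : Ω → Fin q => ∀ i' ∈ I,
          T i' ⊆ zs χ ∪ T i → w ≤ (T i' \ zs χ).card).card := by
      simp only [card_filter, zs]
      rw [sum_comm]
    have e2 : ∑ χ : Ω → Fin q, (gd I T w χ).card =
        ∑ i ∈ I, (univ.filter fun χ : Ω → Fin q =>
          T i ⊆ zs χ ∧ ∀ i' ∈ I, T i' ⊆ zs χ → w ≤ (T i' ∩ T i).card).card := by
      simp only [card_filter, gd]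
      rw [sum_comm]
    rw [e1, e2, mul_sum]
    apply sum_le_sum
    intro i hi
    refine (card_le_mul_card_image_of_maps_to (f := s0 (T i))
      (t := univ.filter fun χ : Ω → Fin q =>
          T i ⊆ zs χ ∧ ∀ i' ∈ I, T i' ⊆ zs χ → w ≤ (T i' ∩ T i).card) ?_ (q ^ l) ?_)
    · intro χ hχ
      rw [mem_filter] at hχ ⊢
      refine ⟨mem_univ _, ?_, ?_⟩
      · rw [zs_s0]; exact subset_union_right
      · intro i' hi' h
        rw [zs_s0] at h
        refine (hχ.2 i' hi' h).trans (card_le_card ?_)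
        intro x hx
        rw [mem_sdiff] at hx
        rw [mem_inter]
        refine ⟨hx.1, ?_⟩
        rcases mem_union.1 (h hx.1) with h1 | h1
        · exact absurd h1 hx.2
        · exact h1
    · intro χ' _
      exact (fib (T i) χ' _).trans (Nat.pow_le_pow_right (NeZero.pos q) (hsz i hi))
  have hkey' : (∑ χ : Ω → Fin q, ((I.filter fun i => ∀ i' ∈ I,
        T i' ⊆ (univ.filter fun x => χ x = 0) ∪ T i →
          w ≤ (T i' \ (univ.filter fun x => χ x = 0)).card).card : ℝ)) ≤
      (q : ℝ) ^ l * ∑ χ : Ω → Fin q, ((gd I T w χ).card : ℝ) := by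
    exact_mod_cast hkey
  calc _ ≤ ((q : ℝ) ^ l * ∑ χ : Ω → Fin q, ((gd I T w χ).card : ℝ)) * r ^ w :=
        mul_le_mul_of_nonneg_right hkey' (by positivity)
    _ = (q : ℝ) ^ l * ∑ χ : Ω → Fin q, ((gd I T w χ).card : ℝ) * r ^ w := by
        rw [mul_assoc, sum_mul]
    _ ≤ (q : ℝ) ^ l * ∑ χ : Ω → Fin q, 2 ^ l * N₀ := by
        apply mul_le_mul_of_nonneg_left _ (by positivity)
        exact sum_le_sum fun χ _ => gd_card I T hr hN hsz hsp χ
    _ = (2 * q : ℝ) ^ l * N₀ * (q : ℝ) ^ Fintype.card Ω := by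
        rw [sum_const, nsmul_eq_mul, card_univ, Fintype.card_fun, Fintype.card_fin, mul_pow]
        push_cast
        ring

end Sp1

end Pool.Agent.CL24
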